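import Pool.Agent.TH326.L1e

set_option autoImplicit false

namespace Pool.Agent.TH326.L1

open scoped BigOperators

/-- the space `ℓ₁` -/
abbrev X1 : Type := lp (fun _ : ℕ => ℝ) 1

/-- truncation to the first `n` coordinates -/
noncomputable def P1 (n : ℕ) : X1 →ₗ[ℝ] X1 where
  toFun x := ∑ i ∈ Finset.range n, lp.single 1 i (x i)
  map_add' x y := by
    rw [← Finset.sum_add_distrib]
    refine Finset.sum_congr rfl fun i _ => ?_
    rw [← lp.single_add]
    rfl
  map_smul' c x := by
    rw [Finset.smul_sum]
    refine Finset.sum_congr rfl fun i _ => ?_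
    rw [RingHom.id_apply, ← lp.single_smul]
    rfl

theorem P1_def (n : ℕ) (x : X1) : P1 n x = ∑ i ∈ Finset.range n, lp.single 1 i (x i) := rfl

theorem P1_apply (n : ℕ) (x : X1) (j : ℕ) : (P1 n x) j = if j < n then x j else 0 := by
  rw [P1_def, lp.coeFn_sum, Finset.sum_apply]
  simp only [lp.coeFn_single, Finset.sum_pi_single, Finset.mem_range]

theorem norm_P1 (n : ℕ) (x : X1) : ‖P1 n x‖ = ∑ i ∈ Finset.range n, |x i| := by
  have h := lp.norm_sum_single (p := 1) (E := fun _ : ℕ => ℝ) (by simp) (fun i => x i)
    (Finset.range n)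
  simpa [P1_def] using h

theorem split1 (n : ℕ) (x : X1) : ‖x‖ = ‖P1 n x‖ + ‖x - P1 n x‖ := by
  have h := lp.norm_sub_norm_compl_sub_single (p := 1) (E := fun _ : ℕ => ℝ) (by simp) x
    (Finset.range n)
  have h2 := norm_P1 n x
  simp only [ENNReal.toReal_one, Real.rpow_one, Real.norm_eq_abs] at h
  rw [← P1_def] at h
  linarith

/-- the coordinate structure of `ℓ₁` -/
noncomputable def D1 : Dec X1 where
  P := P1
  c := fun n x => x n
  e := fun n => lp.single 1 n 1
  P_zero := fun x => by rw [P1_def]; simp
  P_succ := fun n x => by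
    rw [P1_def, P1_def, Finset.sum_range_succ, ← lp.single_smul, smul_eq_mul, mul_one]
  norm_e := fun n => by rw [lp.norm_single (by simp)]; simp
  norm_succ := fun n x => by rw [norm_P1, norm_P1, Finset.sum_range_succ]
  P_low := fun m n x h => by
    ext j
    rw [P1_apply, P1_apply, P1_apply]
    split_ifs <;> first | rfl | omega
  P_high := fun m n x h => by
    ext j
    rw [P1_apply, P1_apply]
    split_ifs <;> first | rfl | omega
  split := split1
  tend := fun x => (lp.hasSum_single (by simp) x).tendsto_sum_nat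

end Pool.Agent.TH326.L1
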