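import Pool.Agent.TH326.C0

set_option autoImplicit false

/-!
Block maps on `c₀`.
-/

namespace Pool.Agent.TH326.C0

open Set Filter Topology
open scoped ZeroAtInfty

/-- the embedding of `c₀` as the `n`-th block -/
noncomputable def jj (n : ℕ) (x : c0) : c0 :=
  mk (fun m => if (Nat.unpair m).1 = n then x (Nat.unpair m).2 else 0) (by
    rw [Metric.tendsto_atTop]
    intro ε hε
    obtain ⟨N, hN⟩ := Metric.tendsto_atTop.1 (tendsto_zero x) ε hε
    refine ⟨(Nat.pair n N + 1) + ∑ i ∈ Finset.range N, (Nat.pair n i + 1), fun m hm => ?_⟩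
    split_ifs with h
    · refine hN _ ?_
      by_contra hcon
      push Not at hcon
      have h1 : Nat.pair n (Nat.unpair m).2 = m := by
        rw [← h]
        exact Nat.pair_unpair m
      have h2 : Nat.pair n (Nat.unpair m).2 + 1 ≤ ∑ i ∈ Finset.range N, (Nat.pair n i + 1) :=
        Finset.single_le_sum (f := fun i => Nat.pair n i + 1) (fun _ _ => Nat.zero_le _)
          (Finset.mem_range.2 hcon)
      omega
    · rwa [dist_self])

theorem jj_apply (n : ℕ) (x : c0) (m : ℕ) :
    jj n x m = if (Nat.unpair m).1 = n then x (Nat.unpair m).2 else 0 := rfl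

theorem jj_lip (n : ℕ) (x y : c0) : dist (jj n x) (jj n y) ≤ dist x y := by
  refine dist_le dist_nonneg fun m => ?_
  rw [jj_apply, jj_apply]
  split_ifs
  · exact abs_sub_le x y _
  · rw [sub_zero, abs_zero]
    exact dist_nonneg

/-- the part of `x` outside of the `n`-th block -/
noncomputable def out (n : ℕ) (x : c0) : c0 :=
  mk (fun m => if (Nat.unpair m).1 = n then 0 else x m) (by
    refine squeeze_zero_norm (fun m => ?_) (tendsto_zero_iff_norm_tendsto_zero.1 (tendsto_zero x))
    split_ifs
    · rw [norm_zero]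
      exact norm_nonneg _
    · exact le_rfl)

theorem out_apply (n : ℕ) (x : c0) (m : ℕ) :
    out n x m = if (Nat.unpair m).1 = n then 0 else x m := rfl

theorem out_lip (n : ℕ) (x y : c0) : dist (out n x) (out n y) ≤ dist x y := by
  refine dist_le dist_nonneg fun m => ?_
  rw [out_apply, out_apply]
  split_ifs
  · rw [sub_zero, abs_zero]
    exact dist_nonneg
  · exact abs_sub_le x y _

/-- the `n`-th block retraction -/
noncomputable def rr (n : ℕ) (x : c0) : c0 :=
  mk (fun m => st (x (Nat.pair n m)) ‖out n x‖) (by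
    have h1 : Tendsto (fun m => x (Nat.pair n m)) atTop (𝓝 0) :=
      (tendsto_zero x).comp (tendsto_atTop_mono (fun m => Nat.right_le_pair n m) tendsto_id)
    refine squeeze_zero_norm (fun m => ?_) (tendsto_zero_iff_norm_tendsto_zero.1 h1)
    rw [Real.norm_eq_abs, st_abs (norm_nonneg _)]
    refine max_le ?_ (norm_nonneg _)
    rw [Real.norm_eq_abs]
    have := norm_nonneg (out n x)
    linarith)

theorem rr_apply (n : ℕ) (x : c0) (m : ℕ) : rr n x m = st (x (Nat.pair n m)) ‖out n x‖ := rfl

theorem rr_lip (n : ℕ) (x y : c0) : dist (rr n x) (rr n y) ≤ 2 * dist x y := by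
  refine dist_le (by positivity) fun m => ?_
  rw [rr_apply, rr_apply]
  have h1 := st_lip (t := x (Nat.pair n m)) (t' := y (Nat.pair n m)) (norm_nonneg (out n x))
    (norm_nonneg (out n y))
  have h2 := abs_sub_le x y (Nat.pair n m)
  have h3 := abs_norm_sub_norm_le (out n x) (out n y)
  rw [← dist_eq_norm] at h3
  have h4 := out_lip n x y
  linarith

theorem rr_jj (n : ℕ) (x : c0) : rr n (jj n x) = x := by
  have h0 : out n (jj n x) = 0 := by
    ext m
    rw [out_apply]
    split_ifs with h
    · rfl
    · rw [jj_apply, if_neg h]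
      rfl
  ext m
  rw [rr_apply, h0, norm_zero, st_zero, jj_apply, Nat.unpair_pair]
  simp

theorem rr_jj_ne {n k : ℕ} (h : n ≠ k) (x : c0) : rr n (jj k x) = 0 := by
  ext m
  rw [rr_apply, jj_apply, Nat.unpair_pair]
  simp only [if_neg h]
  rw [st_eq_zero (norm_nonneg _) (by rw [abs_zero]; exact norm_nonneg _)]
  rfl

theorem rr_zero (n : ℕ) : rr n 0 = 0 := by
  ext m
  rw [rr_apply]
  exact st_eq_zero (norm_nonneg _) (by
    show |(0 : c0) _| ≤ _
    rw [ZeroAtInftyContinuousMap.zero_apply, abs_zero]
    exact norm_nonneg _)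

/-- at most one of the block retractions is nonzero at each point -/
theorem rr_unique {x : c0} {n k : ℕ} (hn : rr n x ≠ 0) (hk : rr k x ≠ 0) : n = k := by
  by_contra hne
  have key : ∀ a b : ℕ, a ≠ b → rr a x ≠ 0 → ∃ m, ∀ l, |x (Nat.pair b l)| < |x (Nat.pair a m)| := by
    intro a b hab ha
    by_contra hcon
    push Not at hcon
    apply ha
    ext m
    obtain ⟨l, hl⟩ := hcon m
    rw [rr_apply]
    refine st_eq_zero (norm_nonneg _) (hl.trans ?_)
    have h1 := abs_le_norm (out a x) (Nat.pair b l)
    rwa [out_apply, Nat.unpair_pair, if_neg (by exact hab.symm)] at h1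
  obtain ⟨m, hm⟩ := key n k hne hn
  obtain ⟨l, hl⟩ := key k n (Ne.symm hne) hk
  exact absurd (hm l) (not_lt.2 (hl m).le)

/-- finitely supported sequences as elements of `c₀` -/
noncomputable def ofFs (v : ℕ →₀ ℚ) : c0 :=
  mk (fun n => (v n : ℝ)) (by
    have h : Tendsto (fun n => (v n : ℝ)) cofinite (𝓝 0) := by
      refine tendsto_const_nhds.congr' ?_
      have h1 : ∀ᶠ n in cofinite, v n = 0 := by
        have := v.hasFiniteSupport
        rw [Filter.eventually_cofinite]
        exact this.subset fun n hn => hn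
      filter_upwards [h1] with n hn
      rw [hn, Rat.cast_zero]
    rwa [Nat.cofinite_eq_atTop] at h)

instance sep : TopologicalSpace.SeparableSpace c0 := by
  refine ⟨⟨range ofFs, countable_range _, ?_⟩⟩
  intro x
  rw [Metric.mem_closure_range_iff]
  intro ε hε
  obtain ⟨N, hN⟩ := Metric.tendsto_atTop.1 (tendsto_zero x) (ε / 2) (half_pos hε)
  have hq : ∀ n, ∃ q : ℚ, |x n - q| < ε / 2 := fun n => by
    obtain ⟨q, hq⟩ := Rat.denseRange_cast (𝕜 := ℝ) |>.exists_dist_lt (x n) (half_pos hε)
    exact ⟨q, by rwa [Real.dist_eq] at hq⟩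
  choose q hq using hq
  refine ⟨Finsupp.onFinset (Finset.range N) (fun n => if n < N then q n else 0) (fun n hn => by
    rw [Finset.mem_range]
    by_contra hcon
    exact hn (if_neg hcon)), ?_⟩
  refine lt_of_le_of_lt (dist_le (C := ε / 2) (by positivity) fun n => ?_) (by linarith)
  show |x n - ((if n < N then q n else 0 : ℚ) : ℝ)| ≤ ε / 2
  split_ifs with h
  · exact (hq n).le
  · have := hN n (not_lt.1 h)
    rw [dist_zero_right] at this
    rw [Rat.cast_zero, sub_zero]
    exact this.le

end Pool.Agent.TH326.C0
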