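import Pool.Agent.TH326.Ury2

set_option autoImplicit false

/-!
The Urysohn space is an absolute Lipschitz retract, part 3: the extension theorem.
-/

namespace Pool.Agent.TH326.Ury

open Set Filter Topology

/-- strong recursion -/
noncomputable def recSeq {U : Type} (C : (n : ℕ) → ((m : ℕ) → m < n → U) → U) : ℕ → U
  | n => C n fun m _ => recSeq C m

theorem recSeq_eq {U : Type} (C : (n : ℕ) → ((m : ℕ) → m < n → U) → U) (n : ℕ) :
    recSeq C n = C n fun m _ => recSeq C m := by
  rw [recSeq]

/-- a sequence all of whose initial segments are good -/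
theorem exists_seq_good {U : Type} (P : (n : ℕ) → (ℕ → U) → U → Prop)
    (hloc : ∀ n x x' y, (∀ m < n, x m = x' m) → P n x y → P n x' y)
    (hex : ∀ n x, (∀ m < n, P m x (x m)) → ∃ y, P n x y) [Nonempty U] :
    ∃ x : ℕ → U, ∀ n, P n x (x n) := by
  classical
  let d : U := Classical.arbitrary U
  let C : (n : ℕ) → ((m : ℕ) → m < n → U) → U := fun n f =>
    Classical.epsilon fun y => P n (fun m => if hm : m < n then f m hm else d) y
  let x := recSeq C
  have hx : ∀ n, x n = Classical.epsilon fun y => P n (fun m => if m < n then x m else d) y := by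
    intro n
    show recSeq C n = _
    rw [recSeq_eq]
    show (Classical.epsilon fun y => P n (fun m => if hm : m < n then recSeq C m else d) y) = _
    simp only [dite_eq_ite]
    rfl
  refine ⟨x, fun n => ?_⟩
  induction n using Nat.strong_induction_on with
  | _ n ih =>
    obtain ⟨y, hy⟩ := hex n x ih
    have h1 : P n (fun m => if m < n then x m else d) y :=
      hloc n x _ y (fun m hm => by simp [hm]) hy
    have h2 : P n (fun m => if m < n then x m else d) (x n) := by
      rw [hx n]
      exact Classical.epsilon_spec (p := fun y => P n (fun m => if m < n then x m else d) y) ⟨y, h1⟩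
    exact hloc n _ x _ (fun m hm => by simp [hm]) h2

variable {U : Type} [MetricSpace U]

/-- **Main extension theorem.** Let `U` be the Urysohn space and let `(h_b)` be a `K`-Lipschitz
family of Katetov functions on `U`, indexed by a separable metric space `B`. There is a
`16 K`-Lipschitz map `F : B → U` with `d(F b, u) ≤ 6 h_b(u)`. -/
theorem main_ext [CompleteSpace U] [TopologicalSpace.SeparableSpace U] (hU : IsUrysohn U)
    {B : Type} [MetricSpace B] [TopologicalSpace.SeparableSpace B] (h : B → U → ℝ) (K : ℝ)
    (hK0 : 0 ≤ K) (hh : ∀ b, Kat (h b)) (hK : ∀ b b' u, |h b u - h b' u| ≤ K * dist b b') :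
    ∃ F : B → U, (∀ b b', dist (F b) (F b') ≤ 16 * K * dist b b') ∧
      ∀ b u, dist (F b) u ≤ 6 * h b u := by
  obtain ⟨f0, -⟩ := hU.univ PUnit
  haveI : Nonempty U := ⟨f0 PUnit.unit⟩
  rcases isEmpty_or_nonempty B with hB | hB
  · exact ⟨fun _ => f0 PUnit.unit, fun b => (hB.false b).elim, fun b => (hB.false b).elim⟩
  let p := TopologicalSpace.denseSeq U
  have hp : DenseRange p := TopologicalSpace.denseRange_denseSeq U
  let q := TopologicalSpace.denseSeq B
  have hq : DenseRange q := TopologicalSpace.denseRange_denseSeq B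
  set L : ℝ := 16 * K with hL
  have hL0 : 0 ≤ L := by positivity
  let k : B → U → ℝ := fun b => kk p (h b)
  have hk : ∀ b, Kat (k b) := fun b => kk_kat (hh b)
  have hkL : ∀ b b' u, k b u ≤ k b' u + L * dist b b' := fun b b' u => by
    have := kk_lip (p := p) (mul_nonneg hK0 dist_nonneg) (hh b) (hK b b') u
    rw [hL, mul_assoc]
    exact this
  have hsupp : ∀ b, ∃ S : Set U, S.Finite ∧ ∀ u, ∃ s ∈ S, k b s + dist s u ≤ k b u := fun b =>
    kk_support hp (hh b)
  -- the recursion
  let P : (n : ℕ) → (ℕ → U) → U → Prop := fun n x y =>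
    (∀ m < n, dist y (x m) ≤ L * dist (q n) (q m)) ∧ ∀ u, dist y u ≤ k (q n) u
  obtain ⟨x, hx⟩ := exists_seq_good P
    (fun n x x' y he hP => ⟨fun m hm => by rw [← he m hm]; exact hP.1 m hm, hP.2⟩)
    (fun n x ih => by
      obtain ⟨S, hS, hS2⟩ := hsupp (q n)
      haveI : Finite S := hS
      obtain ⟨y, hy⟩ := hU.balls (ι := Fin n ⊕ S) (Sum.elim (fun m => x m) fun s => (s : U))
        (Sum.elim (fun m => L * dist (q n) (q m)) fun s => k (q n) s) (by
          have hxx : ∀ i j : Fin n, dist (x i) (x j) ≤ L * dist (q i) (q j) := by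
            intro i j
            rcases lt_trichotomy (i : ℕ) j with hij | hij | hij
            · have := (ih j j.2).1 i hij
              rwa [dist_comm, dist_comm (q j)] at this
            · have : i = j := Fin.ext hij
              rw [this, dist_self]
              positivity
            · exact (ih i i.2).1 j hij
          have hxs : ∀ (i : Fin n) (s : S), dist (x i) (s : U) ≤ L * dist (q n) (q i) + k (q n) s := by
            intro i s
            have h1 := (ih i i.2).2 s
            have h2 := hkL (q i) (q n) s
            rw [dist_comm (q i) (q n)] at h2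
            linarith
          rintro (i | s) (j | t)
          · have h1 := hxx i j
            have h2 := mul_le_mul_of_nonneg_left (dist_triangle (q i) (q n) (q j)) hL0
            rw [mul_add, dist_comm (q i) (q n)] at h2
            exact h1.trans h2
          · exact hxs i t
          · have h1 := hxs j s
            rw [dist_comm] at h1
            show dist (s : U) (x j) ≤ k (q n) s + L * dist (q n) (q j)
            linarith
          · exact (hk (q n)).tri s t)
      refine ⟨y, fun m hm => hy (Sum.inl ⟨m, hm⟩), fun u => ?_⟩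
      obtain ⟨s, hs, hs2⟩ := hS2 u
      have h1 : dist y s ≤ k (q n) s := hy (Sum.inr ⟨s, hs⟩)
      have h2 := dist_triangle y s u
      linarith)
  have hxx : ∀ i j, dist (x i) (x j) ≤ L * dist (q i) (q j) := by
    intro i j
    rcases lt_trichotomy i j with hij | hij | hij
    · have := (hx j).1 i hij
      rwa [dist_comm, dist_comm (q j)] at this
    · rw [hij, dist_self]
      positivity
    · exact (hx i).1 j hij
  -- extension to the closure
  have hn : ∀ b : B, ∀ j : ℕ, ∃ n, dist b (q n) < 1 / ((j : ℝ) + 1) := fun b j =>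
    hq.exists_dist_lt b (by positivity)
  choose n hn using hn
  have hqn : ∀ b, Tendsto (fun j => q (n b j)) atTop (𝓝 b) := fun b => by
    rw [tendsto_iff_dist_tendsto_zero]
    refine squeeze_zero (fun _ => dist_nonneg) (fun j => ?_)
      (tendsto_one_div_add_atTop_nhds_zero_nat (𝕜 := ℝ))
    rw [dist_comm]
    exact (hn b j).le
  have hc : ∀ b, CauchySeq fun j => x (n b j) := fun b => by
    have hq2 : CauchySeq fun j => q (n b j) := (hqn b).cauchySeq
    rw [Metric.cauchySeq_iff] at hq2 ⊢
    intro ε hε
    obtain ⟨N, hN⟩ := hq2 (ε / (L + 1)) (by positivity)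
    refine ⟨N, fun i hi j hj => ?_⟩
    have h1 := hN i hi j hj
    have h2 := hxx (n b i) (n b j)
    rw [lt_div_iff₀ (by positivity)] at h1
    have h3 : (0 : ℝ) ≤ dist (q (n b i)) (q (n b j)) := dist_nonneg
    nlinarith
  choose F hF using fun b => cauchySeq_tendsto_of_complete (hc b)
  refine ⟨F, fun b b' => ?_, fun b u => ?_⟩
  · refine le_of_tendsto_of_tendsto' ((hF b).dist (hF b')) (((hqn b).dist (hqn b')).const_mul L)
      fun j => hxx _ _
  · have h1 : Tendsto (fun j => 6 * h b u + 6 * (K * dist b (q (n b j)))) atTop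
        (𝓝 (6 * h b u + 6 * (K * 0))) := by
      refine tendsto_const_nhds.add (Tendsto.const_mul 6 (Tendsto.const_mul K ?_))
      have := (tendsto_const_nhds (x := b)).dist (hqn b)
      rwa [dist_self] at this
    rw [mul_zero, mul_zero, add_zero] at h1
    refine le_of_tendsto_of_tendsto' ((hF b).dist tendsto_const_nhds) h1 fun j => ?_
    have h2 := (hx (n b j)).2 u
    have h3 := kk_le_six hp (hh (q (n b j))) u
    have h4 := (abs_le.1 (hK b (q (n b j)) u)).1
    show dist (x (n b j)) u ≤ _
    have h5 : k (q (n b j)) u = kk p (h (q (n b j))) u := rfl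
    linarith

/-- **The Urysohn space is an absolute Lipschitz retract** (for separable spaces): every Lipschitz
map from a subset of a separable metric space into `U` has a Lipschitz extension. -/
theorem lip_extension [CompleteSpace U] [TopologicalSpace.SeparableSpace U] (hU : IsUrysohn U)
    {B : Type} [MetricSpace B] [TopologicalSpace.SeparableSpace B] {A : Type} (i : A → B) (g : A → U)
    (K : ℝ) (hK0 : 0 ≤ K) (hg : ∀ a a', dist (g a) (g a') ≤ K * dist (i a) (i a')) :
    ∃ F : B → U, (∀ b b', dist (F b) (F b') ≤ 16 * K * dist b b') ∧ ∀ a, F (i a) = g a := by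
  obtain ⟨f0, -⟩ := hU.univ PUnit
  rcases isEmpty_or_nonempty A with hA | hA
  · refine ⟨fun _ => f0 PUnit.unit, fun b b' => ?_, fun a => (hA.false a).elim⟩
    rw [dist_self]
    positivity
  let h : B → U → ℝ := fun b u => ⨅ a, (K * dist (i a) b + dist (g a) u)
  have hbdd : ∀ b u, BddBelow (range fun a => K * dist (i a) b + dist (g a) u) := fun b u =>
    ⟨0, by rintro _ ⟨a, rfl⟩; exact add_nonneg (mul_nonneg hK0 dist_nonneg) dist_nonneg⟩
  have hle : ∀ b u a, h b u ≤ K * dist (i a) b + dist (g a) u := fun b u a => ciInf_le (hbdd b u) a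
  have hex : ∀ b u (ε : ℝ), 0 < ε → ∃ a, K * dist (i a) b + dist (g a) u < h b u + ε :=
    fun b u ε hε => exists_lt_of_ciInf_lt (lt_add_of_pos_right _ hε)
  obtain ⟨F, hF1, hF2⟩ := main_ext hU h K hK0
    (fun b => ⟨fun u v => by
      refine le_of_forall_pos_le_add fun ε hε => ?_
      obtain ⟨a, ha⟩ := hex b v ε hε
      have h1 := hle b u a
      have h2 := dist_triangle (g a) v u
      rw [dist_comm v u] at h2
      linarith, fun u v => by
      refine le_of_forall_pos_le_add fun ε hε => ?_
      obtain ⟨a, ha⟩ := hex b u (ε / 2) (half_pos hε)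
      obtain ⟨a', ha'⟩ := hex b v (ε / 2) (half_pos hε)
      have h1 := hg a a'
      have h2 := mul_le_mul_of_nonneg_left (dist_triangle (i a) b (i a')) hK0
      rw [mul_add, dist_comm b (i a')] at h2
      have h3 := dist_triangle4 u (g a) (g a') v
      rw [dist_comm u (g a)] at h3
      linarith⟩)
    (fun b b' u => by
      rw [abs_sub_le_iff]
      constructor
      · rw [sub_le_iff_le_add]
        refine le_of_forall_pos_le_add fun ε hε => ?_
        obtain ⟨a, ha⟩ := hex b' u ε hε
        have h1 := hle b u a
        have h2 := mul_le_mul_of_nonneg_left (dist_triangle (i a) b' b) hK0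
        rw [mul_add, dist_comm b' b] at h2
        linarith
      · rw [sub_le_iff_le_add]
        refine le_of_forall_pos_le_add fun ε hε => ?_
        obtain ⟨a, ha⟩ := hex b u ε hε
        have h1 := hle b' u a
        have h2 := mul_le_mul_of_nonneg_left (dist_triangle (i a) b b') hK0
        rw [mul_add] at h2
        linarith)
  refine ⟨F, hF1, fun a => ?_⟩
  have h1 := hF2 (i a) (g a)
  have h2 := hle (i a) (g a) a
  rw [dist_self, dist_self, mul_zero, add_zero] at h2
  have h3 : dist (F (i a)) (g a) ≤ 0 := by linarith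
  exact dist_le_zero.1 h3

end Pool.Agent.TH326.Ury
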