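import Pool.Agent.TH326.Free
import Pool.Agent.TH326.C0b
import Pool.Agent.TH326.Ury3

set_option autoImplicit false

/-!
`F(c₀) ≃ ℓ₁(F(c₀))` and `F(c₀) ≃ F(U)`, `U` the Urysohn space.
-/

namespace Pool.Agent.TH326.Free

open Set Filter Topology
open scoped NNReal
open Pool.Agent.H621R3.LF Pool.Agent.TH326.C0

variable {E : Type*} [NormedAddCommGroup E] [NormedSpace ℝ E] [CompleteSpace E] {δ : c0 → E}

instance csEll (X : Type*) [NormedAddCommGroup X] [NormedSpace ℝ X] [CompleteSpace X] :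
    CompleteSpace (EllP 1 X) := PBanach.complete 1

noncomputable instance nsEll (X : Type*) [NormedAddCommGroup X] [NormedSpace ℝ X] [CompleteSpace X] :
    NormedSpace ℝ (EllP 1 X) where
  norm_smul_le c f := by
    rw [PBanach.norm_smul (p := 1), Real.rpow_one, Real.norm_eq_abs]

/-- the sequence `(δ (r_n x))_n` -/
noncomputable def seqR (hδ : δ 0 = 0) (x : c0) : EllP 1 E :=
  EllP.mk' (fun n => δ (rr n x)) (by
    classical
    by_cases h : ∃ k, rr k x ≠ 0
    · obtain ⟨k, hk⟩ := h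
      refine summable_of_ne_finset_zero (s := {k}) fun n hn => ?_
      rw [Finset.mem_singleton] at hn
      have : rr n x = 0 := by
        by_contra hcon
        exact hn (rr_unique hcon hk)
      rw [this, hδ, norm_zero]
    · push Not at h
      simp only [h, hδ, norm_zero]
      exact summable_zero)

omit [NormedSpace ℝ E] [CompleteSpace E] in
theorem seqR_apply (hδ : δ 0 = 0) (x : c0) (n : ℕ) : seqR hδ x n = δ (rr n x) := rfl

/-- `ℓ₁(F(c₀))` is complemented in `F(c₀)` -/
theorem ell_compl (h : IsFree (0 : c0) δ) :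
    ∃ (S : EllP 1 E →L[ℝ] E) (R : E →L[ℝ] EllP 1 E), ∀ w, R (S w) = w := by
  classical
  obtain ⟨R, hR, -⟩ := h.lift (seqR h.base) 4 (by norm_num) (fun x y => by
    -- at most two nonzero coordinates
    have hex : ∀ x : c0, ∃ k, ∀ n, n ≠ k → rr n x = 0 := fun x => by
      by_cases h : ∃ k, rr k x ≠ 0
      · obtain ⟨k, hk⟩ := h
        exact ⟨k, fun n hn => by
          by_contra hcon
          exact hn (rr_unique hcon hk)⟩
      · push Not at h
        exact ⟨0, fun n _ => h n⟩
    obtain ⟨k, hk⟩ := hex x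
    obtain ⟨l, hl⟩ := hex y
    rw [EllP.norm_eq, tsum_eq_sum (s := {k, l})]
    · have h1 : ∀ n, ‖(seqR h.base x - seqR h.base y : EllP 1 E) n‖ ≤ 2 * dist x y := fun n => by
        rw [EllP.sub_apply, seqR_apply, seqR_apply]
        exact (h.lip _ _).trans (rr_lip n x y)
      calc ∑ n ∈ ({k, l} : Finset ℕ), ‖(seqR h.base x - seqR h.base y : EllP 1 E) n‖
          ≤ ∑ n ∈ ({k, l} : Finset ℕ), 2 * dist x y := Finset.sum_le_sum fun n _ => h1 n
        _ = (({k, l} : Finset ℕ).card : ℝ) * (2 * dist x y) := by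
          rw [Finset.sum_const, nsmul_eq_mul]
        _ ≤ 2 * (2 * dist x y) := by
          refine mul_le_mul_of_nonneg_right ?_ (by positivity)
          exact_mod_cast Finset.card_le_two
        _ = 4 * dist x y := by ring
    · intro n hn
      simp only [Finset.mem_insert, Finset.mem_singleton, not_or] at hn
      rw [EllP.sub_apply, seqR_apply, seqR_apply, hk n hn.1, hl n hn.2, sub_self, norm_zero])
    (EllP.ext fun n => by rw [seqR_apply, rr_zero, h.base, EllP.zero_apply])
  have hS : ∀ n, ∃ S : E →L[ℝ] E, (∀ x, S (δ x) = δ (jj n x) - δ (jj n 0)) ∧ ‖S‖ ≤ 1 := fun n =>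
    h.lift (fun x => δ (jj n x) - δ (jj n 0)) 1 zero_le_one (fun x y => by
      rw [sub_sub_sub_cancel_right, one_mul]
      exact (h.lip _ _).trans (jj_lip n x y)) (sub_self _)
  choose S hS1 hS2 using hS
  have hj0 : ∀ n, δ (jj n 0) = 0 := fun n => by
    have : jj n 0 = 0 := by
      ext m
      rw [jj_apply]
      simp
    rw [this, h.base]
  refine ⟨sumMap S 1 (fun n y => ((S n).le_opNorm y).trans
    (mul_le_mul_of_nonneg_right (hS2 n) (norm_nonneg y))), R, fun w => ?_⟩
  have h1 : R.comp (sumMap S 1 (fun n y => ((S n).le_opNorm y).trans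
      (mul_le_mul_of_nonneg_right (hS2 n) (norm_nonneg y)))) = ContinuousLinearMap.id ℝ (EllP 1 E) := by
    refine ext_inj (p := 1) fun i y => ?_
    show R (sumMap S 1 _ (inj i y)) = inj i y
    rw [sumMap_inj]
    have h2 : R.comp (S i) = inj i := h.ext_map fun x => by
      show R (S i (δ x)) = inj i (δ x)
      rw [hS1, hj0, sub_zero, hR]
      refine EllP.ext fun n => ?_
      rw [seqR_apply, inj_apply]
      split_ifs with hn
      · rw [hn, rr_jj]
      · rw [rr_jj_ne hn, h.base]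
    exact congrArg (fun T : E →L[ℝ] EllP 1 E => T y) h2
  exact congrArg (fun T : EllP 1 E →L[ℝ] EllP 1 E => T w) h1

/-- **`F(c₀)` is isomorphic to the free space over the Urysohn space.** -/
theorem c0_iso_urysohn (h : IsFree (0 : c0) δ) {U : Type} [MetricSpace U] [CompleteSpace U]
    [TopologicalSpace.SeparableSpace U] (hU : Pool.Agent.TH326.Ury.IsUrysohn U)
    {u0 : U}
    {F : Type*} [NormedAddCommGroup F] [NormedSpace ℝ F] [CompleteSpace F] {ε : U → F}
    (hF : IsFree u0 ε) : Nonempty (E ≃L[ℝ] F) := by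
  obtain ⟨S0, R0, hRS0⟩ := ell_compl h
  obtain ⟨e⟩ := pelczynski (p := 1) one_pos S0 R0 hRS0
  -- `U` is a Lipschitz retract of `c₀`
  obtain ⟨φ, hφ1, hφ2⟩ := aharoni U
  obtain ⟨ρ, hρ1, hρ2⟩ := Pool.Agent.TH326.Ury.lip_extension hU (B := c0) φ (id : U → U) 32
    (by norm_num) (fun x y => hφ2 x y)
  obtain ⟨S, R, hRS⟩ := exists_compl hF h φ ρ 1 (16 * 32) zero_le_one (by norm_num)
    (fun x y => by rw [one_mul]; exact hφ1 x y) hρ1 hρ2
  -- `c₀` is a Lipschitz retract of `U`
  obtain ⟨ι, hι⟩ := hU.univ c0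
  obtain ⟨σ, hσ1, hσ2⟩ := Pool.Agent.TH326.C0.lip_extension ι (id : c0 → c0) 1 zero_le_one
    (fun x y => by rw [one_mul, hι.dist_eq]; exact le_rfl)
  obtain ⟨S', R', hRS'⟩ := exists_compl h hF ι σ 1 (2 * 1) zero_le_one (by norm_num)
    (fun x y => by rw [one_mul, hι.dist_eq]) hσ1 hσ2
  exact decomp e S R hRS S' R' hRS'

end Pool.Agent.TH326.Free
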