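import Mathlib

set_option autoImplicit false

/-!
Lipschitz geometry of `c₀`: Lipschitz extensions of maps into `c₀`, Aharoni's embedding theorem, and
the maps behind `F(c₀) ≃ ℓ₁(F(c₀))`.
-/

namespace Pool.Agent.TH326.C0

open Set Filter Topology
open scoped ZeroAtInfty

/-- the Banach space `c₀` -/
abbrev c0 : Type := ZeroAtInftyContinuousMap ℕ ℝ

/-- constructor -/
noncomputable def mk (f : ℕ → ℝ) (hf : Tendsto f atTop (𝓝 0)) : c0 where
  toFun := f
  continuous_toFun := continuous_of_discreteTopology
  zero_at_infty' := by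
    rw [cocompact_eq_cofinite, Nat.cofinite_eq_atTop]
    exact hf

@[simp] theorem mk_apply (f : ℕ → ℝ) (hf : Tendsto f atTop (𝓝 0)) (n : ℕ) : mk f hf n = f n := rfl

theorem tendsto_zero (x : c0) : Tendsto x atTop (𝓝 0) := by
  have := x.zero_at_infty'
  rw [cocompact_eq_cofinite, Nat.cofinite_eq_atTop] at this
  exact this

theorem abs_sub_le (x y : c0) (n : ℕ) : |x n - y n| ≤ dist x y := by
  rw [← ZeroAtInftyContinuousMap.dist_toBCF_eq_dist]
  have := BoundedContinuousFunction.dist_coe_le_dist (f := x.toBCF) (g := y.toBCF) n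
  rwa [Real.dist_eq] at this

theorem dist_le {x y : c0} {C : ℝ} (hC : 0 ≤ C) (h : ∀ n, |x n - y n| ≤ C) : dist x y ≤ C := by
  rw [← ZeroAtInftyContinuousMap.dist_toBCF_eq_dist, BoundedContinuousFunction.dist_le hC]
  intro n
  rw [Real.dist_eq]
  exact h n

theorem norm_le {x : c0} {C : ℝ} (hC : 0 ≤ C) (h : ∀ n, |x n| ≤ C) : ‖x‖ ≤ C := by
  rw [← dist_zero_right]
  exact dist_le hC fun n => by simpa using h n

theorem abs_le_norm (x : c0) (n : ℕ) : |x n| ≤ ‖x‖ := by
  rw [← dist_zero_right]
  simpa using abs_sub_le x 0 n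

/-- soft thresholding -/
noncomputable def st (t L : ℝ) : ℝ := max (t - L) 0 - max (-t - L) 0

theorem st_zero (t : ℝ) : st t 0 = t := by
  unfold st
  rcases le_total 0 t with h | h
  · rw [max_eq_left (by linarith), max_eq_right (by linarith)]
    ring
  · rw [max_eq_right (by linarith), max_eq_left (by linarith)]
    ring

theorem st_abs {t L : ℝ} (hL : 0 ≤ L) : |st t L| = max (|t| - L) 0 := by
  unfold st
  rcases le_total 0 t with h | h
  · rw [abs_of_nonneg h, max_eq_right (show -t - L ≤ 0 by linarith), sub_zero,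
      abs_of_nonneg (le_max_right _ _)]
  · rw [abs_of_nonpos h, max_eq_right (show t - L ≤ 0 by linarith), zero_sub, abs_neg,
      abs_of_nonneg (le_max_right _ _)]

theorem st_eq_zero {t L : ℝ} (hL : 0 ≤ L) (h : |t| ≤ L) : st t L = 0 := by
  rw [← abs_eq_zero, st_abs hL, max_eq_right (by linarith)]

theorem abs_max_sub_max (a b : ℝ) : |max a 0 - max b 0| ≤ |a - b| := by
  have := abs_max_sub_max_le_abs a b 0
  exact this

theorem st_lip {t t' L L' : ℝ} (hL : 0 ≤ L) (hL' : 0 ≤ L') :
    |st t L - st t' L'| ≤ |t - t'| + |L - L'| := by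
  have key : ∀ a b c d : ℝ, |a - b - (c - d)| ≤ |a - c| + |b - d| := fun a b c d => by
    have : a - b - (c - d) = (a - c) - (b - d) := by ring
    rw [this]
    exact abs_sub _ _
  -- change `L` first and then `t`
  have h1 : |st t L - st t L'| ≤ |L - L'| := by
    rcases le_total 0 t with h | h
    · unfold st
      rw [max_eq_right (show -t - L ≤ 0 by linarith), max_eq_right (show -t - L' ≤ 0 by linarith),
        sub_zero, sub_zero]
      refine (abs_max_sub_max _ _).trans (le_of_eq ?_)
      rw [show t - L - (t - L') = -(L - L') by ring, abs_neg]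
    · unfold st
      rw [max_eq_right (show t - L ≤ 0 by linarith), max_eq_right (show t - L' ≤ 0 by linarith),
        zero_sub, zero_sub, neg_sub_neg, abs_sub_comm]
      refine (abs_max_sub_max _ _).trans (le_of_eq ?_)
      rw [show -t - L - (-t - L') = -(L - L') by ring, abs_neg]
  have h2 : |st t L' - st t' L'| ≤ |t - t'| := by
    have hmono : ∀ a b : ℝ, a ≤ b → st a L' ≤ st b L' ∧ st b L' - st a L' ≤ b - a := by
      intro a b hab
      unfold st
      constructor
      · have h3 : max (a - L') 0 ≤ max (b - L') 0 := max_le_max (by linarith) le_rfl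
        have h4 : max (-b - L') 0 ≤ max (-a - L') 0 := max_le_max (by linarith) le_rfl
        linarith
      · rcases le_total (b - L') 0 with h3 | h3 <;> rcases le_total (-a - L') 0 with h4 | h4
        · have h5 : 0 ≤ max (a - L') 0 := le_max_right _ _
          have h6 : 0 ≤ max (-b - L') 0 := le_max_right _ _
          rw [max_eq_right h3, max_eq_right h4]
          linarith
        · have h5 : 0 ≤ max (a - L') 0 := le_max_right _ _
          have h6 : -b - L' ≤ max (-b - L') 0 := le_max_left _ _
          rw [max_eq_right h3, max_eq_left h4]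
          linarith
        · have h5 : a - L' ≤ max (a - L') 0 := le_max_left _ _
          have h6 : 0 ≤ max (-b - L') 0 := le_max_right _ _
          rw [max_eq_left h3, max_eq_right h4]
          linarith
        · have h5 : 0 ≤ max (a - L') 0 := le_max_right _ _
          have h6 : 0 ≤ max (-b - L') 0 := le_max_right _ _
          rw [max_eq_left h3, max_eq_left h4]
          linarith
    rcases le_total t t' with h | h
    · obtain ⟨h3, h4⟩ := hmono t t' h
      rw [abs_sub_comm, abs_of_nonneg (by linarith), abs_sub_comm t, abs_of_nonneg (by linarith)]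
      exact h4
    · obtain ⟨h3, h4⟩ := hmono t' t h
      rw [abs_of_nonneg (by linarith), abs_of_nonneg (by linarith)]
      exact h4
  have h3 := _root_.abs_sub_le (st t L) (st t L') (st t' L')
  linarith

/-- **`c₀` is an absolute Lipschitz retract**: extension of Lipschitz maps into `c₀` -/
theorem lip_extension {M : Type*} [MetricSpace M] {A : Type*} (i : A → M) (g : A → c0) (K : ℝ)
    (hK0 : 0 ≤ K) (hg : ∀ a a', dist (g a) (g a') ≤ K * dist (i a) (i a')) :
    ∃ F : M → c0, (∀ b b', dist (F b) (F b') ≤ 2 * K * dist b b') ∧ ∀ a, F (i a) = g a := by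
  rcases isEmpty_or_nonempty A with hA | hA
  · refine ⟨fun _ => 0, fun b b' => ?_, fun a => (hA.false a).elim⟩
    rw [dist_self]
    positivity
  let a0 : A := Classical.arbitrary A
  -- coordinatewise extensions
  let q : ℕ → M → ℝ := fun n m => ⨅ a, (g a n + K * dist (i a) m)
  have hlow : ∀ n m a, g a0 n - K * dist (i a0) m ≤ g a n + K * dist (i a) m := fun n m a => by
    have h1 := abs_sub_le (g a0) (g a) n
    have h2 := hg a0 a
    have h3 := mul_le_mul_of_nonneg_left (dist_triangle (i a0) m (i a)) hK0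
    rw [mul_add, dist_comm m (i a)] at h3
    have h4 := le_abs_self (g a0 n - g a n)
    linarith
  have hbdd : ∀ n m, BddBelow (range fun a => g a n + K * dist (i a) m) := fun n m =>
    ⟨g a0 n - K * dist (i a0) m, by rintro _ ⟨a, rfl⟩; exact hlow n m a⟩
  have hle : ∀ n m a, q n m ≤ g a n + K * dist (i a) m := fun n m a => ciInf_le (hbdd n m) a
  have hex : ∀ n m (ε : ℝ), 0 < ε → ∃ a, g a n + K * dist (i a) m < q n m + ε :=
    fun n m ε hε => exists_lt_of_ciInf_lt (lt_add_of_pos_right _ hε)
  have hqa : ∀ n m a, |q n m - g a n| ≤ K * dist (i a) m := fun n m a => by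
    rw [abs_sub_le_iff]
    constructor
    · have := hle n m a
      linarith
    · refine le_of_forall_pos_le_add fun ε hε => ?_
      obtain ⟨a', ha'⟩ := hex n m ε hε
      have h1 := abs_sub_le (g a) (g a') n
      have h2 := hg a a'
      have h3 := mul_le_mul_of_nonneg_left (dist_triangle (i a) m (i a')) hK0
      rw [mul_add, dist_comm m (i a')] at h3
      have h4 := le_abs_self (g a n - g a' n)
      linarith
  have hqL1 : ∀ n m m', q n m ≤ q n m' + K * dist m m' := fun n m m' => by
    refine le_of_forall_pos_le_add fun ε hε => ?_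
    obtain ⟨a, ha⟩ := hex n m' ε hε
    have h1 := hle n m a
    have h3 := mul_le_mul_of_nonneg_left (dist_triangle (i a) m' m) hK0
    rw [mul_add, dist_comm m' m] at h3
    linarith
  have hqL : ∀ n m m', |q n m - q n m'| ≤ K * dist m m' := fun n m m' => by
    rw [abs_sub_le_iff]
    constructor
    · have := hqL1 n m m'
      linarith
    · have := hqL1 n m' m
      rw [dist_comm m' m] at this
      linarith
  -- the threshold
  let L : M → ℝ := fun m => K * Metric.infDist m (range i)
  have hL0 : ∀ m, 0 ≤ L m := fun m => mul_nonneg hK0 Metric.infDist_nonneg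
  have hLi : ∀ a, L (i a) = 0 := fun a => by
    show K * Metric.infDist (i a) (range i) = 0
    rw [Metric.infDist_zero_of_mem (mem_range_self a), mul_zero]
  have hLL : ∀ m m', |L m - L m'| ≤ K * dist m m' := fun m m' => by
    show |K * _ - K * _| ≤ _
    rw [← mul_sub, abs_mul, abs_of_nonneg hK0]
    refine mul_le_mul_of_nonneg_left ?_ hK0
    have := (Metric.lipschitz_infDist_pt (range i)).dist_le_mul m m'
    rwa [NNReal.coe_one, one_mul, Real.dist_eq] at this
  have hne : (range i).Nonempty := range_nonempty i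
  have hten : ∀ m, Tendsto (fun n => st (q n m) (L m)) atTop (𝓝 0) := by
    intro m
    rw [Metric.tendsto_atTop]
    intro ε hε
    have hd : Metric.infDist m (range i) < Metric.infDist m (range i) + ε / (2 * (K + 1)) := by
      have : 0 < ε / (2 * (K + 1)) := by positivity
      linarith
    obtain ⟨_, ⟨a, rfl⟩, ha⟩ := (Metric.infDist_lt_iff hne).1 hd
    have ha2 : K * dist (i a) m ≤ L m + ε / 2 := by
      have h1 := mul_le_mul_of_nonneg_left ha.le hK0
      rw [mul_add, dist_comm] at h1
      have h2 : K * (ε / (2 * (K + 1))) ≤ ε / 2 := by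
        rw [mul_div_assoc', div_le_div_iff₀ (by positivity) (by positivity)]
        nlinarith
      exact h1.trans (by linarith)
    obtain ⟨N, hN⟩ := (Metric.tendsto_atTop.1 (tendsto_zero (g a))) (ε / 2) (half_pos hε)
    refine ⟨N, fun n hn => ?_⟩
    have h1 := hN n hn
    rw [Real.dist_eq, sub_zero] at h1
    rw [Real.dist_eq, sub_zero, st_abs (hL0 m)]
    refine max_lt ?_ hε
    have h2 := hqa n m a
    have h3 : |q n m| ≤ |q n m - g a n| + |g a n| := by
      have := abs_add_le (q n m - g a n) (g a n)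
      rwa [sub_add_cancel] at this
    linarith
  refine ⟨fun m => mk _ (hten m), fun b b' => dist_le (by positivity) fun n => ?_, fun a => ?_⟩
  · rw [mk_apply, mk_apply]
    have h1 := st_lip (t := q n b) (t' := q n b') (hL0 b) (hL0 b')
    have h2 := hqL n b b'
    have h3 := hLL b b'
    linarith
  · ext n
    rw [mk_apply, hLi, st_zero]
    have := hqa n (i a) a
    rw [dist_self, mul_zero] at this
    exact sub_eq_zero.1 (abs_nonpos_iff.1 this)

/-- **Aharoni's theorem**: a separable metric space has a bi-Lipschitz embedding into `c₀` -/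
theorem aharoni (M : Type*) [MetricSpace M] [TopologicalSpace.SeparableSpace M] :
    ∃ φ : M → c0, (∀ x y, dist (φ x) (φ y) ≤ dist x y) ∧ ∀ x y, dist x y ≤ 32 * dist (φ x) (φ y) := by
  rcases isEmpty_or_nonempty M with hM | hM
  · exact ⟨fun _ => 0, fun x => (hM.false x).elim, fun x => (hM.false x).elim⟩
  let z := TopologicalSpace.denseSeq M
  have hz : DenseRange z := TopologicalSpace.denseRange_denseSeq M
  let o : M := Classical.arbitrary M
  -- nonnegative truncations
  let f1 : ℤ → ℕ → M → ℝ := fun k j x => max ((2 : ℝ) ^ k / 4 - dist x (z j)) 0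
  let f2 : ℤ → ℕ → M → ℝ := fun k j x =>
    (Finset.range (j + 1)).inf' ⟨j, by simp⟩ fun i =>
      if i = j then (2 : ℝ) ^ k else max (dist x (z i) - (2 : ℝ) ^ k / 8) 0
  let f3 : ℤ → M → ℝ := fun k x => max (dist x o - (2 : ℝ) ^ k / 8) 0
  let f : ℤ → ℕ → M → ℝ := fun k j x => min (f1 k j x) (min (f2 k j x) (f3 k x))
  have hpow : ∀ k : ℤ, (0 : ℝ) < 2 ^ k := fun k => by positivity
  have hf1 : ∀ k j x y, |f1 k j x - f1 k j y| ≤ dist x y := fun k j x y => by
    refine (abs_max_sub_max _ _).trans ?_
    rw [show (2 : ℝ) ^ k / 4 - dist x (z j) - ((2 : ℝ) ^ k / 4 - dist y (z j)) =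
      -(dist x (z j) - dist y (z j)) by ring, abs_neg]
    exact abs_dist_sub_le x y (z j)
  have hf3 : ∀ k x y, |f3 k x - f3 k y| ≤ dist x y := fun k x y => by
    refine (abs_max_sub_max _ _).trans ?_
    rw [show dist x o - (2 : ℝ) ^ k / 8 - (dist y o - (2 : ℝ) ^ k / 8) = dist x o - dist y o by ring]
    exact abs_dist_sub_le x y o
  have hf2' : ∀ k j x y, f2 k j x ≤ f2 k j y + dist x y := fun k j x y => by
    obtain ⟨i, hi, hi2⟩ := Finset.exists_mem_eq_inf' (s := Finset.range (j + 1)) ⟨j, by simp⟩
      (fun i => if i = j then (2 : ℝ) ^ k else max (dist y (z i) - (2 : ℝ) ^ k / 8) 0)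
    have h1 : f2 k j x ≤ if i = j then (2 : ℝ) ^ k else max (dist x (z i) - (2 : ℝ) ^ k / 8) 0 :=
      Finset.inf'_le _ hi
    have h2 : f2 k j y = if i = j then (2 : ℝ) ^ k else max (dist y (z i) - (2 : ℝ) ^ k / 8) 0 := hi2
    rw [h2]
    refine h1.trans ?_
    split_ifs with h
    · have : (0 : ℝ) ≤ dist x y := dist_nonneg
      linarith
    · have h3 := (abs_le.1 ((abs_max_sub_max (dist x (z i) - (2 : ℝ) ^ k / 8)
        (dist y (z i) - (2 : ℝ) ^ k / 8)))).2
      have h4 := abs_dist_sub_le x y (z i)
      rw [show dist x (z i) - (2 : ℝ) ^ k / 8 - (dist y (z i) - (2 : ℝ) ^ k / 8) =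
        dist x (z i) - dist y (z i) by ring] at h3
      linarith
  have hf2 : ∀ k j x y, |f2 k j x - f2 k j y| ≤ dist x y := fun k j x y => by
    rw [abs_sub_le_iff]
    constructor
    · have := hf2' k j x y
      linarith
    · have := hf2' k j y x
      rw [dist_comm y x] at this
      linarith
  have hmin : ∀ a b c d D : ℝ, |a - c| ≤ D → |b - d| ≤ D → |min a b - min c d| ≤ D := by
    intro a b c d D h1 h2
    exact (abs_min_sub_min_le_max a b c d).trans (max_le h1 h2)
  have hfL : ∀ k j x y, |f k j x - f k j y| ≤ dist x y := fun k j x y =>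
    hmin _ _ _ _ _ (hf1 k j x y) (hmin _ _ _ _ _ (hf2 k j x y) (hf3 k x y))
  have hf2nn : ∀ k j x, 0 ≤ f2 k j x := fun k j x => by
    refine Finset.le_inf' _ _ fun i _ => ?_
    split_ifs
    · exact (hpow k).le
    · exact le_max_right _ _
  have hf0 : ∀ k j x, 0 ≤ f k j x := fun k j x =>
    le_min (le_max_right _ _) (le_min (hf2nn k j x) (le_max_right _ _))
  have hf4 : ∀ k j x, f k j x ≤ (2 : ℝ) ^ k / 4 := fun k j x => by
    refine (min_le_left _ _).trans (max_le ?_ (by have := hpow k; positivity))
    have : (0 : ℝ) ≤ dist x (z j) := dist_nonneg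
    linarith
  -- finiteness
  have hfin1 : ∀ k x, ∃ J : ℕ, ∀ j, J < j → f k j x = 0 := fun k x => by
    obtain ⟨i, hi⟩ := hz.exists_dist_lt x (show (0 : ℝ) < (2 : ℝ) ^ k / 8 by positivity)
    refine ⟨i, fun j hj => le_antisymm ?_ (hf0 k j x)⟩
    refine (min_le_right _ _).trans ((min_le_left _ _).trans ?_)
    have h1 : f2 k j x ≤ if i = j then (2 : ℝ) ^ k else max (dist x (z i) - (2 : ℝ) ^ k / 8) 0 :=
      Finset.inf'_le _ (by simp; omega)
    rw [if_neg (by omega), max_eq_right (by linarith)] at h1
    exact h1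
  have hfin2 : ∀ x, ∃ k0 : ℤ, ∀ k, k0 ≤ k → ∀ j, f k j x = 0 := fun x => by
    obtain ⟨n, hn⟩ := pow_unbounded_of_one_lt (8 * dist x o) (one_lt_two (α := ℝ))
    refine ⟨n, fun k hk j => le_antisymm ?_ (hf0 k j x)⟩
    refine (min_le_right _ _).trans ((min_le_right _ _).trans ?_)
    refine max_le ?_ le_rfl
    have h1 : (2 : ℝ) ^ (n : ℤ) ≤ 2 ^ k := zpow_le_zpow_right₀ one_le_two hk
    rw [zpow_natCast] at h1
    linarith
  let e : ℕ ≃ ℤ × ℕ := (Denumerable.eqv (ℤ × ℕ)).symm
  have hten : ∀ x, Tendsto (fun n => f (e n).1 (e n).2 x) atTop (𝓝 0) := by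
    intro x
    rw [← Nat.cofinite_eq_atTop]
    have h0 : Tendsto (fun p : ℤ × ℕ => f p.1 p.2 x) cofinite (𝓝 0) := by
      rw [Metric.tendsto_nhds]
      intro ε hε
      obtain ⟨k0, hk0⟩ := hfin2 x
      -- scales below `k1` are small
      obtain ⟨n, hn⟩ := pow_unbounded_of_one_lt (1 / ε) (one_lt_two (α := ℝ))
      have hsmall : ∀ k : ℤ, k ≤ -(n : ℤ) → ∀ j, f k j x < ε := by
        intro k hk j
        have h1 : (2 : ℝ) ^ k ≤ 2 ^ (-(n : ℤ)) := zpow_le_zpow_right₀ one_le_two hk
        rw [zpow_neg, zpow_natCast] at h1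
        have h2 : ((2 : ℝ) ^ n)⁻¹ < ε := by
          rw [inv_lt_comm₀ (by positivity) hε, ← one_div]
          exact hn
        have h3 := hf4 k j x
        have h4 := hpow k
        linarith
      choose J hJ using hfin1
      refine Set.Finite.subset (s := ⋃ k ∈ Finset.Icc (-(n : ℤ)) k0, {k} ×ˢ Set.Iic (J k x))
        (Set.Finite.biUnion (Finset.finite_toSet _) fun k _ =>
          (finite_singleton k).prod (finite_Iic _)) ?_
      rintro ⟨k, j⟩ hkj
      simp only [mem_compl_iff, mem_ofPred_eq, Real.dist_eq, sub_zero, not_lt,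
        abs_of_nonneg (hf0 k j x)] at hkj
      simp only [mem_iUnion, mem_prod, mem_singleton_iff, mem_Iic, exists_prop, Finset.mem_Icc]
      refine ⟨k, ⟨?_, ?_⟩, rfl, ?_⟩
      · by_contra hcon
        push Not at hcon
        exact absurd (hsmall k hcon.le j) (not_lt.2 hkj)
      · by_contra hcon
        push Not at hcon
        have := hk0 k hcon.le j
        rw [this] at hkj
        linarith
      · by_contra hcon
        push Not at hcon
        have := hJ k x j hcon
        rw [this] at hkj
        linarith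
    exact h0.comp e.injective.tendsto_cofinite
  refine ⟨fun x => mk _ (hten x), fun x y => dist_le dist_nonneg fun n => hfL _ _ _ _, ?_⟩
  intro x y
  rcases eq_or_ne x y with rfl | hxy
  · simp
  -- the scale
  obtain ⟨k, hk1, hk2⟩ : ∃ k : ℤ, (2 : ℝ) ^ k ≤ dist x y ∧ dist x y < 2 ^ (k + 1) :=
    exists_mem_Ico_zpow (dist_pos.2 hxy) one_lt_two
  have hpk := hpow k
  rw [zpow_add_one₀ (by norm_num)] at hk2
  -- symmetric core
  have core : ∀ a b : M, (2 : ℝ) ^ k ≤ dist a b → (2 : ℝ) ^ k / 2 ≤ dist b o →
      (2 : ℝ) ^ k / 16 ≤ dist (mk _ (hten a)) (mk _ (hten b)) := by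
    intro a b hab hb
    classical
    have hexj : ∃ j, dist b (z j) < 3 * (2 : ℝ) ^ k / 16 :=
      hz.exists_dist_lt b (by positivity)
    let j := Nat.find hexj
    have hj : dist b (z j) < 3 * (2 : ℝ) ^ k / 16 := Nat.find_spec hexj
    have hjm : ∀ i < j, 3 * (2 : ℝ) ^ k / 16 ≤ dist b (z i) := fun i hi => by
      have := Nat.find_min hexj hi
      push Not at this
      exact this
    have hfb : (2 : ℝ) ^ k / 16 ≤ f k j b := by
      refine le_min ((le_max_left _ _).trans' (by linarith)) (le_min ?_
        ((le_max_left _ _).trans' (by linarith)))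
      refine Finset.le_inf' _ _ fun i hi => ?_
      rw [Finset.mem_range] at hi
      split_ifs with hij
      · linarith
      · refine (le_max_left _ _).trans' ?_
        have := hjm i (by omega)
        linarith
    have hfa : f k j a = 0 := by
      refine le_antisymm ?_ (hf0 k j a)
      refine (min_le_left _ _).trans (max_le ?_ le_rfl)
      have := dist_triangle a (z j) b
      rw [dist_comm (z j) b] at this
      linarith
    have h1 := abs_sub_le (mk _ (hten a)) (mk _ (hten b)) (e.symm (k, j))
    rw [mk_apply, mk_apply, e.apply_symm_apply] at h1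
    show _ ≤ _
    have h2 : |f (k, j).1 (k, j).2 a - f (k, j).1 (k, j).2 b| = f k j b := by
      show |f k j a - f k j b| = _
      rw [hfa, zero_sub, abs_neg, abs_of_nonneg (hf0 _ _ _)]
    rw [h2] at h1
    linarith
  have hor : (2 : ℝ) ^ k / 2 ≤ dist y o ∨ (2 : ℝ) ^ k / 2 ≤ dist x o := by
    by_contra hcon
    push Not at hcon
    have := dist_triangle x o y
    rw [dist_comm o y] at this
    linarith [hcon.1, hcon.2]
  rcases hor with h | h
  · have := core x y hk1 h
    linarith
  · have := core y x (by rwa [dist_comm]) h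
    rw [dist_comm] at this
    linarith

end Pool.Agent.TH326.C0
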