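import Mathlib
import Pool.Agent.H621R3.LFBasic

set_option autoImplicit false

/-!
Lipschitz-free spaces given by the scalar universal property: lifting of vector valued Lipschitz
maps, change of base point, complemented copies, and a decomposition argument.
-/

namespace Pool.Agent.TH326.Free

open Set Filter Topology
open scoped NNReal
open Pool.Agent.H621R3.LF

variable {M : Type*} [MetricSpace M] {x0 : M} {E : Type*} [NormedAddCommGroup E] [NormedSpace ℝ E]
  {δ : M → E}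

/-- `E` with `δ` is a Lipschitz-free space over `M` with base point `x0` -/
structure IsFree (x0 : M) (δ : M → E) : Prop where
  base : δ x0 = 0
  lip : ∀ x y, ‖δ x - δ y‖ ≤ dist x y
  dense : Dense ((Submodule.span ℝ (Set.range δ) : Submodule ℝ E) : Set E)
  ext : ∀ (K : ℝ) (f : M → ℝ), 0 ≤ K → (∀ x y, |f x - f y| ≤ K * dist x y) → f x0 = 0 →
    ∃ φ : E →L[ℝ] ℝ, ‖φ‖ ≤ K ∧ ∀ x, φ (δ x) = f x

/-- continuous linear maps which agree on the points agree -/
theorem IsFree.ext_map (h : IsFree x0 δ) {Z : Type*} [NormedAddCommGroup Z] [NormedSpace ℝ Z]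
    {T T' : E →L[ℝ] Z} (hT : ∀ x, T (δ x) = T' (δ x)) : T = T' := by
  have h1 : Set.EqOn T T' ((Submodule.span ℝ (Set.range δ) : Submodule ℝ E) : Set E) := by
    intro v hv
    induction hv using Submodule.span_induction with
    | mem v hv =>
      obtain ⟨x, rfl⟩ := hv
      exact hT x
    | zero => rw [map_zero, map_zero]
    | add v w _ _ hv hw => rw [map_add, map_add, hv, hw]
    | smul c v _ hv => rw [map_smul, map_smul, hv]
  ext v
  exact congrFun (Continuous.ext_on h.dense T.continuous T'.continuous h1) v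

/-- every Lipschitz map into a Banach space vanishing at the base point extends -/
theorem IsFree.lift (h : IsFree x0 δ) {Z : Type*} [NormedAddCommGroup Z] [NormedSpace ℝ Z]
    [CompleteSpace Z] (g : M → Z) (K : ℝ) (hK : 0 ≤ K) (hg : ∀ x y, ‖g x - g y‖ ≤ K * dist x y)
    (hg0 : g x0 = 0) : ∃ T : E →L[ℝ] Z, (∀ x, T (δ x) = g x) ∧ ‖T‖ ≤ K := by
  let D : (M →₀ ℝ) →ₗ[ℝ] E := Finsupp.linearCombination ℝ δ
  let G : (M →₀ ℝ) →ₗ[ℝ] Z := Finsupp.linearCombination ℝ g
  have hD : DenseRange D := by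
    have h1 : (range D : Set E) = ((Submodule.span ℝ (Set.range δ) : Submodule ℝ E) : Set E) := by
      rw [← Finsupp.range_linearCombination]
      rfl
    show Dense (range D)
    rw [h1]
    exact h.dense
  have hnorm : ∀ v, ‖G v‖ ≤ K * ‖D v‖ := by
    intro v
    obtain ⟨ψ, hψ, hψ2⟩ := exists_dual_vector'' ℝ (G v)
    obtain ⟨φ, hφ, hφ2⟩ := h.ext K (fun x => ψ (g x)) hK (fun x y => by
      rw [← map_sub]
      have h1 := ψ.le_opNorm (g x - g y)
      have h2 := hg x y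
      rw [Real.norm_eq_abs] at h1
      calc |ψ (g x - g y)| ≤ ‖ψ‖ * ‖g x - g y‖ := h1
        _ ≤ 1 * ‖g x - g y‖ := mul_le_mul_of_nonneg_right hψ (norm_nonneg _)
        _ ≤ K * dist x y := by rw [one_mul]; exact h2) (by
      show ψ (g x0) = 0
      rw [hg0, map_zero])
    have h1 : φ (D v) = ψ (G v) := by
      show φ (Finsupp.linearCombination ℝ δ v) = ψ (Finsupp.linearCombination ℝ g v)
      rw [Finsupp.linearCombination_apply, Finsupp.linearCombination_apply, map_finsuppSum,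
        map_finsuppSum]
      refine Finsupp.sum_congr fun x _ => ?_
      rw [map_smul, map_smul, hφ2]
    have h2 : ‖G v‖ = φ (D v) := by
      rw [h1, hψ2]
      rfl
    rw [h2]
    exact (le_abs_self _).trans ((φ.le_opNorm _).trans (mul_le_mul_of_nonneg_right hφ (norm_nonneg _)))
  refine ⟨G.extendOfNorm D, fun x => ?_, LinearMap.opNorm_extendOfNorm_le hD hK hnorm⟩
  have h1 := LinearMap.extendOfNorm_eq (f := G) (e := D) hD ⟨K, hnorm⟩ (Finsupp.single x 1)
  have h2 : D (Finsupp.single x 1) = δ x := by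
    show Finsupp.linearCombination ℝ δ _ = _
    rw [Finsupp.linearCombination_single, one_smul]
  have h3 : G (Finsupp.single x 1) = g x := by
    show Finsupp.linearCombination ℝ g _ = _
    rw [Finsupp.linearCombination_single, one_smul]
  rwa [h2, h3] at h1

/-- change of base point -/
theorem IsFree.rebase (h : IsFree x0 δ) (x1 : M) : IsFree x1 (fun x => δ x - δ x1) where
  base := sub_self _
  lip x y := by
    rw [sub_sub_sub_cancel_right]
    exact h.lip x y
  dense := by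
    have h1 : Submodule.span ℝ (Set.range δ) ≤ Submodule.span ℝ (Set.range fun x => δ x - δ x1) := by
      rw [Submodule.span_le]
      rintro _ ⟨x, rfl⟩
      have h2 : δ x = (δ x - δ x1) - (δ x0 - δ x1) := by
        rw [h.base]
        abel
      rw [h2]
      exact Submodule.sub_mem _ (Submodule.subset_span ⟨x, rfl⟩) (Submodule.subset_span ⟨x0, rfl⟩)
    exact h.dense.mono h1
  ext K f hK hf hf0 := by
    obtain ⟨φ, hφ, hφ2⟩ := h.ext K (fun x => f x - f x0) hK
      (fun x y => by rw [sub_sub_sub_cancel_right]; exact hf x y) (sub_self _)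
    refine ⟨φ, hφ, fun x => ?_⟩
    rw [map_sub, hφ2, hφ2, hf0]
    ring

/-- Lipschitz retracts give complemented subspaces -/
theorem exists_compl {N : Type*} [MetricSpace N] {y0 : N} {F : Type*} [NormedAddCommGroup F]
    [NormedSpace ℝ F] {ε : N → F} [CompleteSpace E] [CompleteSpace F]
    (hE : IsFree x0 δ) (hF : IsFree y0 ε) (i : M → N) (r : N → M) (K L : ℝ) (hK : 0 ≤ K) (hL : 0 ≤ L)
    (hi : ∀ x y, dist (i x) (i y) ≤ K * dist x y) (hr : ∀ x y, dist (r x) (r y) ≤ L * dist x y)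
    (hri : ∀ x, r (i x) = x) :
    ∃ (S : E →L[ℝ] F) (R : F →L[ℝ] E), ∀ v, R (S v) = v := by
  have hF' := hF.rebase (i x0)
  obtain ⟨S, hS, -⟩ := hE.lift (fun x => ε (i x) - ε (i x0)) K hK (fun x y => by
    rw [sub_sub_sub_cancel_right]
    exact (hF.lip _ _).trans (hi x y)) (sub_self _)
  obtain ⟨R, hR, -⟩ := hF'.lift (fun y => δ (r y)) L hL (fun x y => (hE.lip _ _).trans (hr x y)) (by
    show δ (r (i x0)) = 0
    rw [hri, hE.base])
  refine ⟨S, R, fun v => ?_⟩
  have h1 : R.comp S = ContinuousLinearMap.id ℝ E := hE.ext_map fun x => by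
    show R (S (δ x)) = δ x
    rw [hS, hR, hri]
  exact congrArg (fun T : E →L[ℝ] E => T v) h1

section Decomp

variable {X Y : Type*} [NormedAddCommGroup X] [NormedSpace ℝ X] [CompleteSpace X]
  [NormedAddCommGroup Y] [NormedSpace ℝ Y] [CompleteSpace Y]

instance pban (X : Type*) [NormedAddCommGroup X] [NormedSpace ℝ X] [CompleteSpace X] :
    PBanach 1 X where
  complete := inferInstance
  norm_smul c y := by rw [norm_smul, Real.rpow_one, Real.norm_eq_abs]

/-- if `X ≃ ℓ₁(X)` and `Y` is complemented in `X`, then `X ≃ Y × X` -/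
theorem decomp1 (e : X ≃L[ℝ] EllP 1 X) (S : Y →L[ℝ] X) (R : X →L[ℝ] Y) (hRS : ∀ v, R (S v) = v) :
    Nonempty (X ≃L[ℝ] Y × X) := by
  let Q : X →L[ℝ] X := S.comp R
  have hQ : ∀ x, Q x = S (R x) := fun _ => rfl
  have hRQ : ∀ x, R (Q x) = R x := fun x => by rw [hQ, hRS]
  have hQS : ∀ y, Q (S y) = S y := fun y => by rw [hQ, hRS]
  have hQQ : ∀ x, Q (Q x) = Q x := fun x => by rw [hQ (Q x), hRQ, ← hQ]
  have hRsub : ∀ x, R (x - Q x) = 0 := fun x => by rw [map_sub, hRQ, sub_self]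
  have hQsub : ∀ x, Q (x - Q x) = 0 := fun x => by rw [map_sub, hQQ, sub_self]
  let mQ : EllP 1 X →L[ℝ] EllP 1 X := mapE one_pos Q
  have hmQ : ∀ (w : EllP 1 X) n, mQ w n = Q (w n) := fun _ _ => rfl
  -- `w ↦ (R w₀, ((1 - Q) w_n + Q w_{n+1})_n)`
  let Φ : EllP 1 X →L[ℝ] Y × EllP 1 X :=
    (R.comp (coord 0)).prod ((ContinuousLinearMap.id ℝ _ - mQ) + shiftL.comp mQ)
  let Ψ : Y × EllP 1 X →L[ℝ] EllP 1 X :=
    ((inj 0).comp (S.comp (ContinuousLinearMap.fst ℝ Y (EllP 1 X)))) +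
      ((ContinuousLinearMap.id ℝ _ - mQ) + shiftR.comp mQ).comp (ContinuousLinearMap.snd ℝ Y (EllP 1 X))
  have hΦ1 : ∀ w, (Φ w).1 = R (w 0) := fun _ => rfl
  have hΦ2 : ∀ w n, (Φ w).2 n = (w n - Q (w n)) + Q (w (n + 1)) := fun _ _ => rfl
  have hΨ0 : ∀ y z, Ψ (y, z) 0 = S y + (z 0 - Q (z 0)) := by
    intro y z
    show ((inj 0 (S y) : EllP 1 X) 0) + ((z 0 - Q (z 0)) + (shiftR (mQ z) : EllP 1 X) 0) = _
    rw [inj_apply, if_pos rfl, shiftR_zero, add_zero]
  have hΨs : ∀ y z n, Ψ (y, z) (n + 1) = (z (n + 1) - Q (z (n + 1))) + Q (z n) := by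
    intro y z n
    show ((inj 0 (S y) : EllP 1 X) (n + 1)) +
      ((z (n + 1) - Q (z (n + 1))) + (shiftR (mQ z) : EllP 1 X) (n + 1)) = _
    rw [inj_apply, if_neg (Nat.succ_ne_zero n), shiftR_succ, zero_add, hmQ]
  have h1 : ∀ w, Ψ (Φ w) = w := by
    intro w
    refine EllP.ext fun n => ?_
    cases n with
    | zero =>
      rw [show Φ w = ((Φ w).1, (Φ w).2) from rfl, hΨ0, hΦ1, hΦ2, map_add, hQsub, hQQ, ← hQ]
      abel
    | succ n =>
      rw [show Φ w = ((Φ w).1, (Φ w).2) from rfl, hΨs, hΦ2, hΦ2, map_add, map_add, hQsub, hQsub,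
        hQQ, hQQ]
      abel
  have h2 : ∀ p, Φ (Ψ p) = p := by
    rintro ⟨y, z⟩
    refine Prod.ext ?_ ?_
    · rw [hΦ1, hΨ0, map_add, hRS, hRsub, add_zero]
    · refine EllP.ext fun n => ?_
      rw [hΦ2, hΨs]
      cases n with
      | zero =>
        rw [hΨ0, map_add, map_add, hQS, hQsub, hQsub, hQQ]
        show _ = z 0
        abel
      | succ n =>
        rw [hΨs, map_add, map_add, hQsub, hQsub, hQQ, hQQ]
        show _ = z (n + 1)
        abel
  let e1 : EllP 1 X ≃L[ℝ] Y × EllP 1 X := ContinuousLinearEquiv.equivOfInverse Φ Ψ h1 h2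
  exact ⟨(e.trans e1).trans ((ContinuousLinearEquiv.refl ℝ Y).prodCongr e.symm)⟩

/-- **Pelczynski decomposition**: if `X ≃ ℓ₁(X)` and `X`, `Y` are complemented in each other, then
`X ≃ Y` -/
theorem decomp (e : X ≃L[ℝ] EllP 1 X) (S : Y →L[ℝ] X) (R : X →L[ℝ] Y) (hRS : ∀ v, R (S v) = v)
    (S' : X →L[ℝ] Y) (R' : Y →L[ℝ] X) (hRS' : ∀ v, R' (S' v) = v) : Nonempty (X ≃L[ℝ] Y) := by
  obtain ⟨e1⟩ := decomp1 e S R hRS
  obtain ⟨e2⟩ := decomp1 e (ContinuousLinearMap.id ℝ X) (ContinuousLinearMap.id ℝ X) (fun _ => rfl)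
  -- `Y ≃ X × B`
  let e3 : Y ≃L[ℝ] X × R'.ker := ContinuousLinearEquiv.equivOfRightInverse R' S' hRS'
  -- `X × Y ≃ X × (X × B) ≃ (X × X) × B ≃ X × B ≃ Y`
  let e4 : (X × Y) ≃L[ℝ] Y :=
    (((ContinuousLinearEquiv.refl ℝ X).prodCongr e3).trans
      (ContinuousLinearEquiv.prodAssoc ℝ X X R'.ker).symm).trans
      ((e2.symm.prodCongr (ContinuousLinearEquiv.refl ℝ R'.ker)).trans e3.symm)
  exact ⟨(e1.trans (ContinuousLinearEquiv.prodComm ℝ Y X)).trans e4⟩

end Decomp

end Pool.Agent.TH326.Free
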