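import Pool.Agent.TH326.J2270

set_option autoImplicit false

open Pool.Agent.TH981.SD
open Finset Set Filter
open scoped BigOperators Topology Classical

namespace Pool.Agent.TH326.J2268

open Pool.Agent.TH326.JB Pool.Agent.TH326.J2270

/-- number of off branches -/
noncomputable def oi {j n : ℕ} (G : SimpleGraph (Fin n)) (ψ : Fin j → Option (Fin n)) (i : Fin j) :
    ℕ := match ψ i with
    | none => 0
    | some h => (offN G (img ψ) h).card

/-- excess at a hub -/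
noncomputable def xi {j n : ℕ} (G : SimpleGraph (Fin n)) (ψ : Fin j → Option (Fin n)) (i : Fin j) :
    ℕ := match ψ i with
    | none => 0
    | some h => ∑ b ∈ offN G (img ψ) h, ((br G h b).card - 1)

theorem eTot_eq {j n : ℕ} (G : SimpleGraph (Fin n)) (ψ : Fin j → Option (Fin n)) :
    eTot G ψ = ∑ i, xi G ψ i := rfl

/-- exponent of the `i`-th factor -/
noncomputable def be {j n : ℕ} (s : Sys j) (G : SimpleGraph (Fin n)) (ψ : Fin j → Option (Fin n))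
    (ζ : Fin j → ℝ) (t : ℝ) (i : Fin j) : ℝ :=
  if i ∈ dom ψ then (oi G ψ i : ℝ) * lc s i t + lv s i (dv G ψ i) t +
    (xi G ψ i : ℝ) * Real.log (s.Y 1 t) else ζ i

theorem Xp_le {j n : ℕ} {s : Sys j} (h : LF s) (hF : Facts s) (G : SimpleGraph (Fin n))
    (ψ : Fin j → Option (Fin n)) (ζ : Fin j → ℝ) {t : ℝ} (ht : 0 ≤ t)
    (hζ : ∀ i, s.Z i t ≤ Real.exp (ζ i)) :
    s.Xp G ψ t ≤ Real.exp (∑ i, be s G ψ ζ t i) := by
  have hy := hF.hY.pos 1 t ht
  rw [Real.exp_sum]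
  unfold Sys.Xp
  refine Finset.prod_le_prod (fun i _ => ?_) (fun i _ => ?_)
  · cases hψ : ψ i with
    | none => exact hF.Znn i t ht
    | some v => exact (mul_pos (mul_pos (pow_pos (h.cpos i t ht) _) (h.vpos i _ t ht))
        (pow_pos hy _)).le
  · unfold be oi xi dv dom
    cases hψ : ψ i with
    | none => simpa [hψ] using hζ i
    | some v =>
      simp only [Finset.mem_filter, Finset.mem_univ, true_and, hψ, ne_eq, reduceCtorEq,
        not_false_eq_true, if_true]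
      rw [Real.exp_add, Real.exp_add, ← Real.log_pow, Real.exp_log (pow_pos hy _)]
      unfold lc lv
      rw [← Real.log_pow, Real.exp_log (pow_pos (h.cpos i t ht) _), Real.exp_log (h.vpos i _ t ht)]

/-- combinatorial data used below -/
structure CD {j n : ℕ} (J : SimpleGraph (Fin j)) (G : SimpleGraph (Fin n))
    (ψ : Fin j → Option (Fin n)) (k : ℕ) : Prop where
  a1 : ∀ i ∈ dom ψ, (dv G ψ i : ℝ) - oi G ψ i = (dg J i : ℝ) - miss J ψ i
  a2 : ∀ i ∈ dom ψ, 1 ≤ dv G ψ i ∧ dv G ψ i ≤ n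
  a3 : ∀ i ∈ dom ψ, oi G ψ i ≤ dv G ψ i
  a4 : ∑ i ∈ dom ψ, ((dg J i : ℝ) - miss J ψ i) = 2 * k - 2
  a5 : (dom ψ).card = k
  a6 : 1 ≤ k
  a7 : k ≤ j

theorem cd {j n : ℕ} (h4 : S_CNT) (J : SimpleGraph (Fin j)) (G : SimpleGraph (Fin n)) (hj : 1 ≤ j)
    (hn : 2 ≤ n) (hJ : J.IsTree) (hG : G.IsTree) (ψ : Fin j → Option (Fin n)) (hψ : ψ ∈ PEs J G) :
    CD J G ψ (dom ψ).card := by
  obtain ⟨c1, _, c3⟩ := h4 j n J G hj hn hJ hG
  obtain ⟨b1, b2, b3, b4, b5⟩ := c1 ψ hψ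
  have hdom : ∀ i ∈ dom ψ, ∃ v, ψ i = some v := by
    intro i hi
    simp only [dom, Finset.mem_filter, Finset.mem_univ, true_and] at hi
    exact Option.ne_none_iff_exists'.1 hi
  have hoff : ∀ (v : Fin n), (offN G (img ψ) v).card ≤ dg G v := by
    intro v
    refine Finset.card_le_card ?_
    intro w hw
    simp only [offN, Finset.mem_filter, Finset.mem_univ, true_and] at hw ⊢
    exact hw.1
  refine ⟨?_, ?_, ?_, ?_, rfl, b3.card_pos, ?_⟩
  · intro i hi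
    obtain ⟨v, hv⟩ := hdom i hi
    have := b1 i v hv
    have h5 : (dg G v : ℝ) + miss J ψ i = (offN G (img ψ) v).card + dg J i := by exact_mod_cast this
    simp only [dv, oi, hv]
    linarith
  · intro i hi
    obtain ⟨v, hv⟩ := hdom i hi
    simp only [dv, hv]
    have := c3 v
    omega
  · intro i hi
    obtain ⟨v, hv⟩ := hdom i hi
    simp only [dv, oi, hv]
    exact hoff v
  · have : ((∑ i ∈ dom ψ, (dg J i - miss J ψ i : ℤ) : ℤ) : ℝ) =
        ((2 * ((dom ψ).card : ℤ) - 2 : ℤ) : ℝ) := by rw [b2]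
    push_cast at this
    exact this
  · have := Finset.card_le_univ (dom ψ)
    simpa using this

/-- summing up the pointwise bounds -/
theorem sum_up {j n : ℕ} {J : SimpleGraph (Fin j)} {G : SimpleGraph (Fin n)}
    {ψ : Fin j → Option (Fin n)} {k : ℕ} (hc : CD J G ψ k) (f g : Fin j → ℝ) (l P Q w : ℝ)
    (h : ∀ i, f i ≤ g i + (if i ∈ dom ψ then (1 - ((dg J i : ℝ) - miss J ψ i)) * l + P else Q)
      + (xi G ψ i : ℝ) * w) :
    ∑ i, f i ≤ ∑ i, g i + (2 - (k:ℝ)) * l + k * P + ((j:ℝ) - k) * Q + (eTot G ψ : ℝ) * w := by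
  have hs := Finset.sum_le_sum (fun i (_ : i ∈ Finset.univ) => h i)
  have e1 : ∑ i, (g i + (if i ∈ dom ψ then (1 - ((dg J i : ℝ) - miss J ψ i)) * l + P else Q)
      + (xi G ψ i : ℝ) * w) = ∑ i, g i + ∑ i, (if i ∈ dom ψ then
        (1 - ((dg J i : ℝ) - miss J ψ i)) * l + P else Q) + (eTot G ψ : ℝ) * w := by
    rw [Finset.sum_add_distrib, Finset.sum_add_distrib, ← Finset.sum_mul, eTot_eq]
    push_cast; rfl
  have e2 : ∑ i, (if i ∈ dom ψ then (1 - ((dg J i : ℝ) - miss J ψ i)) * l + P else Q) =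
      ∑ i ∈ dom ψ, ((1 - ((dg J i : ℝ) - miss J ψ i)) * l + P) +
      ∑ i ∈ Finset.univ.filter (fun i => i ∉ dom ψ), Q := by
    rw [Finset.sum_ite]
    congr 2
    ext i; simp
  have e3 : ∑ i ∈ dom ψ, ((1 - ((dg J i : ℝ) - miss J ψ i)) * l + P) = (2 - (k:ℝ)) * l + k * P := by
    rw [Finset.sum_add_distrib, ← Finset.sum_mul, Finset.sum_sub_distrib, hc.a4]
    simp only [Finset.sum_const, nsmul_eq_mul, mul_one, hc.a5]
    ring
  have e4 : ∑ i ∈ Finset.univ.filter (fun i => i ∉ dom ψ), Q = ((j:ℝ) - k) * Q := by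
    rw [Finset.sum_const, nsmul_eq_mul]
    congr 1
    have : (Finset.univ.filter (fun i => i ∉ dom ψ)).card + (dom ψ).card = j := by
      have h1 := Finset.card_filter_add_card_filter_not (s := (Finset.univ : Finset (Fin j)))
        (p := fun i => i ∈ dom ψ)
      have h2 : Finset.univ.filter (fun i => i ∈ dom ψ) = dom ψ := by ext i; simp
      rw [h2, Finset.card_univ, Fintype.card_fin] at h1
      omega
    rw [hc.a5] at this
    have h5 : ((Finset.univ.filter (fun i => i ∉ dom ψ)).card : ℝ) + k = j := by exact_mod_cast this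
    linarith
  rw [e1, e2, e3, e4] at hs
  linarith

theorem small2 {j : ℕ} {s : Sys j} (hP : Par s) : (s.N : ℝ) ^ 2 * s.e0 ≤ 1 / 1000 ∧
    (s.N : ℝ) ^ 2 * s.ep ≤ 1 / 1000000 := by
  obtain ⟨p1, p2, p3, p4, p5⟩ := par_small hP
  have h2 := hP.e0le
  have hN2 : (0:ℝ) < 1000 * (s.N : ℝ) ^ 2 := by positivity
  rw [le_div_iff₀ hN2] at h2
  have h3 := hP.a0
  have h6 : (s.N : ℝ) ^ 2 * s.e0 ≤ 1 / 1000 := by linarith
  refine ⟨h6, ?_⟩
  have := mul_le_mul_of_nonneg_left p3 (by positivity : (0:ℝ) ≤ (s.N : ℝ) ^ 2)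
  linarith

/-- a present hub in the main region -/
theorem hub_main {j : ℕ} {s : Sys j} (h : LF s) (hP : Par s) {J : SimpleGraph (Fin j)}
    {G : SimpleGraph (Fin s.N)} {ψ : Fin j → Option (Fin s.N)} {k : ℕ} (hc : CD J G ψ k)
    {τ : ℝ} (ht : s.tl ≤ τ) (htp : τ ≤ s.tp) {i : Fin j} (hi : i ∈ dom ψ) :
    (oi G ψ i : ℝ) * lc s i τ + lv s i (dv G ψ i) τ ≤ lv s i 1 τ +
      ((1 - ((dg J i : ℝ) - miss J ψ i)) * l0 s τ + (s.N : ℝ) * (s.e0 + 4 * s.ep) * Real.log s.D)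
        := by
  have hΛ := logD_nonneg hP
  have ht0 : 0 ≤ τ := h.tM0.le.trans (h.tMtl.trans ht)
  obtain ⟨d1, d2⟩ := hc.a2 i hi
  have hδ := hc.a1 i hi
  have ho := hc.a3 i hi
  have hw := w_hi h i ht htp (le_refl 1) d1 (by omega)
  have hei := ei_nonneg hP i
  have hei2 := ei_le hP i
  have hep := hP.eppos
  have hd1 : (1:ℝ) ≤ dv G ψ i := by exact_mod_cast d1
  have hdN : (dv G ψ i : ℝ) ≤ s.N := by exact_mod_cast d2
  have hNnn : (0:ℝ) ≤ s.N := Nat.cast_nonneg _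
  have hoR : (oi G ψ i : ℝ) ≤ dv G ψ i := by exact_mod_cast ho
  have ho0 : (0:ℝ) ≤ oi G ψ i := Nat.cast_nonneg _
  have b1 : ((dv G ψ i : ℝ) - 1) * ((-(s.ei i) + 4 * s.ep) * Real.log s.D) ≤
      s.N * (4 * s.ep * Real.log s.D) := by
    calc ((dv G ψ i : ℝ) - 1) * ((-(s.ei i) + 4 * s.ep) * Real.log s.D)
        ≤ ((dv G ψ i : ℝ) - 1) * (4 * s.ep * Real.log s.D) := by
          refine mul_le_mul_of_nonneg_left ?_ (by linarith)
          exact mul_le_mul_of_nonneg_right (by linarith) hΛ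
      _ ≤ s.N * (4 * s.ep * Real.log s.D) := by
          refine mul_le_mul_of_nonneg_right (by linarith) (by positivity)
  rw [← hδ]
  set δ : ℝ := (dv G ψ i : ℝ) - oi G ψ i with hδd
  have b2 : (1 - δ) * lc s i τ ≤ (1 - δ) * l0 s τ + s.N * (s.e0 * Real.log s.D) := by
    have hnn : 0 ≤ s.N * (s.e0 * Real.log s.D) :=
      mul_nonneg hNnn (mul_nonneg hP.e0pos.le hΛ)
    rcases Nat.lt_or_ge (oi G ψ i) (dv G ψ i) with hlt | hge
    · have h1 : (1:ℝ) ≤ δ := by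
        have : (oi G ψ i : ℝ) + 1 ≤ dv G ψ i := by exact_mod_cast hlt
        rw [hδd]; linarith
      have h2 := h.le_c i τ ht0
      have h3 : (1 - δ) * lc s i τ ≤ (1 - δ) * (-(s.ei i) * Real.log s.D + l0 s τ) :=
        mul_le_mul_of_nonpos_left h2 (by linarith)
      have h4 : (δ - 1) * (s.ei i * Real.log s.D) ≤ s.N * (s.e0 * Real.log s.D) := by
        refine mul_le_mul (by linarith) (mul_le_mul_of_nonneg_right hei2 hΛ)
          (mul_nonneg hei hΛ) hNnn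
      linarith
    · have h1 : δ = 0 := by
        have : (oi G ψ i) = dv G ψ i := le_antisymm ho hge
        rw [hδd, this]; ring
      have h2 := h.c_le i τ ht0
      rw [h1]; linarith
  have b3 : (oi G ψ i : ℝ) * lc s i τ = (dv G ψ i : ℝ) * lc s i τ - δ * lc s i τ := by
    rw [hδd]; ring
  rw [b3]
  push_cast at hw
  linarith

theorem y_hi {j : ℕ} {s : Sys j} (hF : Facts s) (h3 : S_TM) {t : ℝ} (ht : s.tM ≤ t) :
    Real.log (s.Y 1 t) ≤ -(t - s.tM) := by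
  have tmm := (h3 s.α s.z s.Y hF.par.a0 hF.par.a1' hF.z2 hF.z1 hF.hY).2 s.tM hF.tMpos.le hF.htM
  have h1 := (tmm.2.1 t ht).2
  have h2 := Real.log_le_log (hF.hY.pos 1 t (hF.tMpos.le.trans ht)) h1
  rwa [Real.log_exp] at h2

theorem partA {j : ℕ} {s : Sys j} (h : LF s) (hF : Facts s) (h3 : S_TM) {J : SimpleGraph (Fin j)}
    {G : SimpleGraph (Fin s.N)} {ψ : Fin j → Option (Fin s.N)} {k : ℕ} (hc : CD J G ψ k)
    {t : ℝ} (ht : s.tM ≤ t) (hZ : ∀ i, s.Z i t ≤ s.D ^ (s.α + 3 * s.e0) * s.V i 1 t) :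
    s.Xp G ψ t ≤ s.D ^ (5 * s.N ^ 2) * ∏ i, s.V i 1 t := by
  have hP := hF.par
  have hΛ := logD_nonneg hP
  have hD := D_pos hP
  obtain ⟨sm1, sm2, hN1⟩ := small hP
  have ht0 : 0 ≤ t := h.tM0.le.trans ht
  have hpos := V1_pos h ht0
  have hjN : (j : ℝ) ≤ s.N := by exact_mod_cast hP.jN
  have hζ : ∀ i, s.Z i t ≤ Real.exp ((s.α + 3 * s.e0) * Real.log s.D + lv s i 1 t) := by
    intro i
    refine (hZ i).trans (le_of_eq ?_)
    unfold lv
    rw [Real.exp_add, Real.exp_log (h.vpos i 1 t ht0), mul_comm (s.α + 3 * s.e0),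
      ← Real.rpow_def_of_pos hD]
  refine (Xp_le h hF G ψ _ ht0 hζ).trans ?_
  have hx : s.D ^ (5 * s.N ^ 2) = s.D ^ (((5 * s.N ^ 2 : ℕ)) : ℝ) := (Real.rpow_natCast _ _).symm
  rw [hx, rpow_mul_le hD hpos (Real.exp_pos _), Real.log_exp, log_V1 h ht0]
  have hpt : ∀ i, be s G ψ (fun i => (s.α + 3 * s.e0) * Real.log s.D + lv s i 1 t) t i ≤
      lv s i 1 t + 5 * s.N * Real.log s.D := by
    intro i
    unfold be
    have hNΛ : Real.log s.D ≤ s.N * Real.log s.D := by nlinarith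
    split_ifs with hi
    · obtain ⟨d1, d2⟩ := hc.a2 i hi
      have ho := hc.a3 i hi
      have h1 : (oi G ψ i : ℝ) * lc s i t ≤ s.N * (2 * Real.log s.D) := by
        have hcc := (h.c_le i t ht0).trans (h.c0_le t ht0)
        have hoN : (oi G ψ i : ℝ) ≤ s.N := by exact_mod_cast ho.trans d2
        calc (oi G ψ i : ℝ) * lc s i t ≤ (oi G ψ i : ℝ) * (2 * Real.log s.D) :=
              mul_le_mul_of_nonneg_left hcc (Nat.cast_nonneg _)
          _ ≤ _ := mul_le_mul_of_nonneg_right hoN (by positivity)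
      have h2 := v_up' h i ht0 d1 (by omega)
      have h4 : ((dv G ψ i : ℝ) - 1) * Real.log s.D ≤ s.N * Real.log s.D := by
        have hdN : (dv G ψ i : ℝ) ≤ s.N := by exact_mod_cast d2
        exact mul_le_mul_of_nonneg_right (by linarith) hΛ
      have h5 : (xi G ψ i : ℝ) * Real.log (s.Y 1 t) ≤ 0 := by
        refine mul_nonpos_of_nonneg_of_nonpos (Nat.cast_nonneg _) ?_
        have := y_hi hF h3 ht
        linarith
      linarith
    · have h6 : (s.α + 3 * s.e0) * Real.log s.D ≤ 2 * Real.log s.D := by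
        refine mul_le_mul_of_nonneg_right ?_ hΛ
        have := hP.a1'
        have := (par_small hP).1
        linarith
      linarith
  have hs := Finset.sum_le_sum (fun i (_ : i ∈ Finset.univ) => hpt i)
  rw [Finset.sum_add_distrib] at hs
  simp only [Finset.sum_const, Finset.card_univ, Fintype.card_fin, nsmul_eq_mul] at hs
  have h7 : (j:ℝ) * (5 * s.N * Real.log s.D) ≤ s.N * (5 * s.N * Real.log s.D) :=
    mul_le_mul_of_nonneg_right hjN (by positivity)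
  push_cast
  refine hs.trans ?_
  linarith

theorem xi_not_dom {j n : ℕ} {G : SimpleGraph (Fin n)} {ψ : Fin j → Option (Fin n)} {i : Fin j}
    (hi : i ∉ dom ψ) : xi G ψ i = 0 := by
  have h : ψ i = none := by
    by_contra h
    exact hi (by simp only [dom, Finset.mem_filter, Finset.mem_univ, true_and]; exact h)
  unfold xi
  rw [h]

theorem Bt_log {j : ℕ} {s : Sys j} (h : LF s) (hP : Par s) {a τ x : ℝ} (ht : 0 ≤ τ)
    (hx : x ≤ a * Real.log s.D + ((2 - (j:ℝ)) * l0 s τ + ∑ i, lv s i 1 τ)) :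
    Real.exp x ≤ s.D ^ a * s.Bt τ := by
  rw [rpow_mul_le (D_pos hP) (Bt_pos h ht) (Real.exp_pos _), Real.log_exp, log_Bt h ht]
  exact hx

theorem partB {j : ℕ} {s : Sys j} (h : LF s) (hF : Facts s) (h3 : S_TM) {J : SimpleGraph (Fin j)}
    {G : SimpleGraph (Fin s.N)} {ψ : Fin j → Option (Fin s.N)} {k : ℕ} (hc : CD J G ψ k)
    (he : 1 ≤ eTot G ψ) (hbig : 16 * (s.N : ℝ) ^ 2 ≤ Real.log s.D)
    {t : ℝ} (ht : s.tl ≤ t) (htp : t ≤ s.tp)
    (hZ : ∀ i, s.Z i t ≤ s.D ^ (s.α + 3 * s.e0) * s.V i 1 t) :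
    s.Xp G ψ t ≤ s.D ^ (-(1:ℝ) / 2) * s.Bt t := by
  have hP := hF.par
  have hΛ := logD_nonneg hP
  have hD := D_pos hP
  obtain ⟨sm1, sm2, hN1⟩ := small hP
  obtain ⟨sm3, sm4⟩ := small2 hP
  have he0 := hP.e0pos
  have hep := hP.eppos
  have hepe := (par_small hP).2.2.1
  have htM := h.tMtl.trans ht
  have ht0 : 0 ≤ t := h.tM0.le.trans htM
  have hjN : (j : ℝ) ≤ s.N := by exact_mod_cast hP.jN
  have hζ : ∀ i, s.Z i t ≤ Real.exp ((s.α + 3 * s.e0) * Real.log s.D + lv s i 1 t) := by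
    intro i
    refine (hZ i).trans (le_of_eq ?_)
    unfold lv
    rw [Real.exp_add, Real.exp_log (h.vpos i 1 t ht0), mul_comm (s.α + 3 * s.e0),
      ← Real.rpow_def_of_pos hD]
  refine (Xp_le h hF G ψ _ ht0 hζ).trans ?_
  have hpt : ∀ i, be s G ψ (fun i => (s.α + 3 * s.e0) * Real.log s.D + lv s i 1 t) t i ≤
      lv s i 1 t + (if i ∈ dom ψ then (1 - ((dg J i : ℝ) - miss J ψ i)) * l0 s t +
        (s.N : ℝ) * (s.e0 + 4 * s.ep) * Real.log s.D else (s.α + 3 * s.e0) * Real.log s.D)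
      + (xi G ψ i : ℝ) * Real.log (s.Y 1 t) := by
    intro i
    unfold be
    by_cases hi : i ∈ dom ψ
    · rw [if_pos hi, if_pos hi]
      have := hub_main h hP hc ht htp hi
      linarith
    · rw [if_neg hi, if_neg hi, xi_not_dom hi]
      push_cast; linarith
  have hs := sum_up hc _ _ _ _ _ _ hpt
  refine Bt_log h hP ht0 (hs.trans ?_)
  have hl0 := h.c0_hi t htM
  have hl2 := log2
  have htl := h.tl_eq
  have hy := y_hi hF h3 htM
  have hkj : (k:ℝ) ≤ j := by exact_mod_cast hc.a7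
  have hk0 : (0:ℝ) ≤ k := Nat.cast_nonneg _
  have he0Λ : 0 ≤ s.e0 * Real.log s.D := by positivity
  have hepΛ : 0 ≤ s.ep * Real.log s.D := by positivity
  have f1 : l0 s t + (s.α + 3 * s.e0) * Real.log s.D ≤ 1 + 4 * (s.e0 * Real.log s.D) := by
    have := mul_le_mul_of_nonneg_right hepe hΛ
    linarith
  have f2 : ((j:ℝ) - k) * (l0 s t + (s.α + 3 * s.e0) * Real.log s.D) ≤
      s.N * (1 + 4 * (s.e0 * Real.log s.D)) := by
    calc _ ≤ ((j:ℝ) - k) * (1 + 4 * (s.e0 * Real.log s.D)) :=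
          mul_le_mul_of_nonneg_left f1 (by linarith)
      _ ≤ _ := mul_le_mul_of_nonneg_right (by linarith) (by positivity)
  have f3 : (k:ℝ) * ((s.N : ℝ) * (s.e0 + 4 * s.ep) * Real.log s.D) ≤
      1 / 100 * Real.log s.D := by
    calc (k:ℝ) * ((s.N : ℝ) * (s.e0 + 4 * s.ep) * Real.log s.D)
        ≤ s.N * ((s.N : ℝ) * (s.e0 + 4 * s.ep) * Real.log s.D) :=
          mul_le_mul_of_nonneg_right (by linarith) (by positivity)
      _ = ((s.N:ℝ) ^ 2 * s.e0 + 4 * ((s.N:ℝ) ^ 2 * s.ep)) * Real.log s.D := by ring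
      _ ≤ _ := mul_le_mul_of_nonneg_right (by linarith) hΛ
  have f4 : (s.N:ℝ) * (4 * (s.e0 * Real.log s.D)) ≤ 4 / 1000 * Real.log s.D := by
    have := mul_le_mul_of_nonneg_right sm1 hΛ
    linarith
  have f5 : (eTot G ψ : ℝ) * Real.log (s.Y 1 t) ≤ -(1 - 1 / 100) * Real.log s.D := by
    have g1 : (1:ℝ) ≤ eTot G ψ := by exact_mod_cast he
    have g2 : Real.log (s.Y 1 t) ≤ -(1 - 2 * s.ep) * Real.log s.D := by linarith
    have g3 : s.ep * Real.log s.D ≤ 1 / 1000 * Real.log s.D :=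
      mul_le_mul_of_nonneg_right (par_small hP).2.1 hΛ
    have g4 : Real.log (s.Y 1 t) ≤ 0 := by linarith
    have g5 : (eTot G ψ : ℝ) * Real.log (s.Y 1 t) ≤ 1 * Real.log (s.Y 1 t) :=
      mul_le_mul_of_nonpos_right g1 g4
    linarith
  have f6 : (s.N:ℝ) ≤ (s.N:ℝ) ^ 2 := by nlinarith
  linarith

theorem partC {j : ℕ} {s : Sys j} (h : LF s) (hF : Facts s) (h3 : S_TM) {J : SimpleGraph (Fin j)}
    {G : SimpleGraph (Fin s.N)} {ψ : Fin j → Option (Fin s.N)} {k : ℕ} (hc : CD J G ψ k)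
    (he : 1 ≤ eTot G ψ) (hbig : 16 * (s.N : ℝ) ^ 2 ≤ Real.log s.D)
    {t : ℝ} (ht : s.tp ≤ t)
    (hZ : ∀ i, s.Z i t ≤ s.D ^ (s.α + 4 * s.e0) * s.V i 1 s.tp) :
    s.Xp G ψ t ≤ s.D ^ (-(1:ℝ) / 4) * Real.exp (-(t - s.tp)) * s.Bt s.tp := by
  have hP := hF.par
  have hΛ := logD_nonneg hP
  have hD := D_pos hP
  obtain ⟨sm1, sm2, hN1⟩ := small hP
  obtain ⟨sm3, sm4⟩ := small2 hP
  have he0 := hP.e0pos
  have hep := hP.eppos
  have hepe := (par_small hP).2.2.1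
  have htMp := h.tMtl.trans h.tltp
  have htM := htMp.trans ht
  have ht0 : 0 ≤ t := h.tM0.le.trans htM
  have htp0 : 0 ≤ s.tp := h.tM0.le.trans htMp
  have hjN : (j : ℝ) ≤ s.N := by exact_mod_cast hP.jN
  have hζ : ∀ i, s.Z i t ≤ Real.exp ((s.α + 4 * s.e0) * Real.log s.D + lv s i 1 s.tp) := by
    intro i
    refine (hZ i).trans (le_of_eq ?_)
    unfold lv
    rw [Real.exp_add, Real.exp_log (h.vpos i 1 s.tp htp0), mul_comm (s.α + 4 * s.e0),
      ← Real.rpow_def_of_pos hD]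
  refine (Xp_le h hF G ψ _ ht0 hζ).trans ?_
  have hpt : ∀ i, be s G ψ (fun i => (s.α + 4 * s.e0) * Real.log s.D + lv s i 1 s.tp) t i ≤
      lv s i 1 s.tp + (if i ∈ dom ψ then (1 - ((dg J i : ℝ) - miss J ψ i)) * l0 s s.tp +
        ((s.N : ℝ) * (s.e0 + 4 * s.ep) * Real.log s.D + 3 * s.N + 4 - (t - s.tp))
        else (s.α + 4 * s.e0) * Real.log s.D)
      + (xi G ψ i : ℝ) * (-(s.tp - s.tM)) := by
    intro i
    unfold be
    by_cases hi : i ∈ dom ψ
    · rw [if_pos hi, if_pos hi]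
      obtain ⟨d1, d2⟩ := hc.a2 i hi
      have ho := hc.a3 i hi
      have hoN : (oi G ψ i : ℝ) ≤ s.N := by exact_mod_cast ho.trans d2
      have g1 := hub_main h hP hc h.tltp le_rfl hi
      have g2 : (oi G ψ i : ℝ) * lc s i t ≤ (oi G ψ i : ℝ) * (3 + lc s i s.tp) :=
        mul_le_mul_of_nonneg_left (c_tp h i ht) (Nat.cast_nonneg _)
      have g3 := h.v_dec i (dv G ψ i) t d1 d2 ht
      have g4 : (xi G ψ i : ℝ) * Real.log (s.Y 1 t) ≤ (xi G ψ i : ℝ) * (-(s.tp - s.tM)) := by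
        refine mul_le_mul_of_nonneg_left ?_ (Nat.cast_nonneg _)
        have := y_hi hF h3 htM
        linarith
      linarith
    · rw [if_neg hi, if_neg hi, xi_not_dom hi]
      push_cast; linarith
  have hs := sum_up hc _ _ _ _ _ _ hpt
  have hrw : s.D ^ (-(1:ℝ) / 4) * Real.exp (-(t - s.tp)) * s.Bt s.tp =
      Real.exp (-(t - s.tp)) * (s.D ^ (-(1:ℝ) / 4) * s.Bt s.tp) := by ring
  rw [hrw]
  have hexp : Real.exp (∑ i, be s G ψ (fun i => (s.α + 4 * s.e0) * Real.log s.D +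
      lv s i 1 s.tp) t i) = Real.exp (-(t - s.tp)) * Real.exp (∑ i, be s G ψ
      (fun i => (s.α + 4 * s.e0) * Real.log s.D + lv s i 1 s.tp) t i + (t - s.tp)) := by
    rw [← Real.exp_add]; congr 1; ring
  rw [hexp]
  refine mul_le_mul_of_nonneg_left (Bt_log h hP htp0 ?_) (Real.exp_pos _).le
  have hl0 := h.c0_hi s.tp htMp
  have hl2 := log2
  have htpe := h.tp_eq
  have hkj : (k:ℝ) ≤ j := by exact_mod_cast hc.a7
  have hk1 : (1:ℝ) ≤ k := by exact_mod_cast hc.a6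
  have he0Λ : 0 ≤ s.e0 * Real.log s.D := by positivity
  have hepΛ : 0 ≤ s.ep * Real.log s.D := by positivity
  have f1 : l0 s s.tp + (s.α + 4 * s.e0) * Real.log s.D ≤ 1 + 4 * (s.e0 * Real.log s.D) := by
    linarith
  have f2 : ((j:ℝ) - k) * (l0 s s.tp + (s.α + 4 * s.e0) * Real.log s.D) ≤
      s.N * (1 + 4 * (s.e0 * Real.log s.D)) := by
    calc _ ≤ ((j:ℝ) - k) * (1 + 4 * (s.e0 * Real.log s.D)) :=
          mul_le_mul_of_nonneg_left f1 (by linarith)
      _ ≤ _ := mul_le_mul_of_nonneg_right (by linarith) (by positivity)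
  have f3 : (k:ℝ) * ((s.N : ℝ) * (s.e0 + 4 * s.ep) * Real.log s.D) ≤
      1 / 100 * Real.log s.D := by
    calc (k:ℝ) * ((s.N : ℝ) * (s.e0 + 4 * s.ep) * Real.log s.D)
        ≤ s.N * ((s.N : ℝ) * (s.e0 + 4 * s.ep) * Real.log s.D) :=
          mul_le_mul_of_nonneg_right (by linarith) (by positivity)
      _ = ((s.N:ℝ) ^ 2 * s.e0 + 4 * ((s.N:ℝ) ^ 2 * s.ep)) * Real.log s.D := by ring
      _ ≤ _ := mul_le_mul_of_nonneg_right (by linarith) hΛ
  have f3' : (k:ℝ) * (3 * s.N + 4) ≤ s.N * (3 * s.N + 4) :=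
    mul_le_mul_of_nonneg_right (by linarith) (by positivity)
  have f3'' : 1 * (t - s.tp) ≤ (k:ℝ) * (t - s.tp) :=
    mul_le_mul_of_nonneg_right hk1 (by linarith)
  have f4 : (s.N:ℝ) * (4 * (s.e0 * Real.log s.D)) ≤ 4 / 1000 * Real.log s.D := by
    have := mul_le_mul_of_nonneg_right sm1 hΛ
    linarith
  have f5 : (eTot G ψ : ℝ) * (-(s.tp - s.tM)) ≤ -Real.log s.D := by
    have g1 : (1:ℝ) ≤ eTot G ψ := by exact_mod_cast he
    have g2 : -(s.tp - s.tM) ≤ -Real.log s.D := by linarith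
    have g5 : (eTot G ψ : ℝ) * (-(s.tp - s.tM)) ≤ 1 * (-(s.tp - s.tM)) :=
      mul_le_mul_of_nonpos_right g1 (by linarith)
    linarith
  have f6 : (s.N:ℝ) ≤ (s.N:ℝ) ^ 2 := by nlinarith
  linarith

theorem xb (h1 : S_CB) (h2 : S_VV) (h3 : S_ZB) (h4 : S_CNT) (h5 : S_TM) (_h6 : S_YF) : S_XB := by
  intro α e0 ep e1 N j hpar he1
  obtain ⟨K1, hK1⟩ := lf h1 h2 α e0 ep e1 N j hpar he1
  obtain ⟨K2, hK2⟩ := h3 α e0 ep e1 N j hpar he1
  refine ⟨max (max K1 K2) (Real.exp (16 * (N:ℝ) ^ 2)), fun s a b c d e hK hF J G hJ hG ψ hψ => ?_⟩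
  have h := hK1 s a b c d e (((le_max_left _ _).trans (le_max_left _ _)).trans hK) hF
  obtain ⟨z1, z2⟩ := hK2 s a b c d e (((le_max_right _ _).trans (le_max_left _ _)).trans hK) hF
  have hP := hF.par
  have hbig : 16 * (s.N : ℝ) ^ 2 ≤ Real.log s.D := by
    have := log_le_logD hP (c := 16 * (N:ℝ) ^ 2) ((le_max_right _ _).trans hK)
    rw [← d] at this
    exact this
  have hc := cd h4 J G hP.j1 (by have := hP.N3; omega) hJ hG ψ hψ
  refine ⟨fun t ht htl => ?_, fun he t ht htp => ?_, fun he t ht => ?_⟩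
  · exact partA h hF h5 hc ht fun i => z1 i t (h.tM0.le.trans ht) (htl.trans h.tltp)
  · exact partB h hF h5 hc he hbig ht htp fun i => z1 i t (h.tM0.le.trans (h.tMtl.trans ht)) htp
  · exact partC h hF h5 hc he hbig ht fun i => z2 i t ht

end Pool.Agent.TH326.J2268
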