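import Pool.Agent.TH326.J2270a

set_option autoImplicit false

open Pool.Agent.TH981.SD
open Finset Set Filter
open scoped BigOperators Topology Classical

namespace Pool.Agent.TH326.J2270

open Pool.Agent.TH326.JB

/-- sums over the hubs, from pointwise bounds -/
theorem sum_two {j : ℕ} {s : Sys j} {J : SimpleGraph (Fin j)} (hP : Par s)
    {d : Fin j → ℕ} (hd : Adm J s.N d) (F G : Fin j → ℝ) (A B : ℝ) (hA : 0 ≤ A)
    (h : ∀ i, F i ≤ G i + ((d i : ℝ) - dg J i) * A + B) :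
    ∑ i, F i ≤ ∑ i, G i + 2 * s.N * A + j * B := by
  have hsum := Finset.sum_le_sum (fun i (_ : i ∈ Finset.univ) => h i)
  have h1 : ∑ i, (G i + ((d i : ℝ) - dg J i) * A + B) =
      ∑ i, G i + (∑ i, ((d i : ℝ) - dg J i)) * A + j * B := by
    rw [Finset.sum_add_distrib, Finset.sum_add_distrib, ← Finset.sum_mul]
    simp
  have h2 : ∑ i, ((d i : ℝ) - dg J i) ≤ 2 * s.N := by
    have h3 : ∑ i, ((d i : ℝ) - dg J i) ≤ ∑ i, (d i : ℝ) :=
      Finset.sum_le_sum fun i _ => by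
        have : (0:ℝ) ≤ dg J i := Nat.cast_nonneg _
        linarith
    have hdd : (∑ i, (d i : ℝ)) = s.N + j - 2 := by
      have h6 : ((∑ i, d i : ℕ) : ℝ) + 2 = s.N + j := by exact_mod_cast hd.2
      push_cast at h6; linarith
    have hjN : (j : ℝ) ≤ s.N := by exact_mod_cast hP.jN
    linarith
  have h3 := mul_le_mul_of_nonneg_right h2 hA
  linarith

theorem key1 {j : ℕ} {s : Sys j} (h : LF s) (hP : Par s) {t : ℝ} (ht : s.tl ≤ t)
    (htp : t ≤ s.tp) (hbig1 : 4 * (s.N : ℝ) ≤ Real.log s.D) :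
    -(3 / 2) * Real.log s.D ≤ (2 - (j : ℝ)) * l0 s t := by
  have hΛ := logD_nonneg hP
  have hep := hP.eppos
  obtain ⟨sm1, sm2, hN1⟩ := small hP
  have hjN : (j : ℝ) ≤ s.N := by exact_mod_cast hP.jN
  have htM : s.tM ≤ t := h.tMtl.trans ht
  have hl2 := log2
  have hl4 := log4
  have htl := h.tl_eq
  have htp' := h.tp_eq
  have hα0 := hP.a0
  have hα1 := hP.a1'
  rcases Nat.lt_or_ge j 2 with hj | hj
  · have hj' : j = 1 := by have := hP.j1; omega
    have h5 := h.c0_lo t htM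
    have h6 : t - s.tM ≤ (1 + s.ep) * Real.log s.D := by linarith
    have h7 : s.α * Real.log s.D ≤ 1 * Real.log s.D :=
      mul_le_mul_of_nonneg_right hα1.le hΛ
    have h8 : s.ep * Real.log s.D ≤ 1 / 1000 * Real.log s.D :=
      mul_le_mul_of_nonneg_right (par_small hP).2.1 hΛ
    have hjr : (j : ℝ) = 1 := by exact_mod_cast hj'
    have h9 : (2 - (j : ℝ)) * l0 s t = l0 s t := by rw [hjr]; ring
    have hN3 : (3:ℝ) ≤ s.N := by exact_mod_cast hP.N3
    rw [h9]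
    linarith
  · have h5 := h.c0_hi t htM
    have h6 : (1 - 2 * s.ep) * Real.log s.D ≤ t - s.tM := by linarith
    have h7 : 0 ≤ s.α * Real.log s.D := by positivity
    have h8 : l0 s t ≤ 1 + 2 * (s.ep * Real.log s.D) := by linarith
    have hj2 : (2:ℝ) ≤ j := by exact_mod_cast hj
    have h9 : ((j : ℝ) - 2) * l0 s t ≤ ((j : ℝ) - 2) * (1 + 2 * (s.ep * Real.log s.D)) :=
      mul_le_mul_of_nonneg_left h8 (by linarith)
    have h10 : ((j : ℝ) - 2) * (1 + 2 * (s.ep * Real.log s.D)) ≤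
        s.N * (1 + 2 * (s.ep * Real.log s.D)) :=
      mul_le_mul_of_nonneg_right (by linarith) (by positivity)
    have hNep : (s.N:ℝ) * (s.ep * Real.log s.D) ≤ 1 / 1000 * Real.log s.D := by
      have := mul_le_mul_of_nonneg_right sm2 hΛ
      linarith
    linarith

theorem p1 {j : ℕ} {s : Sys j} (h : LF s) (hP : Par s) {J : SimpleGraph (Fin j)} (hJ : J.IsTree)
    {d : Fin j → ℕ} (hd : Adm J s.N d) (hbig1 : 4 * (s.N : ℝ) ≤ Real.log s.D)
    {t : ℝ} (ht : s.tl ≤ t) (htp : t ≤ s.tp) :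
    s.D ^ (-(3 * (s.N:ℝ) * s.e0)) * s.Bt t ≤ s.PP J d t ∧
      s.D ^ (-(2:ℝ)) * ∏ i, s.V i 1 t ≤ s.PP J d t := by
  have hΛ := logD_nonneg hP
  have hD := D_pos hP
  have hep := hP.eppos
  have he0 := hP.e0pos
  obtain ⟨sm1, sm2, hN1⟩ := small hP
  have hsep : s.ep ≤ s.e0 / 1000 := (par_small hP).2.2.1
  have ht0 : 0 ≤ t := h.tM0.le.trans (h.tMtl.trans ht)
  have hlo := main_lo h hP hJ hd ht htp
  have hmul : (s.N : ℝ) * ((2 * s.e0 + 5 * s.ep) * Real.log s.D) ≤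
      (3 * (s.N:ℝ) * s.e0) * Real.log s.D := by
    have h1 : (2 * s.e0 + 5 * s.ep) * Real.log s.D ≤ (3 * s.e0) * Real.log s.D :=
      mul_le_mul_of_nonneg_right (by linarith) hΛ
    have h2 := mul_le_mul_of_nonneg_left h1 (by linarith : (0:ℝ) ≤ s.N)
    linarith
  refine ⟨?_, ?_⟩
  · rw [le_rpow_mul hD (Bt_pos h ht0) (PP_pos h J d ht0), log_Bt h ht0]
    linarith
  · rw [le_rpow_mul hD (V1_pos h ht0) (PP_pos h J d ht0), log_V1 h ht0]
    have hsm : (3 * (s.N:ℝ) * s.e0) * Real.log s.D ≤ 1 / 100 * Real.log s.D :=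
      mul_le_mul_of_nonneg_right (by linarith) hΛ
    have key := key1 h hP ht htp hbig1
    linarith

theorem p2 {j : ℕ} {s : Sys j} (h : LF s) (hP : Par s) {J : SimpleGraph (Fin j)}
    {d : Fin j → ℕ} (hd : Adm J s.N d) {t : ℝ} (ht : s.tM ≤ t) :
    s.PP J d t ≤ s.D ^ (5 * s.N ^ 2) * ∏ i, s.V i 1 t := by
  have hΛ := logD_nonneg hP
  have hD := D_pos hP
  obtain ⟨sm1, sm2, hN1⟩ := small hP
  have ht0 : 0 ≤ t := h.tM0.le.trans ht
  have hpos := V1_pos h ht0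
  have hx : s.D ^ (5 * s.N ^ 2) = s.D ^ (((5 * s.N ^ 2 : ℕ)) : ℝ) := (Real.rpow_natCast _ _).symm
  rw [hx, rpow_mul_le hD hpos (PP_pos h J d ht0), log_PP h J d ht0 (fun i => (hd.1 i).1),
    log_V1 h ht0]
  have hpt : ∀ i, ((d i : ℝ) - dg J i) * lc s i t + lv s i (d i) t ≤
      (lv s i 1 t + ((d i : ℝ) - 1) * Real.log s.D) + ((d i : ℝ) - dg J i) *
        (2 * Real.log s.D) + 0 := by
    intro i
    obtain ⟨a1, a2, a3⟩ := hd.1 i
    have hv := v_up' h i ht0 a2 (by omega)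
    have hc := (h.c_le i t ht0).trans (h.c0_le t ht0)
    have hnn : (0:ℝ) ≤ (d i : ℝ) - dg J i := by
      have : (dg J i : ℝ) ≤ d i := by exact_mod_cast a1
      linarith
    have := mul_le_mul_of_nonneg_left hc hnn
    linarith
  have hs := sum_two hP hd _ _ (2 * Real.log s.D) 0 (by positivity) hpt
  have hs2 : ∑ i, (lv s i 1 t + ((d i : ℝ) - 1) * Real.log s.D) =
      ∑ i, lv s i 1 t + (∑ i, ((d i : ℝ) - 1)) * Real.log s.D := by
    rw [Finset.sum_add_distrib, ← Finset.sum_mul]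
  have hdd2 : ∑ i, ((d i : ℝ) - 1) ≤ s.N := by
    have h6 : ((∑ i, d i : ℕ) : ℝ) + 2 = s.N + j := by exact_mod_cast hd.2
    push_cast at h6
    rw [Finset.sum_sub_distrib]
    simp only [Finset.sum_const, Finset.card_univ, Fintype.card_fin, nsmul_eq_mul, mul_one]
    linarith
  rw [hs2] at hs
  have h9 := mul_le_mul_of_nonneg_right hdd2 hΛ
  have h10 : (s.N : ℝ) * Real.log s.D ≤ (s.N:ℝ) ^ 2 * Real.log s.D :=
    mul_le_mul_of_nonneg_right (by nlinarith) hΛ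
  push_cast
  linarith

theorem p3 {j : ℕ} {s : Sys j} (h : LF s) (hP : Par s) {J : SimpleGraph (Fin j)}
    {d : Fin j → ℕ} (hd : Adm J s.N d) (hbig2 : 20 * (s.N:ℝ) ≤ s.ep * Real.log s.D)
    {t : ℝ} (ht : s.tp ≤ t) :
    s.PP J d t ≤ s.D ^ s.ep * Real.exp (-(t - s.tp)) * s.PP J d s.tp := by
  have hD := D_pos hP
  have hjN : (j : ℝ) ≤ s.N := by exact_mod_cast hP.jN
  have hj1 : (1:ℝ) ≤ j := by exact_mod_cast hP.j1
  have htp0 : 0 ≤ s.tp := h.tM0.le.trans (h.tMtl.trans h.tltp)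
  have ht0 : 0 ≤ t := htp0.trans ht
  rw [mul_assoc, rpow_mul_le hD (mul_pos (Real.exp_pos _) (PP_pos h J d htp0))
    (PP_pos h J d ht0), Real.log_mul (Real.exp_pos _).ne' (PP_pos h J d htp0).ne',
    Real.log_exp, log_PP h J d ht0 (fun i => (hd.1 i).1),
    log_PP h J d htp0 (fun i => (hd.1 i).1)]
  have hpt : ∀ i, ((d i : ℝ) - dg J i) * lc s i t + lv s i (d i) t ≤
      (((d i : ℝ) - dg J i) * lc s i s.tp + lv s i (d i) s.tp) + ((d i : ℝ) - dg J i) * 3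
        + (4 - (t - s.tp)) := by
    intro i
    obtain ⟨a1, a2, a3⟩ := hd.1 i
    have hv := h.v_dec i (d i) t a2 a3 ht
    have hc := c_tp h i ht
    have hnn : (0:ℝ) ≤ (d i : ℝ) - dg J i := by
      have : (dg J i : ℝ) ≤ d i := by exact_mod_cast a1
      linarith
    have := mul_le_mul_of_nonneg_left hc hnn
    linarith
  have hs := sum_two hP hd _ _ 3 _ (by norm_num) hpt
  have hx : (j : ℝ) * (4 - (t - s.tp)) ≤ 4 * s.N - (t - s.tp) := by
    have h1 : (j : ℝ) * (t - s.tp) ≥ 1 * (t - s.tp) :=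
      mul_le_mul_of_nonneg_right hj1 (by linarith)
    linarith
  linarith

theorem p4 {j : ℕ} {s : Sys j} (h : LF s) (hP : Par s) {J : SimpleGraph (Fin j)}
    {d : Fin j → ℕ} (hd : Adm J s.N d) (hbig2 : 20 * (s.N:ℝ) ≤ s.ep * Real.log s.D)
    {t : ℝ} (ht : s.tp - 1 ≤ t) (htp : t ≤ s.tp) :
    s.PP J d s.tp ≤ s.D ^ s.ep * s.PP J d t := by
  have hD := D_pos hP
  have hjN : (j : ℝ) ≤ s.N := by exact_mod_cast hP.jN
  have htp0 : 0 ≤ s.tp := h.tM0.le.trans (h.tMtl.trans h.tltp)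
  have htM : s.tM ≤ t := by
    have h5 := h.tp_eq
    have h6 := h.one_le
    have h7 : 0 ≤ s.ep * Real.log s.D := mul_nonneg hP.eppos.le (by linarith)
    linarith
  have ht0 : 0 ≤ t := h.tM0.le.trans htM
  rw [rpow_mul_le hD (PP_pos h J d ht0) (PP_pos h J d htp0),
    log_PP h J d ht0 (fun i => (hd.1 i).1), log_PP h J d htp0 (fun i => (hd.1 i).1)]
  have hpt : ∀ i, ((d i : ℝ) - dg J i) * lc s i s.tp + lv s i (d i) s.tp ≤
      (((d i : ℝ) - dg J i) * lc s i t + lv s i (d i) t) + ((d i : ℝ) - dg J i) * 3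
        + 11 := by
    intro i
    obtain ⟨a1, a2, a3⟩ := hd.1 i
    have hv := h.v_tp i (d i) t a2 a3 ht htp
    have hc := c_tp' h i htM htp
    have hnn : (0:ℝ) ≤ (d i : ℝ) - dg J i := by
      have : (dg J i : ℝ) ≤ d i := by exact_mod_cast a1
      linarith
    have := mul_le_mul_of_nonneg_left hc hnn
    linarith
  have hs := sum_two hP hd _ _ 3 _ (by norm_num) hpt
  linarith

theorem ppb (h1 : S_CB) (h2 : S_VV) (_h3 : S_TM) (_h4 : S_YF) : S_PPB := by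
  intro α e0 ep e1 N j hpar he1
  obtain ⟨K1, hK1⟩ := lf h1 h2 α e0 ep e1 N j hpar he1
  refine ⟨max K1 (Real.exp (20 * N / ep + 4 * N)), fun s a b c d e hK hF J hJ => ?_⟩
  have h := hK1 s a b c d e ((le_max_left _ _).trans hK) hF
  have hP := hF.par
  have hD := D_pos hP
  have hep := hP.eppos
  have hbig : 20 * (s.N:ℝ) / s.ep + 4 * s.N ≤ Real.log s.D := by
    have := log_le_logD hP (c := 20 * N / ep + 4 * N) ((le_max_right _ _).trans hK)
    rw [← c, ← d] at this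
    exact this
  have hq : 0 ≤ 20 * (s.N:ℝ) / s.ep := by positivity
  have hbig1 : 4 * (s.N : ℝ) ≤ Real.log s.D := by linarith
  have hbig2 : 20 * (s.N:ℝ) ≤ s.ep * Real.log s.D := by
    have h5 : 20 * (s.N:ℝ) / s.ep ≤ Real.log s.D := by
      have : (0:ℝ) ≤ s.N := Nat.cast_nonneg _
      linarith
    rw [div_le_iff₀ hep] at h5
    linarith
  refine ⟨fun dd hdd => ⟨fun t ht htp => p1 h hP hJ hdd hbig1 ht htp,
    fun t ht _ => p2 h hP hdd ht, fun t ht => p3 h hP hdd hbig2 ht,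
    fun t ht htp => p4 h hP hdd hbig2 ht htp⟩, fun dd ds hdd hds hlex t ht htp => ?_⟩
  have ht0 : 0 ≤ t := h.tM0.le.trans (h.tMtl.trans ht)
  rw [rpow_mul_le hD (PP_pos h J ds ht0) (PP_pos h J dd ht0)]
  exact lex h hP hdd hds hlex ht htp

end Pool.Agent.TH326.J2270
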