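import Pool.Agent.TH326.JBase

set_option autoImplicit false

open Pool.Agent.TH981.SD
open Finset Set Filter
open scoped BigOperators Topology Classical

namespace Pool.Agent.TH326.J2270

open Pool.Agent.TH326.JB

theorem PP_pos {j : ℕ} {s : Sys j} (h : LF s) (J : SimpleGraph (Fin j)) (d : Fin j → ℕ) {t : ℝ}
    (ht : 0 ≤ t) : 0 < s.PP J d t :=
  Finset.prod_pos fun i _ => mul_pos (pow_pos (h.cpos i t ht) _) (h.vpos i _ t ht)

theorem log_PP {j : ℕ} {s : Sys j} (h : LF s) (J : SimpleGraph (Fin j)) (d : Fin j → ℕ) {t : ℝ}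
    (ht : 0 ≤ t) (hd : ∀ i, dg J i ≤ d i) : Real.log (s.PP J d t) =
      ∑ i, (((d i : ℝ) - dg J i) * lc s i t + lv s i (d i) t) := by
  unfold Sys.PP
  rw [Real.log_prod (fun i _ => (mul_pos (pow_pos (h.cpos i t ht) _) (h.vpos i _ t ht)).ne')]
  refine Finset.sum_congr rfl fun i _ => ?_
  rw [Real.log_mul (pow_pos (h.cpos i t ht) _).ne' (h.vpos i _ t ht).ne', Real.log_pow,
    Nat.cast_sub (hd i)]
  rfl

theorem V1_pos {j : ℕ} {s : Sys j} (h : LF s) {t : ℝ} (ht : 0 ≤ t) : 0 < ∏ i, s.V i 1 t :=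
  Finset.prod_pos fun i _ => h.vpos i _ t ht

theorem log_V1 {j : ℕ} {s : Sys j} (h : LF s) {t : ℝ} (ht : 0 ≤ t) :
    Real.log (∏ i, s.V i 1 t) = ∑ i, lv s i 1 t := by
  rw [Real.log_prod (fun i _ => (h.vpos i _ t ht).ne')]
  rfl

theorem Bt_pos {j : ℕ} {s : Sys j} (h : LF s) {t : ℝ} (ht : 0 ≤ t) : 0 < s.Bt t :=
  mul_pos (zpow_pos (h.c0pos t ht) _) (V1_pos h ht)

theorem log_Bt {j : ℕ} {s : Sys j} (h : LF s) {t : ℝ} (ht : 0 ≤ t) :
    Real.log (s.Bt t) = (2 - (j : ℝ)) * l0 s t + ∑ i, lv s i 1 t := by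
  unfold Sys.Bt
  rw [Real.log_mul (zpow_pos (h.c0pos t ht) _).ne' (V1_pos h ht).ne', Real.log_zpow, log_V1 h ht]
  push_cast
  rfl

/-- lower bound in the main region -/
theorem main_lo {j : ℕ} {s : Sys j} (h : LF s) (hP : Par s) {J : SimpleGraph (Fin j)}
    (hJ : J.IsTree) {d : Fin j → ℕ} (hd : Adm J s.N d) {t : ℝ} (ht : s.tl ≤ t) (htp : t ≤ s.tp) :
    (2 - (j : ℝ)) * l0 s t + ∑ i, lv s i 1 t -
      (s.N : ℝ) * ((2 * s.e0 + 5 * s.ep) * Real.log s.D) ≤ Real.log (s.PP J d t) := by
  have ht0 : 0 ≤ t := h.tM0.le.trans (h.tMtl.trans ht)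
  have hΛ := logD_nonneg hP
  rw [log_PP h J d ht0 (fun i => (hd.1 i).1)]
  have hpt : ∀ i, lv s i 1 t + (1 - (dg J i : ℝ)) * l0 s t -
      ((d i : ℝ) - 1) * ((2 * s.e0 + 5 * s.ep) * Real.log s.D) ≤
      ((d i : ℝ) - dg J i) * lc s i t + lv s i (d i) t := by
    intro i
    obtain ⟨h1, h2, h3⟩ := hd.1 i
    have hw := w_lo h i ht htp (le_refl 1) h2 (by omega)
    have hd1 : (0:ℝ) ≤ (d i : ℝ) - 1 := by
      have : (1:ℝ) ≤ d i := by exact_mod_cast h2
      linarith
    have he : ((d i : ℝ) - 1) * ((2 * s.ei i + 5 * s.ep) * Real.log s.D) ≤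
        ((d i : ℝ) - 1) * ((2 * s.e0 + 5 * s.ep) * Real.log s.D) := by
      refine mul_le_mul_of_nonneg_left (mul_le_mul_of_nonneg_right ?_ hΛ) hd1
      linarith [ei_le hP i]
    have hc : (1 - (dg J i : ℝ)) * l0 s t ≤ (1 - (dg J i : ℝ)) * lc s i t := by
      rcases Nat.eq_zero_or_pos (dg J i) with h0 | h0
      · have hj : j < 2 := by
          by_contra hj
          have := tree_deg_pos hJ (by omega) i
          omega
        have hi : i.val = 0 := by omega
        rw [h.c_eq i hi]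
      · have h5 : (1:ℝ) ≤ (dg J i : ℝ) := by exact_mod_cast h0
        exact mul_le_mul_of_nonpos_left (h.c_le i t ht0) (by linarith)
    push_cast at hw
    linarith
  have hsum := Finset.sum_le_sum (fun i (_ : i ∈ Finset.univ) => hpt i)
  rw [Finset.sum_sub_distrib, Finset.sum_add_distrib, ← Finset.sum_mul, ← Finset.sum_mul,
    Finset.sum_sub_distrib, Finset.sum_sub_distrib] at hsum
  have hdg : (∑ i, (dg J i : ℝ)) = 2 * j - 2 := by
    have := tree_sum hJ
    have h6 : ((∑ i, dg J i : ℕ) : ℝ) + 2 = 2 * j := by exact_mod_cast this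
    push_cast at h6; linarith
  have hdd : (∑ i, (d i : ℝ)) = s.N + j - 2 := by
    have h6 : ((∑ i, d i : ℕ) : ℝ) + 2 = s.N + j := by exact_mod_cast hd.2
    push_cast at h6; linarith
  rw [hdg, hdd] at hsum
  simp only [Finset.sum_const, Finset.card_univ, Fintype.card_fin, nsmul_eq_mul, mul_one] at hsum
  have hnn : 0 ≤ (2 * s.e0 + 5 * s.ep) * Real.log s.D := by
    have := hP.e0pos; have := hP.eppos; positivity
  nlinarith

theorem small {j : ℕ} {s : Sys j} (hP : Par s) : (s.N : ℝ) * s.e0 ≤ 1 / 1000 ∧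
    (s.N : ℝ) * s.ep ≤ 1 / 1000 ∧ (1:ℝ) ≤ s.N := by
  obtain ⟨p1, p2, p3, p4, p5⟩ := par_small hP
  have h1 : (s.N : ℝ) * s.e0 ≤ 1 / 1000 := by
    have h2 := hP.e0le
    have hN2 : (0:ℝ) < 1000 * (s.N : ℝ) ^ 2 := by positivity
    rw [le_div_iff₀ hN2] at h2
    have h3 := hP.a0
    have h4 := hP.e0pos
    have h5 : s.e0 * (1000 * (s.N:ℝ)) ≤ s.e0 * (1000 * (s.N:ℝ) ^ 2) := by
      refine mul_le_mul_of_nonneg_left ?_ h4.le
      nlinarith
    linarith
  refine ⟨h1, ?_, p5⟩
  have h4 := hP.e0pos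
  have h5 : (s.N:ℝ) * s.ep ≤ (s.N:ℝ) * (s.e0 / 1000) := mul_le_mul_of_nonneg_left p3 (by linarith)
  linarith

theorem log4 : Real.log 4 ≤ 2 := by
  have h : (4:ℝ) = 2 ^ (2:ℕ) := by norm_num
  rw [h, Real.log_pow]
  have := Real.log_two_lt_d9
  push_cast; linarith

theorem log2 : Real.log 2 ≤ 1 := by
  have := Real.log_two_lt_d9
  linarith

/-- the factors at `t` and at `tp` -/
theorem c_tp {j : ℕ} {s : Sys j} (h : LF s) (i : Fin j) {t : ℝ} (ht : s.tp ≤ t) :
    lc s i t ≤ 3 + lc s i s.tp := by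
  have h1 := h.c_hi i t ((h.tMtl.trans h.tltp).trans ht)
  have h2 := h.c_lo i s.tp (h.tMtl.trans h.tltp)
  have := log4; have := log2
  linarith

theorem c_tp' {j : ℕ} {s : Sys j} (h : LF s) (i : Fin j) {t : ℝ} (ht : s.tM ≤ t)
    (htp : t ≤ s.tp) : lc s i s.tp ≤ 3 + lc s i t := by
  have h1 := h.c_hi i s.tp (h.tMtl.trans h.tltp)
  have h2 := h.c_lo i t ht
  have := log4; have := log2
  linarith

/-- geometric sum used in the lexicographic comparison -/
theorem geo (N : ℝ) (hN : 1 ≤ N) (i0 m : ℕ) :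
    ∑ i ∈ Finset.range (i0 + 1 + m), (if i0 < i then (1 / (16 * N)) ^ i else 0) ≤
      ((1 / (16 * N)) ^ i0 - (1 / (16 * N)) ^ (i0 + m)) / (8 * N) := by
  have hN0 : 0 < N := by linarith
  induction m with
  | zero =>
    rw [Finset.sum_eq_zero]
    · simp
    · intro i hi
      have : i < i0 + 1 := by simpa using hi
      rw [if_neg (by omega)]
  | succ m ih =>
    rw [← add_assoc, Finset.sum_range_succ, if_pos (by omega)]
    have h1 : (1 / (16 * N)) ^ (i0 + 1 + m) = (1 / (16 * N)) ^ (i0 + m) * (1 / (16 * N)) := by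
      rw [← pow_succ]; congr 1; omega
    have h2 : (1 / (16 * N)) ^ (i0 + (m + 1)) = (1 / (16 * N)) ^ (i0 + m) * (1 / (16 * N)) := by
      rw [← pow_succ]; congr 1
    rw [h1, h2]
    have h3 : 0 < (1 / (16 * N)) ^ (i0 + m) := by positivity
    have h4 : (1 / (16 * N)) ^ (i0 + m) * (1 / (16 * N)) ≤
        ((1 / (16 * N)) ^ (i0 + m) - (1 / (16 * N)) ^ (i0 + m) * (1 / (16 * N))) / (8 * N) := by
      rw [le_div_iff₀ (by positivity)]
      have h5 : (1 / (16 * N)) * (8 * N) = 1 / 2 := by field_simp; norm_num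
      have h6 : 1 / (16 * N) ≤ 1 / 2 := by
        rw [div_le_div_iff₀ (by positivity) (by norm_num)]; linarith
      calc (1 / (16 * N)) ^ (i0 + m) * (1 / (16 * N)) * (8 * N)
          = (1 / (16 * N)) ^ (i0 + m) * ((1 / (16 * N)) * (8 * N)) := by ring
        _ = (1 / (16 * N)) ^ (i0 + m) * (1 / 2) := by rw [h5]
        _ ≤ _ := by nlinarith
    have h7 : ((1 / (16 * N)) ^ i0 - (1 / (16 * N)) ^ (i0 + m) * (1 / (16 * N))) / (8 * N)
        = ((1 / (16 * N)) ^ i0 - (1 / (16 * N)) ^ (i0 + m)) / (8 * N) +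
        ((1 / (16 * N)) ^ (i0 + m) - (1 / (16 * N)) ^ (i0 + m) * (1 / (16 * N))) / (8 * N) := by
      ring
    rw [h7]
    linarith

theorem lex {j : ℕ} {s : Sys j} (h : LF s) (hP : Par s) {J : SimpleGraph (Fin j)}
    {d ds : Fin j → ℕ} (hd : Adm J s.N d) (hds : Adm J s.N ds) (hlex : LexGt d ds)
    {t : ℝ} (ht : s.tl ≤ t) (htp : t ≤ s.tp) :
    Real.log (s.PP J d t) ≤ -(s.e0 * (1 / (16 * (s.N:ℝ))) ^ s.N / 2) * Real.log s.D +
      Real.log (s.PP J ds t) := by
  have ht0 : 0 ≤ t := h.tM0.le.trans (h.tMtl.trans ht)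
  have hΛ := logD_nonneg hP
  have hep := hP.eppos
  have he0 := hP.e0pos
  obtain ⟨i0, hi1, hlt, heq⟩ := hlex
  have hN1 := (small hP).2.2
  rw [log_PP h J d ht0 (fun i => (hd.1 i).1), log_PP h J ds ht0 (fun i => (hds.1 i).1)]
  set q : ℝ := 1 / (16 * (s.N:ℝ)) with hq
  have hq0 : 0 < q := by rw [hq]; positivity
  have hq1 : q ≤ 1 := by rw [hq, div_le_one (by positivity)]; linarith
  have heq0 : ∀ i : Fin j, 1 ≤ i.val → s.ei i = s.e0 * q ^ i.val := by
    intro i hi
    unfold Sys.ei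
    rw [if_neg (by omega)]
  -- pointwise bound
  have hpt : ∀ i : Fin j, (((d i : ℝ) - dg J i) * lc s i t + lv s i (d i) t) ≤
      (((ds i : ℝ) - dg J i) * lc s i t + lv s i (ds i) t) +
      ((if i = i0 then -(s.e0 * q ^ i0.val) else 0) +
        2 * s.N * s.e0 * (if i0.val < i.val then q ^ i.val else 0) + 5 * s.N * s.ep)
        * Real.log s.D := by
    intro i
    obtain ⟨a1, a2, a3⟩ := hd.1 i
    obtain ⟨b1, b2, b3⟩ := hds.1 i
    have hdN : (d i : ℝ) ≤ s.N := by exact_mod_cast a3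
    have hdsN : (ds i : ℝ) ≤ s.N := by exact_mod_cast b3
    have hd1 : (1 : ℝ) ≤ d i := by exact_mod_cast a2
    have hds1 : (1 : ℝ) ≤ ds i := by exact_mod_cast b2
    have hei := ei_nonneg hP i
    have key : (lv s i (d i) t + (d i : ℝ) * lc s i t) - (lv s i (ds i) t + (ds i : ℝ) * lc s i t)
        ≤ ((if i = i0 then -(s.e0 * q ^ i0.val) else 0) +
        2 * s.N * s.e0 * (if i0.val < i.val then q ^ i.val else 0) + 5 * s.N * s.ep)
        * Real.log s.D := by
      have up : ds i ≤ d i → (lv s i (d i) t + (d i : ℝ) * lc s i t)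
          - (lv s i (ds i) t + (ds i : ℝ) * lc s i t) ≤
          ((d i : ℝ) - ds i) * ((-(s.ei i) + 4 * s.ep) * Real.log s.D) := by
        intro hle
        have := w_hi h i ht htp b2 hle (by omega)
        linarith
      have dn : d i ≤ ds i → (lv s i (d i) t + (d i : ℝ) * lc s i t)
          - (lv s i (ds i) t + (ds i : ℝ) * lc s i t) ≤
          ((ds i : ℝ) - d i) * ((2 * s.ei i + 5 * s.ep) * Real.log s.D) := by
        intro hle
        have := w_lo h i ht htp a2 hle (by omega)
        linarith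
      have hepΛ : 0 ≤ s.ep * Real.log s.D := by positivity
      rcases lt_trichotomy i.val i0.val with hlt' | heq' | hgt
      · have hne : i ≠ i0 := by intro h; rw [h] at hlt'; omega
        rw [if_neg hne, if_neg (by omega)]
        rcases Nat.eq_zero_or_pos i.val with hz | hz
        · have e0 : s.ei i = 0 := by unfold Sys.ei; rw [if_pos hz]
          rcases le_total (ds i) (d i) with hle | hle
          · have h1 := up hle
            rw [e0] at h1
            have h2 : ((d i : ℝ) - ds i) * (4 * (s.ep * Real.log s.D)) ≤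
                s.N * (4 * (s.ep * Real.log s.D)) :=
              mul_le_mul_of_nonneg_right (by linarith) (by linarith)
            nlinarith
          · have h1 := dn hle
            rw [e0] at h1
            have h2 : ((ds i : ℝ) - d i) * (5 * (s.ep * Real.log s.D)) ≤
                s.N * (5 * (s.ep * Real.log s.D)) :=
              mul_le_mul_of_nonneg_right (by linarith) (by linarith)
            nlinarith
        · have := heq i hz (Fin.lt_def.2 hlt')
          rw [this]
          have : 0 ≤ s.N * (s.ep * Real.log s.D) := by positivity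
          linarith
      · have hi : i = i0 := Fin.ext heq'
        rw [if_pos hi, if_neg (by omega)]
        subst hi
        have h1 := up hlt.le
        rw [heq0 i hi1] at h1
        have h3 : (1:ℝ) ≤ (d i : ℝ) - ds i := by
          have : (ds i : ℝ) + 1 ≤ d i := by exact_mod_cast hlt
          linarith
        have h4 : 0 ≤ s.e0 * q ^ i.val * Real.log s.D := by positivity
        have h5 : s.e0 * q ^ i.val * Real.log s.D ≤
            ((d i : ℝ) - ds i) * (s.e0 * q ^ i.val * Real.log s.D) := by nlinarith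
        have h2 : ((d i : ℝ) - ds i) * (4 * (s.ep * Real.log s.D)) ≤
            s.N * (4 * (s.ep * Real.log s.D)) :=
          mul_le_mul_of_nonneg_right (by linarith) (by linarith)
        have h6 : 0 ≤ s.N * (s.ep * Real.log s.D) := by positivity
        nlinarith
      · have hne : i ≠ i0 := by intro h; rw [h] at hgt; omega
        rw [if_neg hne, if_pos hgt]
        have he := heq0 i (by omega)
        have h6 : 0 ≤ s.N * (s.ep * Real.log s.D) := by positivity
        have h7 : 0 ≤ s.e0 * q ^ i.val * Real.log s.D := by positivity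
        have h8 : 0 ≤ s.N * (s.e0 * q ^ i.val * Real.log s.D) := by positivity
        rcases le_total (ds i) (d i) with hle | hle
        · have h1 := up hle
          rw [he] at h1
          have h9 : (0:ℝ) ≤ (d i : ℝ) - ds i := by
            have : (ds i : ℝ) ≤ d i := by exact_mod_cast hle
            linarith
          have h10 : 0 ≤ ((d i : ℝ) - ds i) * (s.e0 * q ^ i.val * Real.log s.D) := by positivity
          have h2 : ((d i : ℝ) - ds i) * (4 * (s.ep * Real.log s.D)) ≤
              s.N * (4 * (s.ep * Real.log s.D)) :=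
            mul_le_mul_of_nonneg_right (by linarith) (by linarith)
          nlinarith
        · have h1 := dn hle
          rw [he] at h1
          have h2 : ((ds i : ℝ) - d i) * (5 * (s.ep * Real.log s.D)) ≤
              s.N * (5 * (s.ep * Real.log s.D)) :=
            mul_le_mul_of_nonneg_right (by linarith) (by linarith)
          have h11 : ((ds i : ℝ) - d i) * (2 * (s.e0 * q ^ i.val * Real.log s.D)) ≤
              s.N * (2 * (s.e0 * q ^ i.val * Real.log s.D)) :=
            mul_le_mul_of_nonneg_right (by linarith) (by linarith)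
          nlinarith
    linarith
  have hsum0 := Finset.sum_le_sum (fun i (_ : i ∈ Finset.univ) => hpt i)
  have hsum : ∑ i, (((d i : ℝ) - dg J i) * lc s i t + lv s i (d i) t) ≤
      ∑ i, (((ds i : ℝ) - dg J i) * lc s i t + lv s i (ds i) t) +
      (∑ i : Fin j, (if i = i0 then -(s.e0 * q ^ i0.val) else 0) +
        2 * s.N * s.e0 * (∑ i : Fin j, (if i0.val < i.val then q ^ i.val else 0)) +
        ∑ _i : Fin j, 5 * s.N * s.ep) * Real.log s.D := by
    refine hsum0.trans_eq ?_
    rw [Finset.sum_add_distrib, ← Finset.sum_mul, Finset.sum_add_distrib (f := fun i : Fin j =>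
      (if i = i0 then -(s.e0 * q ^ i0.val) else 0) +
        2 * s.N * s.e0 * (if i0.val < i.val then q ^ i.val else 0)), Finset.sum_add_distrib (f :=
      fun i : Fin j => (if i = i0 then -(s.e0 * q ^ i0.val) else 0)), ← Finset.mul_sum]
  have e1 : (∑ i : Fin j, (if i = i0 then -(s.e0 * q ^ i0.val) else 0)) = -(s.e0 * q ^ i0.val) := by
    simp
  have e2 : (∑ i : Fin j, (if i0.val < i.val then q ^ i.val else 0)) ≤ q ^ i0.val / (8 * s.N) := by
    rw [Fin.sum_univ_eq_sum_range (fun i => if i0.val < i then q ^ i else 0) j]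
    obtain ⟨m, hm⟩ : ∃ m, j = i0.val + 1 + m := ⟨j - (i0.val + 1), by have := i0.2; omega⟩
    have := geo s.N hN1 i0.val m
    rw [← hm] at this
    refine this.trans ?_
    rw [← hq]
    refine div_le_div_of_nonneg_right ?_ (by positivity)
    have : 0 < q ^ (i0.val + m) := by positivity
    linarith
  rw [e1] at hsum
  simp only [Finset.sum_const, Finset.card_univ, Fintype.card_fin, nsmul_eq_mul] at hsum
  have hjN : (j : ℝ) ≤ s.N := by exact_mod_cast hP.jN
  have hqN : q ^ s.N ≤ q ^ i0.val :=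
    pow_le_pow_of_le_one hq0.le hq1 (by have := i0.2; have := hP.jN; omega)
  have hcoef : -(s.e0 * q ^ i0.val) + 2 * s.N * s.e0 *
      (∑ i : Fin j, (if i0.val < i.val then q ^ i.val else 0)) + (j : ℝ) * (5 * s.N * s.ep)
      ≤ -(s.e0 * q ^ s.N / 2) := by
    have h1 : 2 * s.N * s.e0 * (∑ i : Fin j, (if i0.val < i.val then q ^ i.val else 0)) ≤
        2 * s.N * s.e0 * (q ^ i0.val / (8 * s.N)) :=
      mul_le_mul_of_nonneg_left e2 (by positivity)
    have h2 : 2 * s.N * s.e0 * (q ^ i0.val / (8 * s.N)) = s.e0 * q ^ i0.val / 4 := by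
      field_simp; norm_num
    have h3 : (j : ℝ) * (5 * s.N * s.ep) ≤ s.N * (5 * s.N * s.ep) :=
      mul_le_mul_of_nonneg_right hjN (by positivity)
    have h4 : s.N * (5 * s.N * s.ep) ≤ s.e0 * q ^ s.N / 200 := by
      have := hP.eple
      rw [le_div_iff₀ (by positivity)] at this
      rw [← hq] at this
      linarith
    have h5 : s.e0 * q ^ s.N ≤ s.e0 * q ^ i0.val := mul_le_mul_of_nonneg_left hqN he0.le
    have h6 : 0 < s.e0 * q ^ s.N := by positivity
    linarith
  have := mul_le_mul_of_nonneg_right hcoef hΛ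
  linarith

end Pool.Agent.TH326.J2270
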