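import Pool.Agent.TH981.SD.Cb

set_option autoImplicit false

open Pool.Agent.TH981.SD
open Finset Set Filter
open scoped BigOperators Topology Classical

namespace Pool.Agent.TH326.JB

theorem L_eq {j : ℕ} {s : Sys j} (h : Par s) : s.L = Real.log s.D := by
  have hK : 0 < s.K := by linarith [h.K1]
  unfold Sys.L LK Sys.D DK
  rw [Real.log_rpow hK]
  ring

theorem logK {j : ℕ} {s : Sys j} (h : Par s) : Real.log s.K = (1 - s.α) * Real.log s.D := by
  have h1 : (1 - s.α) ≠ 0 := by have := h.a1'; linarith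
  rw [← L_eq h]
  unfold Sys.L LK
  field_simp

/-- `D` is large if `K` is -/
theorem log_le_logD {j : ℕ} {s : Sys j} (h : Par s) {c : ℝ} (hc : Real.exp c ≤ s.K) :
    c ≤ Real.log s.D := by
  have hK : 0 < s.K := by linarith [h.K1]
  have h1 : c ≤ Real.log s.K := (Real.le_log_iff_exp_le hK).2 hc
  have h2 : 0 ≤ Real.log s.K := Real.log_nonneg (by linarith [h.K1])
  have h3 := h.a0
  have h4 := h.a1'
  rw [logK h] at h1 h2
  have h5 : 0 ≤ Real.log s.D := by
    by_contra hneg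
    push Not at hneg
    nlinarith
  nlinarith

theorem D_pos {j : ℕ} {s : Sys j} (h : Par s) : 0 < s.D := by
  have hK : 0 < s.K := by linarith [h.K1]
  unfold Sys.D DK
  exact Real.rpow_pos_of_pos hK _

theorem logD_nonneg {j : ℕ} {s : Sys j} (h : Par s) : 0 ≤ Real.log s.D := by
  have := (par_small h).2.2.2.1
  rwa [L_eq h] at this

theorem le_rpow_mul {D a x y : ℝ} (hD : 0 < D) (hx : 0 < x) (hy : 0 < y) :
    D ^ a * x ≤ y ↔ a * Real.log D + Real.log x ≤ Real.log y := by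
  have h1 : 0 < D ^ a * x := mul_pos (Real.rpow_pos_of_pos hD a) hx
  rw [← Real.log_le_log_iff h1 hy, Real.log_mul (Real.rpow_pos_of_pos hD a).ne' hx.ne',
    Real.log_rpow hD]

theorem rpow_mul_le {D a x y : ℝ} (hD : 0 < D) (hx : 0 < x) (hy : 0 < y) :
    y ≤ D ^ a * x ↔ Real.log y ≤ a * Real.log D + Real.log x := by
  have h1 : 0 < D ^ a * x := mul_pos (Real.rpow_pos_of_pos hD a) hx
  rw [← Real.log_le_log_iff hy h1, Real.log_mul (Real.rpow_pos_of_pos hD a).ne' hx.ne',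
    Real.log_rpow hD]

/-- log of `c_i` -/
noncomputable def lc {j : ℕ} (s : Sys j) (i : Fin j) (t : ℝ) : ℝ :=
  Real.log (cc s.Y (s.Kv i) t)
/-- log of `c_0` -/
noncomputable def l0 {j : ℕ} (s : Sys j) (t : ℝ) : ℝ := Real.log (cc s.Y s.K t)
/-- log of `V` -/
noncomputable def lv {j : ℕ} (s : Sys j) (i : Fin j) (k : ℕ) (t : ℝ) : ℝ :=
  Real.log (s.V i k t)

/-- all logarithmic facts used -/
structure LF {j : ℕ} (s : Sys j) : Prop where
  cpos : ∀ i t, 0 ≤ t → 0 < cc s.Y (s.Kv i) t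
  c0pos : ∀ t, 0 ≤ t → 0 < cc s.Y s.K t
  vpos : ∀ i k t, 0 ≤ t → 0 < s.V i k t
  c_le : ∀ i t, 0 ≤ t → lc s i t ≤ l0 s t
  le_c : ∀ i t, 0 ≤ t → -(s.ei i) * Real.log s.D + l0 s t ≤ lc s i t
  c0_le : ∀ t, 0 ≤ t → l0 s t ≤ 2 * Real.log s.D
  c_hi : ∀ i t, s.tM ≤ t → lc s i t ≤ Real.log 2 + Real.log (s.Kv i) - (t - s.tM)
  c_lo : ∀ i t, s.tM ≤ t → Real.log (s.Kv i) - (t - s.tM) - Real.log 4 ≤ lc s i t
  c0_hi : ∀ t, s.tM ≤ t → l0 s t ≤ Real.log 2 + (1 - s.α) * Real.log s.D - (t - s.tM)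
  c0_lo : ∀ t, s.tM ≤ t → (1 - s.α) * Real.log s.D - (t - s.tM) - Real.log 4 ≤ l0 s t
  c_eq : ∀ i : Fin j, i.val = 0 → ∀ t, lc s i t = l0 s t
  v_lo : ∀ i k t, 1 ≤ k → k ≤ s.N → s.tl ≤ t → t ≤ s.tp →
    (-(2 * s.ei i) - 5 * s.ep) * Real.log s.D + lv s i k t ≤ lc s i t + lv s i (k + 1) t
  v_hi : ∀ i k t, 1 ≤ k → k ≤ s.N → s.tl ≤ t → t ≤ s.tp →
    lc s i t + lv s i (k + 1) t ≤ (-(s.ei i) + 4 * s.ep) * Real.log s.D + lv s i k t
  v_up : ∀ i k t, 1 ≤ k → k ≤ s.N → 0 ≤ t → lv s i (k + 1) t ≤ Real.log s.D + lv s i k t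
  v_dec : ∀ i k t, 1 ≤ k → k ≤ s.N → s.tp ≤ t →
    lv s i k t ≤ 4 - (t - s.tp) + lv s i k s.tp
  v_tp : ∀ i k t, 1 ≤ k → k ≤ s.N → s.tp - 1 ≤ t → t ≤ s.tp → lv s i k s.tp ≤ 11 + lv s i k t
  tl_eq : s.tl = s.tM + (1 - 2 * s.ep) * Real.log s.D
  tp_eq : s.tp = s.tM + (1 + s.ep) * Real.log s.D
  tMtl : s.tM ≤ s.tl
  tltp : s.tl ≤ s.tp
  tM0 : 0 < s.tM
  one_le : 1 ≤ Real.log s.D

theorem Kv_zero {j : ℕ} (s : Sys j) (i : Fin j) (hi : i.val = 0) : s.Kv i = s.K := by
  unfold Sys.Kv Sys.gam Sys.ei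
  rw [if_pos hi, sub_zero, Real.rpow_one]

theorem lf (h1 : S_CB) (h2 : S_VV) : Large fun _ s => LF s := by
  intro α e0 ep e1 N j hpar he1
  obtain ⟨K1, hK1⟩ := h1 α e0 ep e1 N j hpar he1
  obtain ⟨K2, hK2⟩ := h2 α e0 ep e1 N j hpar he1
  refine ⟨max (max K1 K2) (Real.exp 1), fun s a b c d e hK hF => ?_⟩
  obtain ⟨c1, c2, c3, c4, c5⟩ := hK1 s a b c d e
    (((le_max_left _ _).trans (le_max_left _ _)).trans hK) hF
  obtain ⟨v1, v2, v3, v4, v5, v6, v7⟩ := hK2 s a b c d e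
    (((le_max_right _ _).trans (le_max_left _ _)).trans hK) hF
  have hP := hF.par
  have hj1 := hP.j1
  have hD := D_pos hP
  have hlog1 : 1 ≤ Real.log s.D := log_le_logD hP ((le_max_right _ _).trans hK)
  have hlog2' : Real.log 2 < 0.6931471808 := Real.log_two_lt_d9
  have hlog2 : Real.log 2 ≤ Real.log s.D := by linarith
  obtain ⟨t1, t2, t3, t4⟩ := times hF
  let z : Fin j := ⟨0, by omega⟩
  have hz : s.Kv z = s.K := Kv_zero s z rfl
  have cpos : ∀ i t, 0 ≤ t → 0 < cc s.Y (s.Kv i) t := fun i t ht => (c5 i t ht).2.2.2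
  have c0pos : ∀ t, 0 ≤ t → 0 < cc s.Y s.K t := fun t ht => by
    have := cpos z t ht; rwa [hz] at this
  have vpos : ∀ i k t, 0 ≤ t → 0 < s.V i k t := fun i k t ht => (hF.hV i).pos k t ht
  have hKpos : 0 < s.K := by linarith [hP.K1]
  have Kvpos : ∀ i, 0 < s.Kv i := fun i => by linarith [(c2 i).1]
  have tpos : ∀ t, s.tM ≤ t → 0 ≤ t := fun t ht => t4.le.trans ht
  have c_hi : ∀ i t, s.tM ≤ t → lc s i t ≤ Real.log 2 + Real.log (s.Kv i) - (t - s.tM) := by
    intro i t ht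
    have h := (c3 i t ht).2.1
    have hk := Kvpos i
    have := Real.log_le_log (cpos i t (tpos t ht)) h
    rw [Real.log_mul (by positivity) (Real.exp_pos _).ne', Real.log_mul (by norm_num) hk.ne',
      Real.log_exp] at this
    unfold lc; linarith
  have c_lo : ∀ i t, s.tM ≤ t → Real.log (s.Kv i) - (t - s.tM) - Real.log 4 ≤ lc s i t := by
    intro i t ht
    have h := (c3 i t ht).1
    have hk := Kvpos i
    have := Real.log_le_log (by positivity) h
    rw [Real.log_div (by positivity) (by norm_num), Real.log_mul hk.ne' (Real.exp_pos _).ne',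
      Real.log_exp] at this
    unfold lc; linarith
  have c_eq : ∀ i : Fin j, i.val = 0 → ∀ t, lc s i t = l0 s t := by
    intro i hi t
    unfold lc l0; rw [Kv_zero s i hi]
  refine ⟨cpos, c0pos, vpos, ?_, ?_, ?_, c_hi, c_lo, ?_, ?_, c_eq, ?_, ?_, ?_, ?_, ?_, ?_, ?_,
    t1, t2.trans t3, t4, hlog1⟩
  · intro i t ht
    exact Real.log_le_log (cpos i t ht) (c5 i t ht).1
  · intro i t ht
    have := (c5 i t ht).2.1
    rwa [le_rpow_mul hD (c0pos t ht) (cpos i t ht)] at this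
  · intro t ht
    have h := (c5 z t ht).2.2.1
    have hKD : s.K ≤ s.D := by
      rw [← Real.log_le_log_iff hKpos hD, logK hP]
      have := logD_nonneg hP
      nlinarith [hP.a0]
    have h3 : cc s.Y s.K t ≤ 2 * s.D := by linarith [hP.K1]
    have := Real.log_le_log (c0pos t ht) h3
    rw [Real.log_mul (by norm_num) hD.ne'] at this
    unfold l0; linarith
  · intro t ht
    have := c_hi z t ht
    rw [c_eq z rfl, hz, logK hP] at this
    linarith
  · intro t ht
    have := c_lo z t ht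
    rw [c_eq z rfl, hz, logK hP] at this
    linarith
  · intro i k t hk hkN ht htp
    have ht0 := tpos t (t1.trans ht)
    have := (v6 i k t hk hkN ht htp).1
    have hcp := cpos i t ht0
    have hvp := vpos i (k+1) t ht0
    rwa [le_rpow_mul hD (vpos i k t ht0) (mul_pos hcp hvp), Real.log_mul hcp.ne' hvp.ne'] at this
  · intro i k t hk hkN ht htp
    have ht0 := tpos t (t1.trans ht)
    have := (v6 i k t hk hkN ht htp).2
    have hcp := cpos i t ht0
    have hvp := vpos i (k+1) t ht0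
    rwa [rpow_mul_le hD (vpos i k t ht0) (mul_pos hcp hvp), Real.log_mul hcp.ne' hvp.ne'] at this
  · intro i k t hk hkN ht
    have := v7 i k t hk hkN ht
    have h3 := Real.log_le_log (vpos i (k+1) t ht) this
    rwa [Real.log_mul hD.ne' (vpos i k t ht).ne'] at h3
  · intro i k t hk hkN ht
    have ht0 : 0 ≤ s.tp := tpos _ (t1.trans (t2.trans t3))
    have := v4 i k t hk hkN ht
    have hv := vpos i k s.tp ht0
    have h3 := Real.log_le_log (vpos i k t (ht0.trans ht)) this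
    rw [Real.log_mul (by positivity) hv.ne', Real.log_mul (Real.exp_pos _).ne'
      (Real.exp_pos _).ne', Real.log_exp, Real.log_exp] at h3
    unfold lv; linarith
  · intro i k t hk hkN ht htp
    have ht0 : 0 ≤ s.tp := tpos _ (t1.trans (t2.trans t3))
    have ht0' : 0 ≤ t := by
      have h1000 : 1 ≤ (1 + s.ep) * s.L := by
        rw [L_eq hP]
        nlinarith [hP.eppos]
      have : s.tp = s.tM + (1 + s.ep) * s.L := rfl
      linarith
    have := v5 i k t hk hkN ht htp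
    have hv := vpos i k t ht0'
    have h3 := Real.log_le_log (vpos i k s.tp ht0) this
    rwa [Real.log_mul (Real.exp_pos _).ne' hv.ne', Real.log_exp] at h3
  · unfold Sys.tl; rw [L_eq hP]
  · unfold Sys.tp; rw [L_eq hP]

/-- `w_i(k) = v_i(k) + (k-1) log c_i` moves little in the main region -/
theorem w_lo {j : ℕ} {s : Sys j} (h : LF s) (i : Fin j) {t : ℝ} (ht : s.tl ≤ t)
    (htp : t ≤ s.tp) {a b : ℕ} (ha : 1 ≤ a) (hab : a ≤ b) (hb : b ≤ s.N + 1) :
    lv s i a t + (a : ℝ) * lc s i t - ((b : ℝ) - a) * ((2 * s.ei i + 5 * s.ep) * Real.log s.D) ≤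
      lv s i b t + (b : ℝ) * lc s i t := by
  induction b, hab using Nat.le_induction with
  | base => simp
  | succ n hn ih =>
    have h1 := ih (by omega)
    have h2 := h.v_lo i n t (by omega) (by omega) ht htp
    push_cast
    nlinarith

theorem w_hi {j : ℕ} {s : Sys j} (h : LF s) (i : Fin j) {t : ℝ} (ht : s.tl ≤ t)
    (htp : t ≤ s.tp) {a b : ℕ} (ha : 1 ≤ a) (hab : a ≤ b) (hb : b ≤ s.N + 1) :
    lv s i b t + (b : ℝ) * lc s i t ≤
    lv s i a t + (a : ℝ) * lc s i t + ((b : ℝ) - a) * ((-(s.ei i) + 4 * s.ep) * Real.log s.D) := by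
  induction b, hab using Nat.le_induction with
  | base => simp
  | succ n hn ih =>
    have h1 := ih (by omega)
    have h2 := h.v_hi i n t (by omega) (by omega) ht htp
    push_cast
    nlinarith

theorem v_up' {j : ℕ} {s : Sys j} (h : LF s) (i : Fin j) {t : ℝ} (ht : 0 ≤ t)
    {d : ℕ} (hd : 1 ≤ d) (hb : d ≤ s.N + 1) :
    lv s i d t ≤ ((d : ℝ) - 1) * Real.log s.D + lv s i 1 t := by
  induction d, hd using Nat.le_induction with
  | base => simp
  | succ n hn ih =>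
    have h1 := ih (by omega)
    have h2 := h.v_up i n t (by omega) (by omega) ht
    push_cast
    nlinarith

/-- degrees in a tree -/
theorem dg_eq {n : ℕ} (G : SimpleGraph (Fin n)) (v : Fin n) : dg G v = G.degree v := by
  unfold dg
  rw [← SimpleGraph.card_neighborFinset_eq_degree]
  congr 1
  ext w; simp

theorem tree_sum {n : ℕ} {G : SimpleGraph (Fin n)} (hG : G.IsTree) :
    ∑ v, dg G v + 2 = 2 * n := by
  have h1 := G.sum_degrees_eq_twice_card_edges
  have h2 := hG.card_edgeFinset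
  simp only [dg_eq]
  rw [h1]
  rw [Fintype.card_fin] at h2
  omega

theorem tree_deg_pos {n : ℕ} {G : SimpleGraph (Fin n)} (hG : G.IsTree) (hn : 2 ≤ n) (v : Fin n) :
    1 ≤ dg G v := by
  rw [dg_eq]
  haveI : Nontrivial (Fin n) := Fin.nontrivial_iff_two_le.2 hn
  exact hG.connected.preconnected.degree_pos_of_nontrivial v

end Pool.Agent.TH326.JB
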