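import Mathlib

set_option autoImplicit false

namespace Pool.Agent.TH326.L1

open scoped BigOperators

variable {E : Type} [NormedAddCommGroup E] [NormedSpace ℝ E]

/-- real-constant Lipschitz condition -/
def RL (K : ℝ) (f : E → ℝ) : Prop := ∀ x y, |f x - f y| ≤ K * ‖x - y‖

/-- pairing of a finitely supported measure with a function, normalised at zero -/
def M (μ : E →₀ ℝ) (g : E → ℝ) : ℝ := μ.sum fun x c => c * (g x - g 0)

omit [NormedSpace ℝ E] in
theorem M_eq (μ : E →₀ ℝ) (g : E → ℝ) : M μ g = ∑ x ∈ μ.support, μ x * (g x - g 0) := rfl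

omit [NormedSpace ℝ E] in
theorem M_add (μ : E →₀ ℝ) (g h : E → ℝ) : M μ (g + h) = M μ g + M μ h := by
  simp only [M_eq, Pi.add_apply, ← Finset.sum_add_distrib]
  exact Finset.sum_congr rfl fun x _ => by ring

omit [NormedSpace ℝ E] in
theorem M_sub (μ : E →₀ ℝ) (g h : E → ℝ) : M μ (g - h) = M μ g - M μ h := by
  simp only [M_eq, Pi.sub_apply, ← Finset.sum_sub_distrib]
  exact Finset.sum_congr rfl fun x _ => by ring

omit [NormedSpace ℝ E] in
theorem M_smul (μ : E →₀ ℝ) (c : ℝ) (g : E → ℝ) : M μ (c • g) = c * M μ g := by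
  simp only [M_eq, Pi.smul_apply, smul_eq_mul, Finset.mul_sum]
  exact Finset.sum_congr rfl fun x _ => by ring

omit [NormedSpace ℝ E] in
theorem M_neg (μ : E →₀ ℝ) (g : E → ℝ) : M μ (-g) = - M μ g := by
  have := M_smul μ (-1) g
  simpa using this

omit [NormedSpace ℝ E] in
theorem M_zero (μ : E →₀ ℝ) : M μ (0 : E → ℝ) = 0 := by
  simp [M_eq]

omit [NormedSpace ℝ E] in
theorem M_congr (μ : E →₀ ℝ) {g h : E → ℝ} (h0 : g 0 = h 0) (H : ∀ x ∈ μ.support, g x = h x) :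
    M μ g = M μ h := by
  simp only [M_eq]
  exact Finset.sum_congr rfl fun x hx => by rw [H x hx, h0]

omit [NormedSpace ℝ E] in
theorem M_sum {ι : Type} (μ : E →₀ ℝ) (s : Finset ι) (g : ι → E → ℝ) :
    M μ (∑ i ∈ s, g i) = ∑ i ∈ s, M μ (g i) := by
  classical
  induction s using Finset.induction_on with
  | empty => simp [M_zero]
  | insert a s ha ih => rw [Finset.sum_insert ha, Finset.sum_insert ha, M_add, ih]

omit [NormedSpace ℝ E] in
/-- quantitative closeness -/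
theorem M_close (μ : E →₀ ℝ) {g h : E → ℝ} {η : ℝ} (h0 : |g 0 - h 0| ≤ η)
    (H : ∀ x ∈ μ.support, |g x - h x| ≤ η) :
    |M μ g - M μ h| ≤ (∑ x ∈ μ.support, |μ x|) * (2 * η) := by
  simp only [M_eq, ← Finset.sum_sub_distrib]
  refine (Finset.abs_sum_le_sum_abs _ _).trans ?_
  rw [Finset.sum_mul]
  refine Finset.sum_le_sum fun x hx => ?_
  have e : μ x * (g x - g 0) - μ x * (h x - h 0) = μ x * ((g x - h x) - (g 0 - h 0)) := by ring
  rw [e, abs_mul]
  refine mul_le_mul_of_nonneg_left ?_ (abs_nonneg _)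
  refine (abs_sub _ _).trans ?_
  linarith [H x hx]

/-- signed sums -/
def Phi (μ : ℕ → E →₀ ℝ) (θ : ℕ →₀ ℝ) (g : E → ℝ) : ℝ := θ.sum fun j s => s * M (μ j) g

omit [NormedSpace ℝ E] in
theorem Phi_add_left (μ : ℕ → E →₀ ℝ) (θ θ' : ℕ →₀ ℝ) (g : E → ℝ) :
    Phi μ (θ + θ') g = Phi μ θ g + Phi μ θ' g := by
  unfold Phi
  refine Finsupp.sum_add_index' (fun _ => by ring) (fun _ _ _ => by ring)

omit [NormedSpace ℝ E] in
theorem Phi_smul_left (μ : ℕ → E →₀ ℝ) (c : ℝ) (θ : ℕ →₀ ℝ) (g : E → ℝ) :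
    Phi μ (c • θ) g = c * Phi μ θ g := by
  unfold Phi
  rw [Finsupp.sum_smul_index (fun _ => by ring), Finsupp.mul_sum]
  exact Finsupp.sum_congr fun _ _ => by ring

omit [NormedSpace ℝ E] in
theorem Phi_single (μ : ℕ → E →₀ ℝ) (j : ℕ) (s : ℝ) (g : E → ℝ) :
    Phi μ (Finsupp.single j s) g = s * M (μ j) g := by
  unfold Phi
  rw [Finsupp.sum_single_index (by ring)]

omit [NormedSpace ℝ E] in
theorem Phi_add_right (μ : ℕ → E →₀ ℝ) (θ : ℕ →₀ ℝ) (g h : E → ℝ) :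
    Phi μ θ (g + h) = Phi μ θ g + Phi μ θ h := by
  unfold Phi
  rw [← Finsupp.sum_add]
  exact Finsupp.sum_congr fun _ _ => by rw [M_add]; ring

omit [NormedSpace ℝ E] in
theorem Phi_smul_right (μ : ℕ → E →₀ ℝ) (c : ℝ) (θ : ℕ →₀ ℝ) (g : E → ℝ) :
    Phi μ θ (c • g) = c * Phi μ θ g := by
  unfold Phi
  rw [Finsupp.mul_sum]
  exact Finsupp.sum_congr fun _ _ => by rw [M_smul]; ring

omit [NormedSpace ℝ E] in
theorem Phi_zero_left (μ : ℕ → E →₀ ℝ) (g : E → ℝ) : Phi μ 0 g = 0 := by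
  simp [Phi]

/-- weakly unconditionally Cauchy with constant `b` -/
def WUC (μ : ℕ → E →₀ ℝ) (b : ℝ) : Prop :=
  ∀ θ : ℕ →₀ ℝ, (∀ j, |θ j| ≤ 1) → ∀ (g : E → ℝ) (K : ℝ), 0 ≤ K → RL K g → Phi μ θ g ≤ b * K

omit [NormedSpace ℝ E] in
theorem RL.neg {K : ℝ} {f : E → ℝ} (h : RL K f) : RL K (-f) := by
  intro x y
  have := h x y
  simp only [Pi.neg_apply]
  rw [show -f x - -f y = -(f x - f y) by ring, abs_neg]
  exact this

omit [NormedSpace ℝ E] in
theorem RL.mono {K K' : ℝ} {f : E → ℝ} (h : RL K f) (hK : K ≤ K') : RL K' f := fun x y =>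
  (h x y).trans (mul_le_mul_of_nonneg_right hK (norm_nonneg _))

omit [NormedSpace ℝ E] in
theorem RL.add {K K' : ℝ} {f g : E → ℝ} (h : RL K f) (h' : RL K' g) : RL (K + K') (f + g) := by
  intro x y
  have h1 := h x y
  have h2 := h' x y
  simp only [Pi.add_apply]
  calc |f x + g x - (f y + g y)| = |(f x - f y) + (g x - g y)| := by ring_nf
    _ ≤ |f x - f y| + |g x - g y| := abs_add_le _ _
    _ ≤ K * ‖x - y‖ + K' * ‖x - y‖ := add_le_add h1 h2
    _ = (K + K') * ‖x - y‖ := by ring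

omit [NormedSpace ℝ E] in
theorem RL.sub {K K' : ℝ} {f g : E → ℝ} (h : RL K f) (h' : RL K' g) : RL (K + K') (f - g) := by
  rw [sub_eq_add_neg]
  exact h.add h'.neg

omit [NormedSpace ℝ E] in
theorem RL.smul {K : ℝ} {f : E → ℝ} (c : ℝ) (h : RL K f) : RL (|c| * K) (c • f) := by
  intro x y
  simp only [Pi.smul_apply, smul_eq_mul]
  rw [← mul_sub, abs_mul, mul_assoc]
  exact mul_le_mul_of_nonneg_left (h x y) (abs_nonneg _)

omit [NormedSpace ℝ E] in
theorem RL.max {K : ℝ} {f g : E → ℝ} (h : RL K f) (h' : RL K g) :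
    RL K (fun x => max (f x) (g x)) := fun x y =>
  (abs_max_sub_max_le_max _ _ _ _).trans (max_le (h x y) (h' x y))

omit [NormedSpace ℝ E] in
theorem RL.min {K : ℝ} {f g : E → ℝ} (h : RL K f) (h' : RL K g) :
    RL K (fun x => min (f x) (g x)) := fun x y =>
  (abs_min_sub_min_le_max _ _ _ _).trans (max_le (h x y) (h' x y))

omit [NormedSpace ℝ E] in
theorem RL.zero {K : ℝ} (hK : 0 ≤ K) : RL K (0 : E → ℝ) := by
  intro x y; simp; positivity

omit [NormedSpace ℝ E] in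
theorem RL.const {K : ℝ} (hK : 0 ≤ K) (c : ℝ) : RL K (fun _ : E => c) := by
  intro x y; simp; positivity

omit [NormedSpace ℝ E] in
theorem RL.mul {K K' A B : ℝ} {f g : E → ℝ} (h : RL K f) (h' : RL K' g)
    (hA : ∀ x, |f x| ≤ A) (hB : ∀ x, |g x| ≤ B) : RL (K * B + A * K') (f * g) := by
  intro x y
  simp only [Pi.mul_apply]
  have h1 := h x y
  have h2 := h' x y
  have hA0 : 0 ≤ A := (abs_nonneg _).trans (hA 0)
  have hB0 : 0 ≤ B := (abs_nonneg _).trans (hB 0)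
  calc |f x * g x - f y * g y| = |(f x - f y) * g x + f y * (g x - g y)| := by ring_nf
    _ ≤ |(f x - f y) * g x| + |f y * (g x - g y)| := abs_add_le _ _
    _ = |f x - f y| * |g x| + |f y| * |g x - g y| := by rw [abs_mul, abs_mul]
    _ ≤ (K * ‖x - y‖) * B + A * (K' * ‖x - y‖) := by
        refine add_le_add ?_ ?_
        · exact mul_le_mul h1 (hB x) (abs_nonneg _) ((abs_nonneg _).trans h1)
        · exact mul_le_mul (hA y) h2 (abs_nonneg _) hA0
    _ = (K * B + A * K') * ‖x - y‖ := by ring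

omit [NormedSpace ℝ E] in
theorem WUC.single {μ : ℕ → E →₀ ℝ} {b : ℝ} (hW : WUC μ b) (j : ℕ) {g : E → ℝ} {K : ℝ}
    (hK : 0 ≤ K) (hg : RL K g) : |M (μ j) g| ≤ b * K := by
  rw [abs_le]
  have h1 := hW (Finsupp.single j 1) (fun i => by
    rw [Finsupp.single_apply]; split_ifs <;> simp) g K hK hg
  have h2 := hW (Finsupp.single j (-1)) (fun i => by
    rw [Finsupp.single_apply]; split_ifs <;> simp) g K hK hg
  rw [Phi_single] at h1 h2
  constructor <;> linarith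

omit [NormedSpace ℝ E] in
/-- Greedy lemma. -/
theorem greedy {μ : ℕ → E →₀ ℝ} {b C δ : ℝ} (hW : WUC μ b) (hδ : 0 < δ) (hC : 0 ≤ C)
    (Q : (E → ℝ) → Prop) (h0 : Q 0) (hLip : ∀ G, Q G → RL C G)
    (hstep : ∀ G, Q G → ∀ n : ℕ, ∃ j, n ≤ j ∧ ∃ h, δ ≤ M (μ j) h ∧ Q (G + h) ∧ Q (G - h)) :
    False := by
  have key : ∀ K : ℕ, ∃ (G : E → ℝ) (θ : ℕ →₀ ℝ) (n : ℕ), Q G ∧ (∀ j, |θ j| ≤ 1) ∧
      (∀ j, n ≤ j → θ j = 0) ∧ (K : ℝ) * δ ≤ Phi μ θ G := by
    intro K
    induction K with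
    | zero => exact ⟨0, 0, 0, h0, by simp, by simp, by simp [Phi_zero_left]⟩
    | succ K ih =>
      obtain ⟨G, θ, n, hG, hθ, hn, hK⟩ := ih
      obtain ⟨j, hj, h, hh, hp, hm⟩ := hstep G hG n
      have habs : ∀ σ : ℝ, |σ| ≤ 1 → ∀ i, |(θ + σ • Finsupp.single j (1:ℝ)) i| ≤ 1 := by
        intro σ hσ i
        simp only [Finsupp.add_apply, Finsupp.smul_apply, smul_eq_mul, Finsupp.single_apply]
        by_cases hij : j = i
        · subst hij
          simp [hn j hj, hσ]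
        · simp [hij, hθ i]
      have hsup : ∀ σ : ℝ, ∀ i, j + 1 ≤ i → (θ + σ • Finsupp.single j (1:ℝ)) i = 0 := by
        intro σ i hi
        simp only [Finsupp.add_apply, Finsupp.smul_apply, smul_eq_mul, Finsupp.single_apply]
        rw [hn i (by omega), if_neg (by omega)]
        simp
      by_cases hs : 0 ≤ Phi μ θ h + M (μ j) G
      · refine ⟨G + h, θ + (1:ℝ) • Finsupp.single j (1:ℝ), j + 1, hp, habs 1 (by simp), hsup 1, ?_⟩
        rw [Phi_add_left, Phi_smul_left, Phi_add_right, Phi_add_right, Phi_single, Phi_single]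
        push_cast
        linarith
      · refine ⟨G - h, θ + (-1:ℝ) • Finsupp.single j (1:ℝ), j + 1, hm, habs (-1) (by simp),
          hsup (-1), ?_⟩
        rw [sub_eq_add_neg, ← neg_one_smul ℝ h, Phi_add_left, Phi_smul_left, Phi_add_right,
          Phi_add_right, Phi_single, Phi_single, Phi_smul_right, M_smul]
        push_cast
        linarith
  obtain ⟨K, hK⟩ := exists_nat_gt (b * C / δ)
  obtain ⟨G, θ, n, hG, hθ, hn, hKδ⟩ := key K
  have h1 := hW θ hθ G C hC (hLip G hG)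
  rw [div_lt_iff₀ hδ] at hK
  linarith

end Pool.Agent.TH326.L1
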