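import Pool.Agent.TH326.L1a

set_option autoImplicit false

namespace Pool.Agent.TH326.L1

open scoped BigOperators

variable {E : Type} [NormedAddCommGroup E] [NormedSpace ℝ E]

/-- clamp -/
def cl (u t : ℝ) : ℝ := max (min t u) (-u)

theorem cl_of_abs_le {u t : ℝ} (h : |t| ≤ u) : cl u t = t := by
  rw [abs_le] at h
  unfold cl
  rw [min_eq_left h.2, max_eq_left h.1]

theorem abs_cl_le {u : ℝ} (t : ℝ) (hu : 0 ≤ u) : |cl u t| ≤ u := by
  unfold cl
  rw [abs_le]
  exact ⟨le_max_right _ _, max_le (min_le_right _ _) (by linarith)⟩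

theorem abs_cl_le_abs {u : ℝ} (t : ℝ) (hu : 0 ≤ u) : |cl u t| ≤ |t| := by
  by_cases h : |t| ≤ u
  · rw [cl_of_abs_le h]
  · exact (abs_cl_le t hu).trans (le_of_lt (not_le.mp h))

theorem abs_sub_cl {u : ℝ} (t : ℝ) (hu : 0 ≤ u) : |t - cl u t| ≤ max (|t| - u) 0 := by
  unfold cl
  rcases le_total 0 t with ht | ht
  · rw [abs_of_nonneg ht]
    rcases le_total t u with h | h
    · rw [min_eq_left h, max_eq_left (by linarith)]
      simp
    · rw [min_eq_right h, max_eq_left (by linarith), abs_of_nonneg (by linarith)]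
      exact le_max_left _ _
  · rw [abs_of_nonpos ht]
    rcases le_total (-t) u with h | h
    · rw [min_eq_left (by linarith), max_eq_left (by linarith)]
      simp
    · rw [min_eq_left (by linarith), max_eq_right (by linarith), abs_of_nonpos (by linarith)]
      refine le_trans ?_ (le_max_left _ _)
      linarith

omit [NormedSpace ℝ E] in
theorem RL.cl {K : ℝ} {f u : E → ℝ} (h : RL K f) (h' : RL K u) :
    RL K (fun x => cl (u x) (f x)) := by
  have := (h.min h').max h'.neg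
  exact this

omit [NormedSpace ℝ E] in
theorem RL_norm : RL 1 (fun x : E => ‖x‖) := by
  intro x y
  simpa using abs_norm_sub_norm_le x y

omit [NormedSpace ℝ E] in
theorem RL_tent (ρ : ℝ) : RL 1 (fun x : E => max (ρ - ‖x‖) 0) := by
  have h1 : RL 1 (fun x : E => ρ - ‖x‖) := by
    intro x y
    have := abs_norm_sub_norm_le y x
    rw [norm_sub_rev] at this
    simpa using this
  exact h1.max (RL.const zero_le_one 0)

omit [NormedSpace ℝ E] in
theorem exists_radius (μ : E →₀ ℝ) : ∃ R : ℝ, 0 ≤ R ∧ ∀ x ∈ μ.support, ‖x‖ ≤ R :=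
  ⟨∑ x ∈ μ.support, ‖x‖, Finset.sum_nonneg fun _ _ => norm_nonneg _, fun _ hx =>
    Finset.single_le_sum (f := fun x => ‖x‖) (fun _ _ => norm_nonneg _) hx⟩

omit [NormedSpace ℝ E] in
theorem tight1_aux {G h : E → ℝ} {ρ ρ' : ℝ} (hρ : ρ ≤ ρ') (hG : RL 1 G) (hh : RL 1 h)
    (hGρ : ∀ x, |G x| ≤ max (ρ - ‖x‖) 0) (hhρ : ∀ x, |h x| ≤ max (‖x‖ - ρ) 0)
    (hh' : ∀ x, |h x| ≤ max (ρ' - ‖x‖) 0) :
    RL 1 (G + h) ∧ ∀ x, |(G + h) x| ≤ max (ρ' - ‖x‖) 0 := by
  have hG0 : ∀ x, ρ ≤ ‖x‖ → G x = 0 := by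
    intro x hx
    have := hGρ x
    rw [max_eq_right (by linarith)] at this
    exact abs_eq_zero.mp (le_antisymm this (abs_nonneg _))
  have hh0 : ∀ x, ‖x‖ ≤ ρ → h x = 0 := by
    intro x hx
    have := hhρ x
    rw [max_eq_right (by linarith)] at this
    exact abs_eq_zero.mp (le_antisymm this (abs_nonneg _))
  have mixed : ∀ x y : E, ‖x‖ ≤ ρ → ρ ≤ ‖y‖ → |G x| + |h y| ≤ ‖x - y‖ := by
    intro x y hx hy
    have h1 := hGρ x
    have h2 := hhρ y
    rw [max_eq_left (by linarith)] at h1 h2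
    have h3 := norm_sub_norm_le y x
    rw [norm_sub_rev] at h3
    linarith
  refine ⟨?_, ?_⟩
  · intro x y
    simp only [Pi.add_apply]
    rcases le_total ‖x‖ ρ with hx | hx <;> rcases le_total ‖y‖ ρ with hy | hy
    · rw [hh0 x hx, hh0 y hy, add_zero, add_zero]; exact hG x y
    · rw [hh0 x hx, hG0 y hy, add_zero, zero_add, one_mul]
      exact (abs_sub _ _).trans (mixed x y hx hy)
    · rw [hG0 x hx, hh0 y hy, add_zero, zero_add, one_mul]
      have := mixed y x hy hx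
      rw [norm_sub_rev] at this
      refine (abs_sub _ _).trans ?_
      linarith
    · rw [hG0 x hx, hG0 y hy, zero_add, zero_add]; exact hh x y
  · intro x
    simp only [Pi.add_apply]
    rcases le_total ‖x‖ ρ with hx | hx
    · rw [hh0 x hx, add_zero]
      exact (hGρ x).trans (max_le_max (by linarith) le_rfl)
    · rw [hG0 x hx, zero_add]
      exact hh' x

omit [NormedSpace ℝ E] in
/-- uniform tightness at infinity -/
theorem tight1 {μ : ℕ → E →₀ ℝ} {b : ℝ} (hW : WUC μ b) {δ : ℝ} (hδ : 0 < δ) :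
    ∃ ρ : ℝ, 0 ≤ ρ ∧ ∃ p : ℕ, ∀ j, p ≤ j → ∀ f : E → ℝ, RL 1 f →
      (∀ x, |f x| ≤ max (‖x‖ - ρ) 0) → M (μ j) f ≤ δ := by
  by_contra hcon
  push Not at hcon
  refine greedy hW hδ zero_le_one (fun G => RL 1 G ∧ ∃ ρ : ℝ, 0 ≤ ρ ∧
    ∀ x, |G x| ≤ max (ρ - ‖x‖) 0) ⟨RL.zero zero_le_one, 0, le_rfl, fun x => by simp⟩
    (fun G hG => hG.1) ?_
  rintro G ⟨hG, ρ, hρ, hGρ⟩ n
  obtain ⟨j, hj, f, hf, hfρ, hfM⟩ := hcon ρ hρ n
  obtain ⟨R, hR, hRx⟩ := exists_radius (μ j)
  set ρ' : ℝ := max ρ (2 * R) with hρ'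
  have hρρ' : ρ ≤ ρ' := le_max_left _ _
  have h2R : 2 * R ≤ ρ' := le_max_right _ _
  set u : E → ℝ := fun x => max (ρ' - ‖x‖) 0 with hu
  have hu0 : ∀ x, 0 ≤ u x := fun x => le_max_right _ _
  set h : E → ℝ := fun x => cl (u x) (f x) with hh
  have hh1 : RL 1 h := hf.cl (RL_tent ρ')
  have hf0 : f 0 = 0 := by
    have := hfρ 0
    rw [norm_zero, max_eq_right (by linarith)] at this
    exact abs_eq_zero.mp (le_antisymm this (abs_nonneg _))
  have hfn : ∀ x, |f x| ≤ ‖x‖ := by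
    intro x
    have := hf x 0
    rwa [hf0, sub_zero, sub_zero, one_mul] at this
  have hMh : M (μ j) h = M (μ j) f := by
    refine M_congr _ ?_ fun x hx => ?_
    · simp only [hh]
      refine cl_of_abs_le ?_
      rw [hf0, abs_zero]
      exact hu0 0
    · simp only [hh]
      refine cl_of_abs_le ?_
      refine (hfn x).trans ?_
      simp only [hu]
      refine le_trans ?_ (le_max_left _ _)
      have := hRx x hx
      linarith
  have hhρ : ∀ x, |h x| ≤ max (‖x‖ - ρ) 0 := fun x =>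
    (abs_cl_le_abs _ (hu0 x)).trans (hfρ x)
  have hh' : ∀ x, |h x| ≤ max (ρ' - ‖x‖) 0 := fun x => abs_cl_le _ (hu0 x)
  refine ⟨j, hj, h, ?_, ?_, ?_⟩
  · rw [hMh]; exact le_of_lt hfM
  · obtain ⟨h1, h2⟩ := tight1_aux hρρ' hG hh1 hGρ hhρ hh'
    exact ⟨h1, ρ', hρ.trans hρρ', h2⟩
  · obtain ⟨h1, h2⟩ := tight1_aux (h := -h) hρρ' hG hh1.neg hGρ
      (fun x => by rw [Pi.neg_apply, abs_neg]; exact hhρ x)
      (fun x => by rw [Pi.neg_apply, abs_neg]; exact hh' x)
    rw [sub_eq_add_neg]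
    exact ⟨h1, ρ', hρ.trans hρρ', h2⟩

omit [NormedSpace ℝ E] in
theorem tight2_aux {G h : E → ℝ} {R κ C : ℝ} {A A' : Finset E} (hR : 0 < R) (hκ : 0 < κ)
    (hC : 4 * R / κ ≤ C)
    (hG : RL C G) (hh : RL C h) (hGR : ∀ x, |G x| ≤ R) (hhR : ∀ x, |h x| ≤ R)
    (hGA : ∀ x, G x ≠ 0 → ∃ y ∈ A, ‖x - y‖ ≤ κ / 4)
    (hhA : ∀ x, h x ≠ 0 → ∀ y ∈ A, κ < ‖x - y‖)
    (hhA' : ∀ x, h x ≠ 0 → ∃ y ∈ A', ‖x - y‖ ≤ κ / 4) [DecidableEq E] :
    RL C (G + h) ∧ (∀ x, |(G + h) x| ≤ R) ∧
      ∀ x, (G + h) x ≠ 0 → ∃ y ∈ A ∪ A', ‖x - y‖ ≤ κ / 4 := by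
  have hdisj : ∀ x, G x ≠ 0 → h x = 0 := by
    intro x hx
    by_contra hne
    obtain ⟨y, hy, hxy⟩ := hGA x hx
    have := hhA x hne y hy
    linarith
  have hC0 : 0 ≤ C := le_trans (by positivity) hC
  have far : ∀ x y, G x ≠ 0 → h y ≠ 0 → |G x| + |h y| ≤ C * ‖x - y‖ := by
    intro x y hx hy
    obtain ⟨z, hz, hxz⟩ := hGA x hx
    have h1 := hhA y hy z hz
    have h2 : ‖y - z‖ ≤ ‖y - x‖ + ‖x - z‖ := norm_sub_le_norm_sub_add_norm_sub _ _ _
    rw [norm_sub_rev y x] at h2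
    have h3 : 3 * κ / 4 ≤ ‖x - y‖ := by linarith
    have h4 : 4 * R / κ * (3 * κ / 4) ≤ C * ‖x - y‖ :=
      mul_le_mul hC h3 (by positivity) hC0
    have h5 : 4 * R / κ * (3 * κ / 4) = 3 * R := by field_simp
    have := hGR x
    have := hhR y
    linarith
  refine ⟨?_, ?_, ?_⟩
  · intro x y
    simp only [Pi.add_apply]
    by_cases hx : G x = 0
    · by_cases hy : G y = 0
      · rw [hx, hy, zero_add, zero_add]; exact hh x y
      · rw [hx, hdisj y hy, zero_add, add_zero]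
        by_cases hhx : h x = 0
        · have := hG x y
          rw [hhx]
          rwa [hx] at this
        · have := far y x hy hhx
          rw [norm_sub_rev] at this
          refine (abs_sub _ _).trans ?_
          linarith
    · rw [hdisj x hx, add_zero]
      by_cases hhy : h y = 0
      · rw [hhy, add_zero]; exact hG x y
      · have hy : G y = 0 := by
          by_contra hne
          exact hhy (hdisj y hne)
        rw [hy, zero_add]
        exact (abs_sub _ _).trans (far x y hx hhy)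
  · intro x
    simp only [Pi.add_apply]
    by_cases hx : G x = 0
    · rw [hx, zero_add]; exact hhR x
    · rw [hdisj x hx, add_zero]; exact hGR x
  · intro x hx
    by_cases hGx : G x = 0
    · have : h x ≠ 0 := by
        intro h0; apply hx; simp [hGx, h0]
      obtain ⟨y, hy, hxy⟩ := hhA' x this
      exact ⟨y, Finset.mem_union_right _ hy, hxy⟩
    · obtain ⟨y, hy, hxy⟩ := hGA x hGx
      exact ⟨y, Finset.mem_union_left _ hy, hxy⟩

omit [NormedSpace ℝ E] in
/-- uniform tightness: bounded functions vanishing near a finite set -/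
theorem tight2 {μ : ℕ → E →₀ ℝ} {b : ℝ} (hW : WUC μ b) {R κ δ : ℝ} (hR : 0 < R) (hκ : 0 < κ)
    (hδ : 0 < δ) :
    ∃ K : Finset E, ∃ p : ℕ, ∀ j, p ≤ j → ∀ f : E → ℝ, RL 1 f →
      (∀ x, |f x| ≤ R) → (∀ x, ∀ y ∈ K, ‖x - y‖ ≤ κ → f x = 0) → M (μ j) f ≤ δ := by
  classical
  by_contra hcon
  push Not at hcon
  set C : ℝ := 1 + 4 * R / κ with hCdef
  have hRκ : 0 ≤ 4 * R / κ := by positivity
  have hC1 : 1 ≤ C := by linarith
  refine greedy hW hδ (by linarith : (0:ℝ) ≤ C) (fun G => RL C G ∧ (∀ x, |G x| ≤ R) ∧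
    ∃ A : Finset E, ∀ x, G x ≠ 0 → ∃ y ∈ A, ‖x - y‖ ≤ κ / 4)
    ⟨RL.zero (by linarith), fun x => by simp [hR.le], ∅, fun x hx => absurd rfl hx⟩
    (fun G hG => hG.1) ?_
  rintro G ⟨hG, hGR, A, hGA⟩ n
  obtain ⟨j, hj, f, hf, hfR, hfA, hfM⟩ := hcon (insert 0 A) n
  set S : Finset E := insert 0 (μ j).support with hS
  have hSne : (S : Set E).Nonempty := ⟨0, by simp [hS]⟩
  set u : E → ℝ := fun x => max (R - 4 * R / κ * Metric.infDist x (S : Set E)) 0 with hu
  have hu0 : ∀ x, 0 ≤ u x := fun x => le_max_right _ _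
  have huL : RL C u := by
    have h1 : RL C (fun x : E => R - 4 * R / κ * Metric.infDist x (S : Set E)) := by
      intro x y
      have h2 := (Metric.lipschitz_infDist_pt (S : Set E)).dist_le_mul x y
      rw [NNReal.coe_one, one_mul, Real.dist_eq, dist_eq_norm] at h2
      calc |R - 4 * R / κ * Metric.infDist x (S : Set E) -
              (R - 4 * R / κ * Metric.infDist y (S : Set E))|
          = |-(4 * R / κ * (Metric.infDist x (S : Set E) - Metric.infDist y (S : Set E)))| := by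
            ring_nf
        _ = 4 * R / κ * |Metric.infDist x (S : Set E) - Metric.infDist y (S : Set E)| := by
            rw [abs_neg, abs_mul, abs_of_nonneg hRκ]
        _ ≤ 4 * R / κ * ‖x - y‖ := mul_le_mul_of_nonneg_left h2 hRκ
        _ ≤ C * ‖x - y‖ := mul_le_mul_of_nonneg_right (by linarith) (norm_nonneg _)
    exact h1.max (RL.const (by linarith) 0)
  set h : E → ℝ := fun x => cl (u x) (f x) with hh
  have hhL : RL C h := (hf.mono hC1).cl huL
  have hhS : ∀ x ∈ S, h x = f x := by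
    intro x hx
    simp only [hh]
    refine cl_of_abs_le ?_
    have : u x = R := by
      simp only [hu]
      rw [Metric.infDist_zero_of_mem (by exact_mod_cast hx), mul_zero, sub_zero,
        max_eq_left hR.le]
    rw [this]; exact hfR x
  have hMh : M (μ j) h = M (μ j) f := by
    refine M_congr _ (hhS 0 (by simp [hS])) fun x hx => hhS x (by simp [hS, hx])
  have hhR : ∀ x, |h x| ≤ R := fun x => (abs_cl_le_abs _ (hu0 x)).trans (hfR x)
  have hhf : ∀ x, h x ≠ 0 → f x ≠ 0 := by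
    intro x hx h0
    apply hx
    have := abs_cl_le_abs (f x) (hu0 x)
    rw [h0, abs_zero] at this
    simp only [hh]
    rw [h0]
    exact abs_eq_zero.mp (le_antisymm this (abs_nonneg _))
  have hhA : ∀ x, h x ≠ 0 → ∀ y ∈ A, κ < ‖x - y‖ := by
    intro x hx y hy
    by_contra hle
    exact hhf x hx (hfA x y (Finset.mem_insert_of_mem hy) (not_lt.mp hle))
  have hhA' : ∀ x, h x ≠ 0 → ∃ y ∈ S, ‖x - y‖ ≤ κ / 4 := by
    intro x hx
    have hux : u x ≠ 0 := by
      intro h0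
      apply hx
      have := abs_cl_le (f x) (hu0 x)
      rw [h0] at this
      simp only [hh]
      rw [h0]
      exact abs_eq_zero.mp (le_antisymm this (abs_nonneg _))
    have hpos : 0 < R - 4 * R / κ * Metric.infDist x (S : Set E) := by
      by_contra hle
      apply hux
      simp only [hu]
      rw [max_eq_right (not_lt.mp hle)]
    have hlt : Metric.infDist x (S : Set E) < κ / 4 := by
      by_contra hle
      have h1 := mul_le_mul_of_nonneg_left (not_lt.mp hle) hRκ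
      have h2 : 4 * R / κ * (κ / 4) = R := by field_simp
      linarith
    obtain ⟨y, hy, hxy⟩ := (Metric.infDist_lt_iff hSne).mp hlt
    refine ⟨y, by exact_mod_cast hy, ?_⟩
    rw [dist_eq_norm] at hxy
    exact hxy.le
  refine ⟨j, hj, h, ?_, ?_, ?_⟩
  · rw [hMh]; exact hfM.le
  · obtain ⟨h1, h2, h3⟩ := tight2_aux hR hκ (by linarith) hG hhL hGR hhR hGA hhA hhA'
    exact ⟨h1, h2, _, h3⟩
  · obtain ⟨h1, h2, h3⟩ := tight2_aux (h := -h) hR hκ (by linarith) hG hhL.neg hGR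
      (fun x => by rw [Pi.neg_apply, abs_neg]; exact hhR x) hGA
      (fun x hx => hhA x (by simpa using hx)) (fun x hx => hhA' x (by simpa using hx))
    rw [sub_eq_add_neg]
    exact ⟨h1, h2, _, h3⟩

omit [NormedSpace ℝ E] in
theorem decay {μ : ℕ → E →₀ ℝ} {b : ℝ} (hW : WUC μ b) {q : E → ℝ} {K : ℝ} (hK : 0 ≤ K)
    (hq : RL K q) {δ : ℝ} (hδ : 0 < δ) : ∃ p : ℕ, ∀ j, p ≤ j → |M (μ j) q| ≤ δ := by
  by_contra hcon
  push Not at hcon
  have key : ∀ k : ℕ, ∃ (θ : ℕ →₀ ℝ) (n : ℕ), (∀ j, |θ j| ≤ 1) ∧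
      (∀ j, n ≤ j → θ j = 0) ∧ (k : ℝ) * δ ≤ Phi μ θ q := by
    intro k
    induction k with
    | zero => exact ⟨0, 0, by simp, by simp, by simp [Phi_zero_left]⟩
    | succ k ih =>
      obtain ⟨θ, n, hθ, hn, hk⟩ := ih
      obtain ⟨j, hj, hjq⟩ := hcon n
      have habs : ∀ σ : ℝ, |σ| ≤ 1 → ∀ i, |(θ + σ • Finsupp.single j (1:ℝ)) i| ≤ 1 := by
        intro σ hσ i
        simp only [Finsupp.add_apply, Finsupp.smul_apply, smul_eq_mul, Finsupp.single_apply]
        by_cases hij : j = i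
        · subst hij
          simp [hn j hj, hσ]
        · simp [hij, hθ i]
      have hsup : ∀ σ : ℝ, ∀ i, j + 1 ≤ i → (θ + σ • Finsupp.single j (1:ℝ)) i = 0 := by
        intro σ i hi
        simp only [Finsupp.add_apply, Finsupp.smul_apply, smul_eq_mul, Finsupp.single_apply]
        rw [hn i (by omega), if_neg (by omega)]
        simp
      rcases le_total 0 (M (μ j) q) with hs | hs
      · refine ⟨θ + (1:ℝ) • Finsupp.single j (1:ℝ), j + 1, habs 1 (by simp), hsup 1, ?_⟩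
        rw [Phi_add_left, Phi_smul_left, Phi_single]
        rw [abs_of_nonneg hs] at hjq
        push_cast
        linarith
      · refine ⟨θ + (-1:ℝ) • Finsupp.single j (1:ℝ), j + 1, habs (-1) (by simp),
          hsup (-1), ?_⟩
        rw [Phi_add_left, Phi_smul_left, Phi_single]
        rw [abs_of_nonpos hs] at hjq
        push_cast
        linarith
  obtain ⟨k, hk⟩ := exists_nat_gt (b * K / δ)
  obtain ⟨θ, n, hθ, hn, hkδ⟩ := key k
  have h1 := hW θ hθ q K hK hq
  rw [div_lt_iff₀ hδ] at hk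
  linarith

omit [NormedSpace ℝ E] in
theorem net (K : Finset E) (R : ℝ) {κ : ℝ} (hκ : 0 < κ) :
    ∃ T : Set (E → ℝ), T.Finite ∧ (∀ q ∈ T, RL 1 q ∧ ∀ x, |q x| ≤ R) ∧
      ∀ f : E → ℝ, RL 1 f → (∀ x, |f x| ≤ R) → ∃ q ∈ T, ∀ x ∈ K, |f x - q x| ≤ κ := by
  classical
  set s : Set (K → ℝ) := {v | ∃ f : E → ℝ, RL 1 f ∧ (∀ x, |f x| ≤ R) ∧ v = fun x : K => f x.1} with hs
  have hsub : s ⊆ Metric.closedBall 0 (|R|) := by
    rintro v ⟨f, hf, hfR, rfl⟩
    rw [mem_closedBall_zero_iff, pi_norm_le_iff_of_nonneg (abs_nonneg _)]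
    intro x
    rw [Real.norm_eq_abs]
    exact (hfR x).trans (le_abs_self _)
  have htb : TotallyBounded s :=
    (isCompact_closedBall (0 : K → ℝ) (|R|)).totallyBounded.subset hsub
  obtain ⟨t, hts, htf, hcov⟩ := Metric.finite_approx_of_totallyBounded htb κ hκ
  have hch : ∀ v : K → ℝ, ∃ f : E → ℝ, v ∈ t → (RL 1 f ∧ (∀ x, |f x| ≤ R) ∧ v = fun x : K => f x.1) := by
    intro v
    by_cases hv : v ∈ t
    · obtain ⟨f, hf⟩ := hts hv
      exact ⟨f, fun _ => hf⟩
    · exact ⟨0, fun h => absurd h hv⟩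
  choose F hF using hch
  refine ⟨F '' t, htf.image F, ?_, ?_⟩
  · rintro q ⟨v, hv, rfl⟩
    exact ⟨(hF v hv).1, (hF v hv).2.1⟩
  · intro f hf hfR
    have hmem : (fun x : K => f x.1) ∈ s := ⟨f, hf, hfR, rfl⟩
    obtain ⟨v, hv, hball⟩ := Set.mem_iUnion₂.mp (hcov hmem)
    refine ⟨F v, ⟨v, hv, rfl⟩, ?_⟩
    intro x hx
    rw [Metric.mem_ball, dist_pi_lt_iff hκ] at hball
    have h1 := hball ⟨x, hx⟩
    rw [Real.dist_eq] at h1
    have h2 := congrFun (hF v hv).2.2 ⟨x, hx⟩
    simp only at h1 h2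
    rw [h2] at h1
    exact h1.le

omit [NormedSpace ℝ E] in
/-- small sup norm functions -/
theorem smallsup {μ : ℕ → E →₀ ℝ} {b : ℝ} (hW : WUC μ b) {a : ℝ} (ha : 0 < a)
    {f : ℕ → E → ℝ} (hf : ∀ j, RL 1 (f j)) (hf0 : ∀ j, f j 0 = 0) (hfM : ∀ j, a ≤ M (μ j) (f j))
    {ε : ℝ} (hε : 0 < ε) :
    ∃ p : ℕ, ∀ j, p ≤ j → ∃ g : E → ℝ, RL 2 g ∧ (∀ x, |g x| ≤ ε) ∧ a / 2 ≤ M (μ j) g := by
  set δ : ℝ := a / 10 with hδdef
  have hδ : 0 < δ := by positivity
  set κ : ℝ := ε / 3 with hκdef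
  have hκ : 0 < κ := by positivity
  obtain ⟨ρ, hρ, p1, hp1⟩ := tight1 hW hδ
  set R : ℝ := 2 * ρ + 1 with hRdef
  have hR : 0 < R := by positivity
  obtain ⟨K, p2, hp2⟩ := tight2 hW hR hκ hδ
  obtain ⟨T, hTf, hTq, hT⟩ := net K R hκ
  have hev : ∀ᶠ j in Filter.atTop, ∀ q ∈ T, |M (μ j) q| ≤ δ := by
    rw [Filter.eventually_all_finite hTf]
    intro q hq
    obtain ⟨p, hp⟩ := decay hW zero_le_one (hTq q hq).1 hδ
    exact Filter.eventually_atTop.mpr ⟨p, hp⟩
  obtain ⟨p3, hp3⟩ := Filter.eventually_atTop.mp hev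
  refine ⟨max p1 (max p2 p3), fun j hj => ?_⟩
  have hj1 : p1 ≤ j := (le_max_left _ _).trans hj
  have hj2 : p2 ≤ j := ((le_max_left _ _).trans (le_max_right _ _)).trans hj
  have hj3 : p3 ≤ j := ((le_max_right _ _).trans (le_max_right _ _)).trans hj
  set u : E → ℝ := fun x => max (2 * ρ - ‖x‖) 0 with hu
  have hu0 : ∀ x, 0 ≤ u x := fun x => le_max_right _ _
  have hu2 : ∀ x, u x ≤ 2 * ρ := fun x => max_le (by linarith [norm_nonneg x]) (by linarith)
  set f1 : E → ℝ := fun x => cl (u x) (f j x) with hf1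
  have hf1L : RL 1 f1 := (hf j).cl (RL_tent _)
  have hf1R : ∀ x, |f1 x| ≤ R := fun x =>
    (abs_cl_le _ (hu0 x)).trans ((hu2 x).trans (by linarith))
  have hfn : ∀ x, |f j x| ≤ ‖x‖ := by
    intro x
    have := hf j x 0
    rwa [hf0 j, sub_zero, sub_zero, one_mul] at this
  -- f2 = f - f1
  have hf2 : M (μ j) (f j - f1) ≤ 2 * δ := by
    have h1 : RL 1 ((1/2 : ℝ) • (f j - f1)) := by
      have := ((hf j).sub hf1L).smul (1/2 : ℝ)
      refine this.mono ?_
      rw [abs_of_pos (by norm_num)]; norm_num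
    have h2 := hp1 j hj1 _ h1 ?_
    · rw [M_smul] at h2
      linarith
    · intro x
      simp only [Pi.smul_apply, Pi.sub_apply, smul_eq_mul]
      rw [abs_mul, abs_of_pos (by norm_num : (0:ℝ) < 1/2)]
      have h3 := abs_sub_cl (f j x) (hu0 x)
      simp only [hf1]
      have h4 := hfn x
      have h5 : 2 * ρ - ‖x‖ ≤ u x := le_max_left _ _
      have h6 : 0 ≤ u x := hu0 x
      rcases le_total ‖x‖ ρ with hx | hx
      · have h7 : |f j x| ≤ u x := by linarith
        rw [max_eq_right (by linarith)] at h3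
        have := le_max_right (‖x‖ - ρ) 0
        linarith
      · have h8 : max (|f j x| - u x) 0 ≤ 2 * (‖x‖ - ρ) := max_le (by linarith) (by linarith)
        have := le_max_left (‖x‖ - ρ) 0
        linarith
  obtain ⟨q, hqT, hq⟩ := hT f1 hf1L hf1R
  obtain ⟨hqL, hqR⟩ := hTq q hqT
  have hMq : |M (μ j) q| ≤ δ := hp3 j hj3 q hqT
  set k : E → ℝ := f1 - q with hk
  have hkL : RL 2 k := (hf1L.sub hqL).mono (by norm_num)
  have hkR : ∀ x, |k x| ≤ 2 * R := by
    intro x
    simp only [hk, Pi.sub_apply]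
    refine (abs_sub _ _).trans ?_
    linarith [hf1R x, hqR x]
  set g : E → ℝ := fun x => cl ε (k x) with hg
  have hgL : RL 2 g := hkL.cl (RL.const (by norm_num) ε)
  have hkg : M (μ j) (k - g) ≤ 2 * δ := by
    -- `k - g` is a composition of `k` with a 1-Lipschitz function
    have hcomp : ∀ s t : ℝ, |(s - cl ε s) - (t - cl ε t)| ≤ |s - t| := by
      have mono : ∀ s t : ℝ, s ≤ t → 0 ≤ (t - cl ε t) - (s - cl ε s) ∧
          (t - cl ε t) - (s - cl ε s) ≤ t - s := by
        intro s t hst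
        unfold cl
        have a1 : max (min s ε) (-ε) ≤ max (min t ε) (-ε) :=
          max_le_max (min_le_min hst le_rfl) le_rfl
        have a2 : max (min t ε) (-ε) ≤ max (min s ε) (-ε) + (t - s) := by
          refine max_le ?_ ?_
          · have : min t ε ≤ min s ε + (t - s) := by
              rcases le_total s ε with h | h
              · rw [min_eq_left h]; linarith [min_le_left t ε]
              · rw [min_eq_right h]; linarith [min_le_right t ε]
            linarith [le_max_left (min s ε) (-ε)]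
          · linarith [le_max_right (min s ε) (-ε)]
        constructor <;> linarith
      intro s t
      rcases le_total s t with h | h
      · have := mono s t h
        rw [abs_sub_comm, abs_sub_comm s t, abs_of_nonneg this.1, abs_of_nonneg (by linarith)]
        exact this.2
      · have := mono t s h
        rw [abs_of_nonneg this.1, abs_of_nonneg (by linarith)]
        exact this.2
    have h1 : RL 1 ((1/2 : ℝ) • (k - g)) := by
      have h2 : RL 2 (k - g) := by
        intro x y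
        exact (hcomp (k x) (k y)).trans (hkL x y)
      have := h2.smul (1/2 : ℝ)
      refine this.mono ?_
      rw [abs_of_pos (by norm_num)]; norm_num
    have h2 := hp2 j hj2 _ h1 ?_ ?_
    · rw [M_smul] at h2
      linarith
    · intro x
      simp only [Pi.smul_apply, Pi.sub_apply, smul_eq_mul]
      rw [abs_mul, abs_of_pos (by norm_num : (0:ℝ) < 1/2)]
      have h3 := hcomp (k x) 0
      have h4 : cl ε (0:ℝ) = 0 := cl_of_abs_le (by simpa using hε.le)
      rw [h4, sub_zero, sub_zero, sub_zero] at h3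
      have h5 := hkR x
      simp only [hg]
      linarith
    · intro x y hy hxy
      simp only [Pi.smul_apply, Pi.sub_apply, smul_eq_mul, hg]
      have h3 : |k x| ≤ ε := by
        have h4 := hkL x y
        have h5 : |k y| ≤ κ := by
          simp only [hk, Pi.sub_apply]; exact hq y hy
        have h6 : |k x| ≤ |k x - k y| + |k y| := by
          have := abs_add_le (k x - k y) (k y)
          simpa using this
        have h7 : 3 * κ = ε := by rw [hκdef]; ring
        nlinarith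
      rw [cl_of_abs_le h3]
      ring
  refine ⟨g, hgL, fun x => abs_cl_le _ hε.le, ?_⟩
  have e1 : M (μ j) (f j) = M (μ j) g + M (μ j) (k - g) + M (μ j) q + M (μ j) (f j - f1) := by
    rw [← M_add, ← M_add, ← M_add]
    congr 1
    rw [hk]; abel
  have h0 := hfM j
  rw [e1] at h0
  have h1 := (abs_le.mp hMq).2
  have : 5 * δ = a / 2 := by rw [hδdef]; ring
  linarith

end Pool.Agent.TH326.L1
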