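import Pool.Agent.TH326.L1b

set_option autoImplicit false

namespace Pool.Agent.TH326.L1

open scoped BigOperators

variable {E : Type} [NormedAddCommGroup E] [NormedSpace ℝ E]

/-- coordinate structure of an `ℓ₁`-like space -/
structure Dec (E : Type) [NormedAddCommGroup E] [NormedSpace ℝ E] where
  P : ℕ → E →ₗ[ℝ] E
  c : ℕ → E → ℝ
  e : ℕ → E
  P_zero : ∀ x, P 0 x = 0
  P_succ : ∀ n x, P (n + 1) x = P n x + c n x • e n
  norm_e : ∀ n, ‖e n‖ = 1
  norm_succ : ∀ n x, ‖P (n + 1) x‖ = ‖P n x‖ + |c n x|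
  P_low : ∀ m n x, m ≤ n → P m (P n x) = P m x
  P_high : ∀ m n x, m ≤ n → P n (P m x) = P m x
  split : ∀ n x, ‖x‖ = ‖P n x‖ + ‖x - P n x‖
  tend : ∀ x, Filter.Tendsto (fun n => P n x) Filter.atTop (nhds x)

/-- Lipschitz with constant `A` in the first `N` coordinates and `B` in the others -/
def LipN (D : Dec E) (N : ℕ) (A B : ℝ) (g : E → ℝ) : Prop :=
  ∀ x y, |g x - g y| ≤ A * ‖D.P N (x - y)‖ + B * ‖(x - y) - D.P N (x - y)‖

/-- `g` depends on the first `n` coordinates -/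
def Cyl (D : Dec E) (n : ℕ) (g : E → ℝ) : Prop := ∀ x, g (D.P n x) = g x

theorem Cyl.mono {D : Dec E} {m n : ℕ} {g : E → ℝ} (h : Cyl D m g) (hmn : m ≤ n) :
    Cyl D n g := by
  intro x
  rw [← h (D.P n x), D.P_low m n x hmn, h x]

theorem Cyl.add {D : Dec E} {n : ℕ} {g h : E → ℝ} (hg : Cyl D n g) (hh : Cyl D n h) :
    Cyl D n (g + h) := by
  intro x
  simp only [Pi.add_apply]
  rw [hg x, hh x]

theorem Cyl.smul {D : Dec E} {n : ℕ} {g : E → ℝ} (c : ℝ) (hg : Cyl D n g) :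
    Cyl D n (c • g) := by
  intro x
  simp only [Pi.smul_apply]
  rw [hg x]

theorem norm_P_le (D : Dec E) (n : ℕ) (x : E) : ‖D.P n x‖ ≤ ‖x‖ := by
  have := D.split n x
  linarith [norm_nonneg (x - D.P n x)]

theorem tail_step (D : Dec E) {G g : E → ℝ} {N : ℕ} {A η : ℝ} (hA : 1 ≤ A) (hη : 0 ≤ η)
    (hG : RL A G) (hGN : Cyl D N G) (hg : LipN D N η 1 g) (σ : ℝ) (hσ : |σ| = 1) :
    RL (A + η) (G + σ • g) := by
  intro x y
  simp only [Pi.add_apply, Pi.smul_apply, smul_eq_mul]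
  have h1 : |G x - G y| ≤ A * ‖D.P N (x - y)‖ := by
    rw [← hGN x, ← hGN y, map_sub]
    exact hG _ _
  have h2 := hg x y
  have h3 := D.split N (x - y)
  have h4 : |σ * g x - σ * g y| = |g x - g y| := by
    rw [← mul_sub, abs_mul, hσ, one_mul]
  have h5 : |G x + σ * g x - (G y + σ * g y)| ≤ |G x - G y| + |σ * g x - σ * g y| := by
    have := abs_add_le (G x - G y) (σ * g x - σ * g y)
    refine le_trans (le_of_eq ?_) this
    congr 1; ring
  rw [h4] at h5
  have h6 := norm_nonneg (x - y - D.P N (x - y))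
  have h7 := norm_nonneg (D.P N (x - y))
  calc |G x + σ * g x - (G y + σ * g y)| ≤ A * ‖D.P N (x - y)‖ +
        (η * ‖D.P N (x - y)‖ + 1 * ‖x - y - D.P N (x - y)‖) := by linarith
    _ ≤ (A + η) * (‖D.P N (x - y)‖ + ‖x - y - D.P N (x - y)‖) := by nlinarith
    _ = (A + η) * ‖x - y‖ := by rw [← h3]

/-- the tail lemma -/
theorem tail (D : Dec E) {μ : ℕ → E →₀ ℝ} {b : ℝ} (hW : WUC μ b) {δ : ℝ}
    (hδ : 0 < δ) : ∃ N p : ℕ, ∀ θ : ℕ →₀ ℝ, (∀ j, |θ j| ≤ 1) → (∀ j, j < p → θ j = 0) →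
      ∀ (n : ℕ) (g : E → ℝ) (A B : ℝ), Cyl D n g → 0 ≤ A → 0 ≤ B → LipN D N A B g →
        Phi μ θ g ≤ b * A + δ * B := by
  by_contra hcon
  push Not at hcon
  have norm1 : ∀ N p : ℕ, ∃ θ : ℕ →₀ ℝ, (∀ j, |θ j| ≤ 1) ∧ (∀ j, j < p → θ j = 0) ∧
      ∃ (n : ℕ) (g : E → ℝ) (η : ℝ), Cyl D n g ∧ 0 ≤ η ∧ LipN D N η 1 g ∧
        b * η + δ < Phi μ θ g := by
    intro N p
    obtain ⟨θ, hθ, hθp, n, g, A, B, hn, hA, hB, hAB, hlt⟩ := hcon N p
    have hBpos : 0 < B := by
      rcases hB.lt_or_eq with h | h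
      · exact h
      · exfalso
        subst h
        have h1 : RL A g := by
          intro x y
          refine (hAB x y).trans ?_
          rw [zero_mul, add_zero]
          exact mul_le_mul_of_nonneg_left (norm_P_le D N _) hA
        have h2 := hW θ hθ g A hA h1
        linarith
    refine ⟨θ, hθ, hθp, n, B⁻¹ • g, B⁻¹ * A, hn.smul _, by positivity, ?_, ?_⟩
    · intro x y
      simp only [Pi.smul_apply, smul_eq_mul]
      rw [← mul_sub, abs_mul, abs_of_pos (by positivity : 0 < B⁻¹)]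
      have h1 := mul_le_mul_of_nonneg_left (hAB x y) (by positivity : 0 ≤ B⁻¹)
      refine h1.trans (le_of_eq ?_)
      field_simp
    · rw [Phi_smul_right]
      have h1 := mul_lt_mul_of_pos_left hlt (by positivity : 0 < B⁻¹)
      refine lt_of_le_of_lt (le_of_eq ?_) h1
      field_simp
  have key : ∀ K : ℕ, ∃ (G : E → ℝ) (N n : ℕ) (S : ℝ) (θ : ℕ →₀ ℝ), Cyl D N G ∧ 0 ≤ S ∧
      RL (1 + S) G ∧ (∀ j, |θ j| ≤ 1) ∧ (∀ j, n ≤ j → θ j = 0) ∧
      b * S + K * δ ≤ Phi μ θ G := by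
    intro K
    induction K with
    | zero =>
      exact ⟨0, 0, 0, 0, 0, fun x => rfl, le_rfl, RL.zero (by norm_num), by simp, by simp,
        by simp [Phi_zero_left]⟩
    | succ K ih =>
      obtain ⟨G, N, n, S, θ, hGN, hS, hG, hθ, hθn, hK⟩ := ih
      obtain ⟨θ', hθ', hθ'p, m, g, η, hgm, hη, hgL, hlt⟩ := norm1 N n
      obtain ⟨n', hn', hθ'n⟩ : ∃ n', n ≤ n' ∧ ∀ j, n' ≤ j → θ' j = 0 := by
        refine ⟨max n (θ'.support.sup id + 1), le_max_left _ _, fun j hj => ?_⟩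
        by_contra hne
        have h1 : j ∈ θ'.support := Finsupp.mem_support_iff.mpr hne
        have h2 : j ≤ θ'.support.sup id := Finset.le_sup (f := id) h1
        have h3 := (le_max_right n (θ'.support.sup id + 1)).trans hj
        omega
      have habs : ∀ σ : ℝ, |σ| = 1 → ∀ i, |(θ + σ • θ') i| ≤ 1 := by
        intro σ hσ i
        simp only [Finsupp.add_apply, Finsupp.smul_apply, smul_eq_mul]
        rcases lt_or_ge i n with hi | hi
        · rw [hθ'p i hi, mul_zero, add_zero]; exact hθ i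
        · rw [hθn i hi, zero_add, abs_mul, hσ, one_mul]; exact hθ' i
      have hsup : ∀ σ : ℝ, ∀ i, n' ≤ i → (θ + σ • θ') i = 0 := by
        intro σ i hi
        simp only [Finsupp.add_apply, Finsupp.smul_apply, smul_eq_mul]
        rw [hθn i (hn'.trans hi), hθ'n i hi, mul_zero, add_zero]
      have hcyl : ∀ σ : ℝ, Cyl D (max N m) (G + σ • g) := fun σ =>
        (hGN.mono (le_max_left _ _)).add ((hgm.mono (le_max_right _ _)).smul σ)
      have hRL : ∀ σ : ℝ, |σ| = 1 → RL (1 + (S + η)) (G + σ • g) := by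
        intro σ hσ
        have := tail_step D (by linarith) hη hG hGN hgL σ hσ
        rwa [add_assoc] at this
      by_cases hs : 0 ≤ Phi μ θ g + Phi μ θ' G
      · refine ⟨G + (1:ℝ) • g, max N m, n', S + η, θ + (1:ℝ) • θ', hcyl 1, by positivity,
          hRL 1 (by simp), habs 1 (by simp), hsup 1, ?_⟩
        rw [Phi_add_left, Phi_smul_left, Phi_add_right, Phi_add_right, Phi_smul_right,
          Phi_smul_right]
        push_cast
        linarith
      · refine ⟨G + (-1:ℝ) • g, max N m, n', S + η, θ + (-1:ℝ) • θ', hcyl _, by positivity,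
          hRL _ (by simp), habs _ (by simp), hsup _, ?_⟩
        rw [Phi_add_left, Phi_smul_left, Phi_add_right, Phi_add_right, Phi_smul_right,
          Phi_smul_right]
        push_cast
        linarith
  obtain ⟨K, hK⟩ := exists_nat_gt (b / δ)
  obtain ⟨G, N, n, S, θ, hGN, hS, hG, hθ, hθn, hKδ⟩ := key K
  have h1 := hW θ hθ G (1 + S) (by positivity) hG
  rw [div_lt_iff₀ hδ] at hK
  linarith

end Pool.Agent.TH326.L1
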