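import Pool.Agent.TH326.SBDefs

open Filter Topology MeasureTheory

namespace Pool.Agent.TH326.SB

variable {E : Type*} [NormedAddCommGroup E] [NormedSpace ℂ E]

theorem cmul_apply (A B : E →L[ℂ] E) (x : E) : (A * B) x = A (B x) := rfl

theorem csmul_apply (c : ℂ) (B : E →L[ℂ] E) (x : E) : (c • B) x = c • B x := rfl

theorem csub_apply (A B : E →L[ℂ] E) (x : E) : (A - B) x = A x - B x := rfl

theorem cadd_apply (A B : E →L[ℂ] E) (x : E) : (A + B) x = A x + B x := rfl

theorem cone_apply (x : E) : (1 : E →L[ℂ] E) x = x := rfl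

theorem IsC0Group.apply_add {T : ℝ → E →L[ℂ] E} (hT : IsC0Group T) (s t : ℝ) (x : E) :
    T (s + t) x = T s (T t x) := by
  rw [hT.add]; rfl

theorem IsC0Group.neg_mul {T : ℝ → E →L[ℂ] E} (hT : IsC0Group T) (t : ℝ) :
    T (-t) * T t = 1 := by
  rw [← hT.add, neg_add_cancel, hT.zero]

theorem IsC0Group.mul_neg {T : ℝ → E →L[ℂ] E} (hT : IsC0Group T) (t : ℝ) :
    T t * T (-t) = 1 := by
  rw [← hT.add, add_neg_cancel, hT.zero]

theorem IsC0Group.comm {T : ℝ → E →L[ℂ] E} (hT : IsC0Group T) (s t : ℝ) :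
    T s * T t = T t * T s := by
  rw [← hT.add, ← hT.add, add_comm]

/-- local boundedness -/
theorem IsC0Group.bdd [CompleteSpace E] {T : ℝ → E →L[ℂ] E} (hT : IsC0Group T) (a b : ℝ) :
    ∃ M : ℝ, 0 < M ∧ ∀ t ∈ Set.Icc a b, ‖T t‖ ≤ M := by
  have h : ∀ x : E, ∃ C, ∀ i : Set.Icc a b, ‖(fun i : Set.Icc a b => T i.1) i x‖ ≤ C := by
    intro x
    obtain ⟨C, hC⟩ := isCompact_Icc.exists_bound_of_continuousOn
      (s := Set.Icc a b) (f := fun t : ℝ => T t x) (hT.cont x).continuousOn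
    exact ⟨C, fun i => hC i.1 i.2⟩
  obtain ⟨C, hC⟩ := banach_steinhaus h
  exact ⟨max C 1, lt_of_lt_of_le one_pos (le_max_right _ _),
    fun t ht => le_trans (hC ⟨t, ht⟩) (le_max_left _ _)⟩

/-- rescaled group `e^{-z t} T_t` -/
noncomputable def scale (T : ℝ → E →L[ℂ] E) (z : ℂ) (t : ℝ) : E →L[ℂ] E :=
  Complex.exp (-(z * t)) • T t

theorem scale_apply (T : ℝ → E →L[ℂ] E) (z : ℂ) (t : ℝ) (x : E) :
    scale T z t x = Complex.exp (-(z * t)) • T t x := rfl

theorem IsC0Group.scale {T : ℝ → E →L[ℂ] E} (hT : IsC0Group T) (z : ℂ) :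
    IsC0Group (scale T z) where
  zero := by simp [SB.scale, hT.zero]
  add s t := by
    ext x
    simp only [SB.scale, hT.add, csmul_apply, cmul_apply, map_smul, smul_smul]
    rw [← Complex.exp_add]
    congr 2
    push_cast; ring
  cont x := by
    simp only [SB.scale, csmul_apply]
    exact Continuous.smul (by fun_prop) (hT.cont x)

theorem scale_scale (T : ℝ → E →L[ℂ] E) (z w : ℂ) :
    scale (scale T z) w = scale T (z + w) := by
  funext t
  simp only [scale, smul_smul]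
  rw [← Complex.exp_add]
  congr 2
  ring

theorem scale_zero (T : ℝ → E →L[ℂ] E) : scale T 0 = T := by
  funext t; simp [scale]

theorem norm_scale (T : ℝ → E →L[ℂ] E) (z : ℂ) (t : ℝ) :
    ‖scale T z t‖ = Real.exp (-(z.re * t)) * ‖T t‖ := by
  rw [scale, norm_smul, Complex.norm_exp]
  simp

theorem isGen_iff {T : ℝ → E →L[ℂ] E} (hT : IsC0Group T) (x w : E) :
    IsGen T x w ↔ HasDerivAt (fun t : ℝ => T t x) w 0 := by
  rw [hasDerivAt_iff_tendsto_slope_zero]
  simp only [IsGen, zero_add, hT.zero, cone_apply]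

theorem IsGen.hasDerivAt {T : ℝ → E →L[ℂ] E} (hT : IsC0Group T) {x w : E}
    (h : IsGen T x w) (s : ℝ) : HasDerivAt (fun t : ℝ => T t x) (T s w) s := by
  rw [hasDerivAt_iff_tendsto_slope_zero]
  have h1 : Tendsto (fun u : ℝ => T s (u⁻¹ • (T u x - x))) (𝓝[≠] (0 : ℝ)) (𝓝 (T s w)) :=
    ((T s).continuous.tendsto w).comp h
  refine h1.congr fun u => ?_
  rw [hT.apply_add, ← map_sub]
  exact (T s).map_smul_of_tower _ _

theorem IsGen.unique {T : ℝ → E →L[ℂ] E} {x w w' : E}
    (h : IsGen T x w) (h' : IsGen T x w') : w = w' :=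
  tendsto_nhds_unique h h'

theorem IsGen.apply {T : ℝ → E →L[ℂ] E} (hT : IsC0Group T) {x w : E}
    (h : IsGen T x w) (s : ℝ) : IsGen T (T s x) (T s w) := by
  have h1 : Tendsto (fun u : ℝ => T s (u⁻¹ • (T u x - x))) (𝓝[≠] (0 : ℝ)) (𝓝 (T s w)) :=
    ((T s).continuous.tendsto w).comp h
  refine h1.congr fun u => ?_
  rw [← hT.apply_add, add_comm u s, hT.apply_add, ← map_sub]
  exact (T s).map_smul_of_tower _ _

theorem IsGen.scale {T : ℝ → E →L[ℂ] E} (hT : IsC0Group T) {x w : E}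
    (h : IsGen T x w) (z : ℂ) : IsGen (scale T z) x (w - z • x) := by
  rw [isGen_iff (hT.scale z)]
  rw [isGen_iff hT] at h
  have h2 : HasDerivAt (fun t : ℝ => Complex.exp (-(z * t))) (-z) 0 := by
    have h3 : HasDerivAt (fun t : ℝ => -(z * (t : ℂ))) (-(z * 1)) 0 :=
      ((Complex.ofRealCLM.hasDerivAt (x := 0)).const_mul z).neg
    have h4 := h3.cexp
    simpa using h4
  have h5 := h2.smul h
  simp only [Complex.ofReal_zero, mul_zero, neg_zero, Complex.exp_zero, one_smul, hT.zero,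
    cone_apply] at h5
  have h6 : w - z • x = w + -z • x := by rw [neg_smul, sub_eq_add_neg]
  rw [h6]
  exact h5

theorem isGen_scale_iff {T : ℝ → E →L[ℂ] E} (hT : IsC0Group T) {x w : E} (z : ℂ) :
    IsGen (scale T z) x (w - z • x) ↔ IsGen T x w := by
  refine ⟨fun h => ?_, fun h => h.scale hT z⟩
  have := h.scale (hT.scale z) (-z)
  rw [scale_scale, add_neg_cancel, scale_zero] at this
  simpa using this

theorem IsRes.scale {T : ℝ → E →L[ℂ] E} (hT : IsC0Group T) {z : ℂ} {R : E →L[ℂ] E}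
    (h : IsRes T z R) (w : ℂ) : IsRes (scale T w) (z - w) R := by
  constructor
  · intro y
    have := (h.1 y).scale hT w
    convert this using 1
    rw [sub_smul]; abel
  · intro x v hv
    have h1 : IsGen T x (v + w • x) := by
      rw [← isGen_scale_iff hT w]
      simpa using hv
    have := h.2 x _ h1
    rw [← this]
    congr 1
    rw [this, sub_smul]; abel

theorem IsRes.unscale {T : ℝ → E →L[ℂ] E} (hT : IsC0Group T) {z w : ℂ} {R : E →L[ℂ] E}
    (h : IsRes (SB.scale T w) z R) : IsRes T (z + w) R := by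
  have := h.scale (hT.scale w) (-w)
  rw [scale_scale, add_neg_cancel, scale_zero] at this
  simpa using this

/-- uniqueness of the resolvent -/
theorem IsRes.unique {T : ℝ → E →L[ℂ] E} {z : ℂ} {R R' : E →L[ℂ] E}
    (h : IsRes T z R) (h' : IsRes T z R') : R = R' := by
  ext y
  have := h.2 _ _ (h'.1 y)
  rw [← this]; congr 1; abel

/-- resolvent identity -/
theorem IsRes.sub {T : ℝ → E →L[ℂ] E} {z w : ℂ} {R Q : E →L[ℂ] E}
    (hz : IsRes T z R) (hw : IsRes T w Q) : R - Q = (w - z) • (R * Q) := by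
  ext y
  have h := hz.2 _ _ (hw.1 y)
  have h2 : R (z • Q y - (w • Q y - y)) = R ((z - w) • Q y) + R y := by
    rw [← map_add]; congr 1; rw [sub_smul]; abel
  rw [h2, map_smul] at h
  simp only [csub_apply, csmul_apply, cmul_apply]
  have h3 : R y = Q y - (z - w) • R (Q y) := by
    rw [eq_sub_iff_add_eq, add_comm]; exact h
  rw [h3, sub_smul, sub_smul]
  abel

theorem IsRes.comm {T : ℝ → E →L[ℂ] E} (hT : IsC0Group T) {z : ℂ} {R : E →L[ℂ] E}
    (h : IsRes T z R) (s : ℝ) (y : E) : R (T s y) = T s (R y) := by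
  have h1 := (h.1 y).apply hT s
  have h2 := h.2 _ _ h1
  rw [← h2]; congr 1
  rw [map_sub, map_smul]; abel

end Pool.Agent.TH326.SB
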