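import Pool.Agent.TH326.SB1

open Filter Topology MeasureTheory

namespace Pool.Agent.TH326.SB

variable {E : Type*} [NormedAddCommGroup E] [NormedSpace ℂ E] [CompleteSpace E]

/-- `∫₀ᵗ S_s ds` as a bounded operator -/
theorem exists_J {S : ℝ → E →L[ℂ] E} (hS : IsC0Group S) (t : ℝ) :
    ∃ J : E →L[ℂ] E, ∀ x, J x = ∫ s in (0 : ℝ)..t, S s x := by
  obtain ⟨M, hM0, hM⟩ := hS.bdd (-|t|) |t|
  let L : E →ₗ[ℂ] E :=
    { toFun := fun x => ∫ s in (0 : ℝ)..t, S s x
      map_add' := fun x y => by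
        simp only [map_add]
        exact intervalIntegral.integral_add ((hS.cont x).intervalIntegrable _ _)
          ((hS.cont y).intervalIntegrable _ _)
      map_smul' := fun c x => by
        simp only [map_smul, RingHom.id_apply]
        exact intervalIntegral.integral_smul c _ }
  refine ⟨L.mkContinuous (M * |t|) fun x => ?_, fun x => rfl⟩
  have h1 : ∀ s ∈ Set.uIoc (0 : ℝ) t, ‖S s x‖ ≤ M * ‖x‖ := by
    intro s hs
    refine le_trans ((S s).le_opNorm x) ?_
    refine mul_le_mul_of_nonneg_right (hM s ?_) (norm_nonneg _)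
    rcases Set.mem_uIoc.1 hs with h | h
    · exact ⟨by linarith [neg_nonpos.2 (abs_nonneg t), h.1], by linarith [le_abs_self t, h.2]⟩
    · exact ⟨by linarith [neg_abs_le t, h.1], by linarith [abs_nonneg t, h.2]⟩
  have := intervalIntegral.norm_integral_le_of_norm_le_const h1
  rw [sub_zero] at this
  calc ‖L x‖ ≤ M * ‖x‖ * |t| := this
    _ = M * |t| * ‖x‖ := by ring

/-- chosen operator `∫₀ᵗ S_s ds` -/
noncomputable def JJ {S : ℝ → E →L[ℂ] E} (hS : IsC0Group S) (t : ℝ) : E →L[ℂ] E :=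
  (exists_J hS t).choose

theorem JJ_apply {S : ℝ → E →L[ℂ] E} (hS : IsC0Group S) (t : ℝ) (x : E) :
    JJ hS t x = ∫ s in (0 : ℝ)..t, S s x := (exists_J hS t).choose_spec x

theorem JJ_gen {S : ℝ → E →L[ℂ] E} (hS : IsC0Group S) (t : ℝ) (x : E) :
    IsGen S (JJ hS t x) (S t x - x) := by
  rw [isGen_iff hS]
  have hF : ∀ u : ℝ, HasDerivAt (fun u : ℝ => ∫ s in (0 : ℝ)..u, S s x) (S u x) u := fun u =>
    intervalIntegral.integral_hasDerivAt_right ((hS.cont x).intervalIntegrable _ _)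
      (hS.cont x).stronglyMeasurable.stronglyMeasurableAtFilter (hS.cont x).continuousAt
  have key : ∀ h : ℝ, S h (JJ hS t x) =
      (∫ s in (0 : ℝ)..(h + t), S s x) - ∫ s in (0 : ℝ)..h, S s x := by
    intro h
    rw [JJ_apply, ← ContinuousLinearMap.intervalIntegral_comp_comm _
      ((hS.cont x).intervalIntegrable _ _)]
    simp only [← hS.apply_add]
    rw [intervalIntegral.integral_comp_add_left (fun u => S u x) h, add_zero]
    rw [intervalIntegral.integral_interval_sub_left ((hS.cont x).intervalIntegrable _ _)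
      ((hS.cont x).intervalIntegrable _ _)]
  have h1 : HasDerivAt (fun h : ℝ => ∫ s in (0 : ℝ)..(h + t), S s x) (S t x) 0 := by
    have h2 := hF (0 + t)
    have h3 := h2.comp_add_const (0 : ℝ) t
    simpa using h3
  have h4 := h1.sub (hF 0)
  rw [hS.zero, cone_apply] at h4
  refine h4.congr_of_eventuallyEq (Eventually.of_forall fun h => ?_)
  exact key h

theorem JJ_of_gen {S : ℝ → E →L[ℂ] E} (hS : IsC0Group S) (t : ℝ) {x w : E}
    (h : IsGen S x w) : JJ hS t w = S t x - x := by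
  rw [JJ_apply, intervalIntegral.integral_eq_sub_of_hasDerivAt
    (f := fun s => S s x) (fun s _ => h.hasDerivAt hS s) ((hS.cont w).intervalIntegrable _ _),
    hS.zero, cone_apply]

theorem JJ_comm {S : ℝ → E →L[ℂ] E} (hS : IsC0Group S) (s t : ℝ) (x : E) :
    JJ hS t (S s x) = S s (JJ hS t x) := by
  rw [JJ_apply, JJ_apply, ← ContinuousLinearMap.intervalIntegral_comp_comm _
      ((hS.cont x).intervalIntegrable _ _)]
  refine intervalIntegral.integral_congr fun u _ => ?_
  show S u (S s x) = S s (S u x)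
  rw [← hS.apply_add, ← hS.apply_add, add_comm]

/-- If `1 - S_t` is invertible then `0` is in the resolvent set of the generator of `S`. -/
theorem res_of_isUnit {S : ℝ → E →L[ℂ] E} (hS : IsC0Group S) (t : ℝ)
    (h : IsUnit (1 - S t)) : ∃ R, IsRes S 0 R := by
  obtain ⟨U, hU⟩ := h
  have hQ1 : ∀ y, (U⁻¹ : (E →L[ℂ] E)ˣ).val y - S t ((U⁻¹ : (E →L[ℂ] E)ˣ).val y) = y := by
    intro y
    have := congrArg (fun B : E →L[ℂ] E => B y) U.mul_inv
    simp only [hU, cmul_apply, csub_apply, cone_apply] at this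
    exact this
  have hcomm : JJ hS t * U.val = U.val * JJ hS t := by
    rw [hU]; ext x
    simp only [cmul_apply, csub_apply, cone_apply, map_sub, JJ_comm]
  have hcomm2 : (U⁻¹ : (E →L[ℂ] E)ˣ).val * JJ hS t = JJ hS t * (U⁻¹ : (E →L[ℂ] E)ˣ).val := by
    have : Commute (JJ hS t) U.val := hcomm
    exact this.symm.units_inv_left.eq
  refine ⟨JJ hS t * (U⁻¹ : (E →L[ℂ] E)ˣ).val, fun y => ?_, fun x w hxw => ?_⟩
  · have := JJ_gen hS t ((U⁻¹ : (E →L[ℂ] E)ˣ).val y)
    rw [cmul_apply, zero_smul, zero_sub]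
    convert this using 1
    rw [← neg_sub, hQ1]
  · rw [zero_smul, zero_sub, ← hcomm2, cmul_apply, map_neg, JJ_of_gen hS t hxw, neg_sub]
    have := congrArg (fun B : E →L[ℂ] E => B x) U.inv_mul
    simp only [hU, cmul_apply, csub_apply, cone_apply] at this
    exact this

theorem res_of_isUnit' {T : ℝ → E →L[ℂ] E} (hT : IsC0Group T) (z : ℂ) (t : ℝ)
    (h : IsUnit (1 - scale T z t)) : ∃ R, IsRes T z R := by
  obtain ⟨R, hR⟩ := res_of_isUnit (hT.scale z) t h
  exact ⟨R, by simpa using hR.unscale hT⟩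

theorem res_of_lt {T : ℝ → E →L[ℂ] E} (hT : IsC0Group T) {z : ℂ} {t : ℝ}
    (h : Real.exp (-(z.re * t)) * ‖T t‖ < 1) : ∃ R, IsRes T z R := by
  refine res_of_isUnit' hT z t ?_
  have : ‖scale T z t‖ < 1 := by rw [norm_scale]; exact h
  exact isUnit_one_sub_of_norm_lt_one this

theorem norm_pos_T [Nontrivial E] {T : ℝ → E →L[ℂ] E} (hT : IsC0Group T) (t : ℝ) :
    0 < ‖T t‖ := by
  rw [norm_pos_iff]
  intro h
  have := hT.neg_mul t
  rw [h, mul_zero] at this
  exact zero_ne_one this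

/-- points of the spectrum satisfy `re z * t ≤ log ‖T_t‖` -/
theorem re_le_of_mem [Nontrivial E] {T : ℝ → E →L[ℂ] E} (hT : IsC0Group T) {z : ℂ}
    (hz : z ∈ genSpectrum T) (t : ℝ) : z.re * t ≤ Real.log ‖T t‖ := by
  by_contra hlt
  push Not at hlt
  refine hz (res_of_lt hT (t := t) ?_)
  have hp := norm_pos_T hT t
  rw [← Real.exp_log hp, ← Real.exp_add, Real.exp_lt_one_iff]
  linarith

end Pool.Agent.TH326.SB
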