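import Pool.Agent.TH326.SB2

open Filter Topology MeasureTheory
open scoped NNReal ENNReal

namespace Pool.Agent.TH326.SB

/-- Gelfand: if the spectrum of `a` lies in the closed disc of radius `r < r'` then
`‖a ^ n‖ ≤ r' ^ n` eventually. -/
theorem eventually_norm_pow_le {A : Type*} [NormedRing A] [NormedAlgebra ℂ A] [CompleteSpace A]
    (a : A) {r r' : ℝ} (hr : 0 ≤ r) (hrr : r < r')
    (h : ∀ μ ∈ spectrum ℂ a, ‖μ‖ ≤ r) : ∀ᶠ n : ℕ in atTop, ‖a ^ n‖ ≤ r' ^ n := by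
  have hrad : spectralRadius ℂ a ≤ ENNReal.ofReal r := by
    refine iSup₂_le fun μ hμ => ?_
    have h1 : ENNReal.ofReal ‖μ‖ = (‖μ‖₊ : ℝ≥0∞) := ofReal_norm μ
    rw [← h1]
    exact ENNReal.ofReal_le_ofReal (h μ hμ)
  have hlt : spectralRadius ℂ a < ENNReal.ofReal r' :=
    lt_of_le_of_lt hrad ((ENNReal.ofReal_lt_ofReal_iff (lt_of_le_of_lt hr hrr)).2 hrr)
  have hT := spectrum.pow_nnnorm_pow_one_div_tendsto_nhds_spectralRadius a
  have hev := hT.eventually (gt_mem_nhds hlt)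
  filter_upwards [hev, eventually_gt_atTop 0] with n hn hn0
  have hn0' : (0 : ℝ) < n := by exact_mod_cast hn0
  have h1 : ((‖a ^ n‖₊ : ℝ≥0∞) ^ (1 / n : ℝ)) ^ (n : ℝ) ≤ (ENNReal.ofReal r') ^ (n : ℝ) :=
    ENNReal.rpow_le_rpow hn.le hn0'.le
  rw [← ENNReal.rpow_mul, one_div, inv_mul_cancel₀ hn0'.ne', ENNReal.rpow_one,
    ENNReal.rpow_natCast, ← ENNReal.ofReal_pow (lt_of_le_of_lt hr hrr).le] at h1
  have h2 : ENNReal.ofReal ‖a ^ n‖ ≤ ENNReal.ofReal (r' ^ n) := by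
    rw [ofReal_norm]; exact h1
  exact (ENNReal.ofReal_le_ofReal_iff (pow_nonneg (lt_of_le_of_lt hr hrr).le n)).1 h2

variable {E : Type*} [NormedAddCommGroup E] [NormedSpace ℂ E] [CompleteSpace E]

theorem IsRes.mul_comm' {T : ℝ → E →L[ℂ] E} {z w : ℂ} {R Q : E →L[ℂ] E}
    (hz : IsRes T z R) (hw : IsRes T w Q) (hzw : z ≠ w) : R * Q = Q * R := by
  have h1 := hz.sub hw
  have h2 := hw.sub hz
  have h3 : (w - z) • (R * Q) = (w - z) • (Q * R) := by
    rw [← h1, ← neg_sub Q R, h2, ← neg_smul, neg_sub]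
  exact smul_right_injective _ (sub_ne_zero.2 hzw.symm) h3

/-- spectrum of the resolvent -/
theorem spectrum_res {T : ℝ → E →L[ℂ] E} {a : ℝ}
    (ha : ∀ z : ℂ, a < z.re → ∃ R, IsRes T z R) {l : ℝ} (hl : a < l) {R : E →L[ℂ] E}
    (hR : IsRes T l R) : ∀ μ ∈ spectrum ℂ R, ‖μ‖ ≤ 1 / (l - a) := by
  intro μ hμ
  by_contra hlt
  push Not at hlt
  have hla : 0 < l - a := by linarith
  have hμ0 : μ ≠ 0 := by
    rintro rfl
    rw [norm_zero] at hlt
    have : 0 < 1 / (l - a) := by positivity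
    linarith
  have hμn : 0 < ‖μ‖ := norm_pos_iff.2 hμ0
  have h1 : ‖μ⁻¹‖ < l - a := by
    rw [norm_inv, inv_lt_comm₀ hμn hla, ← one_div]; exact hlt
  obtain ⟨Q, hQ⟩ := ha (l - μ⁻¹) (by
    rw [Complex.sub_re, Complex.ofReal_re]
    have := le_trans (le_abs_self _) (Complex.abs_re_le_norm μ⁻¹)
    linarith)
  have hne : (l : ℂ) ≠ l - μ⁻¹ := by
    intro h
    have h5 : (l : ℂ) - ((l : ℂ) - μ⁻¹) = (l : ℂ) - l := by rw [← h]
    rw [sub_sub_cancel, sub_self] at h5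
    exact inv_ne_zero hμ0 h5
  have hc := hR.mul_comm' hQ hne
  have hs := hR.sub hQ
  have hs2 : R * Q = μ • (Q - R) := by
    have : R - Q = (-μ⁻¹) • (R * Q) := by rw [hs]; congr 1; ring
    rw [← neg_sub R Q, this, neg_smul, neg_neg, smul_smul, mul_inv_cancel₀ hμ0, one_smul]
  apply hμ
  -- inverse of `μ - R`
  have e1 : (algebraMap ℂ (E →L[ℂ] E) μ - R) * (μ⁻¹ • (1 + μ⁻¹ • Q)) = 1 := by
    rw [Algebra.algebraMap_eq_smul_one, mul_smul_comm, sub_mul, mul_add, mul_add, mul_one, mul_one,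
      mul_smul_comm, mul_smul_comm, hs2, smul_smul μ⁻¹ μ, inv_mul_cancel₀ hμ0, one_smul,
      smul_mul_assoc, one_mul, smul_smul μ⁻¹ μ, inv_mul_cancel₀ hμ0, one_smul]
    have : μ • (1 : E →L[ℂ] E) + Q - (R + (Q - R)) = μ • (1 : E →L[ℂ] E) := by abel
    rw [this, smul_smul, inv_mul_cancel₀ hμ0, one_smul]
  have e2 : (μ⁻¹ • (1 + μ⁻¹ • Q)) * (algebraMap ℂ (E →L[ℂ] E) μ - R) = 1 := by
    have : Commute (algebraMap ℂ (E →L[ℂ] E) μ - R) (μ⁻¹ • (1 + μ⁻¹ • Q)) := by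
      refine Commute.smul_right ?_ _
      refine Commute.add_right (Commute.one_right _) ?_
      refine Commute.smul_right ?_ _
      refine Commute.sub_left (Algebra.commute_algebraMap_left μ Q) hc
    rw [← this.eq]
    exact e1
  exact ⟨⟨_, _, e1, e2⟩, rfl⟩

/-- Neumann-type expansion of `R_z` around large real `l` -/
theorem tendsto_expansion {T : ℝ → E →L[ℂ] E} {a b : ℝ} (hab : a < b)
    (ha : ∀ z : ℂ, a < z.re → ∃ R, IsRes T z R) {l : ℝ} (hl : b < l) {R : E →L[ℂ] E}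
    (hR : IsRes T l R) {z : ℂ} (hz : ‖(l : ℂ) - z‖ ≤ l - b) {Q : E →L[ℂ] E}
    (hQ : IsRes T z Q) :
    Tendsto (fun N : ℕ => ∑ n ∈ Finset.range N, ((l : ℂ) - z) ^ n • R ^ (n + 1)) atTop (𝓝 Q) := by
  have hid : ∀ N : ℕ, Q = ∑ n ∈ Finset.range N, ((l : ℂ) - z) ^ n • R ^ (n + 1)
      + ((l : ℂ) - z) ^ N • (R ^ N * Q) := by
    intro N
    induction N with
    | zero => simp
    | succ N ih =>
      rw [Finset.sum_range_succ, add_assoc]
      have h1 : Q = R + ((l : ℂ) - z) • (R * Q) := by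
        rcases eq_or_ne (l : ℂ) z with h | h
        · subst h; rw [hQ.unique hR]; simp
        · have := hQ.sub hR
          rw [← hR.mul_comm' hQ h] at this
          rw [← this]; abel
      have h2 : ((l : ℂ) - z) ^ N • (R ^ N * Q) = ((l : ℂ) - z) ^ N • R ^ (N + 1)
          + ((l : ℂ) - z) ^ (N + 1) • (R ^ (N + 1) * Q) := by
        conv_lhs => rw [h1]
        rw [mul_add, smul_add, mul_smul_comm, smul_smul, ← pow_succ, ← pow_succ, ← mul_assoc,
          ← pow_succ]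
      rw [← h2]
      exact ih
  have hsp := spectrum_res ha (hab.trans hl) hR
  have hla : 0 < l - a := by linarith
  have hlb : 0 < l - b := by linarith
  set r' : ℝ := (1 / (l - a) + 1 / (l - b)) / 2 with hr'
  have hlt : 1 / (l - a) < 1 / (l - b) := one_div_lt_one_div_of_lt hlb (by linarith)
  have hev := eventually_norm_pow_le R (r := 1 / (l - a)) (r' := r') (by positivity)
    (by rw [hr']; linarith) hsp
  have hq0 : 0 ≤ (l - b) * r' := by
    have : 0 < r' := by rw [hr']; positivity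
    positivity
  have hq1 : (l - b) * r' < 1 := by
    have h1 : r' < 1 / (l - b) := by rw [hr']; linarith
    calc (l - b) * r' < (l - b) * (1 / (l - b)) := by
          exact mul_lt_mul_of_pos_left h1 hlb
      _ = 1 := by field_simp
  have hrem : Tendsto (fun N : ℕ => ((l : ℂ) - z) ^ N • (R ^ N * Q)) atTop (𝓝 0) := by
    rw [tendsto_zero_iff_norm_tendsto_zero]
    have hg : Tendsto (fun N : ℕ => ((l - b) * r') ^ N * ‖Q‖) atTop (𝓝 0) := by
      have := (tendsto_pow_atTop_nhds_zero_of_lt_one hq0 hq1).mul_const ‖Q‖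
      simpa using this
    refine squeeze_zero' (Eventually.of_forall fun _ => norm_nonneg _) ?_ hg
    filter_upwards [hev] with N hN
    calc ‖((l : ℂ) - z) ^ N • (R ^ N * Q)‖ ≤ ‖(l : ℂ) - z‖ ^ N * (‖R ^ N‖ * ‖Q‖) := by
          rw [norm_smul, norm_pow]
          exact mul_le_mul_of_nonneg_left (norm_mul_le _ _) (by positivity)
      _ ≤ (l - b) ^ N * (r' ^ N * ‖Q‖) := by gcongr
      _ = ((l - b) * r') ^ N * ‖Q‖ := by rw [mul_pow]; ring
  have : Tendsto (fun N : ℕ => Q - ((l : ℂ) - z) ^ N • (R ^ N * Q)) atTop (𝓝 (Q - 0)) :=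
    tendsto_const_nhds.sub hrem
  rw [sub_zero] at this
  refine this.congr fun N => ?_
  rw [sub_eq_iff_eq_add]
  exact hid N

end Pool.Agent.TH326.SB
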