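import Pool.Agent.TH326.SB3

open Filter Topology MeasureTheory

namespace Pool.Agent.TH326.SB

variable {E : Type*} [NormedAddCommGroup E] [NormedSpace ℂ E]

/-- a closed normal cone whose real span generates the complex space `E` -/
structure IsNGCone (C : Set E) : Prop where
  closed : IsClosed C
  zero : (0 : E) ∈ C
  add : ∀ x ∈ C, ∀ y ∈ C, x + y ∈ C
  smul : ∀ r : ℝ, 0 ≤ r → ∀ x ∈ C, r • x ∈ C
  normal : ∃ c : ℝ, 0 < c ∧ ∀ x y, x ∈ C → y - x ∈ C → ‖x‖ ≤ c * ‖y‖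
  gen : ∀ x : E, ∃ p₁ ∈ C, ∃ p₂ ∈ C, ∃ p₃ ∈ C, ∃ p₄ ∈ C,
    x = (p₁ - p₂) + Complex.I • (p₃ - p₄)

theorem IsNGCone.convex {C : Set E} (hC : IsNGCone C) : Convex ℝ C := by
  intro x hx y hy a b ha hb _
  exact hC.add _ (hC.smul a ha x hx) _ (hC.smul b hb y hy)

theorem IsNGCone.sum {C : Set E} (hC : IsNGCone C) {ι : Type*} (s : Finset ι) (f : ι → E)
    (h : ∀ i ∈ s, f i ∈ C) : ∑ i ∈ s, f i ∈ C := by
  classical
  induction s using Finset.induction_on with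
  | empty => simpa using hC.zero
  | insert i s hi ih =>
    rw [Finset.sum_insert hi]
    exact hC.add _ (h i (Finset.mem_insert_self _ _)) _
      (ih fun j hj => h j (Finset.mem_insert_of_mem hj))

theorem csmul_eq (α : ℂ) (p : E) : α • p = α.re • p + Complex.I • (α.im • p) := by
  conv_lhs => rw [← Complex.re_add_im α]
  rw [add_smul, Complex.coe_smul, mul_comm, mul_smul, Complex.coe_smul]

variable [CompleteSpace E]

/-- `∫₀ᵗ e^{-l s} T_s x ds ∈ C` for `x ∈ C` -/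
theorem JJ_mem {T : ℝ → E →L[ℂ] E} (hT : IsC0Group T) {C : Set E} (hC : IsNGCone C)
    (hpos : ∀ t : ℝ, 0 ≤ t → ∀ x ∈ C, T t x ∈ C) (l : ℝ) {t : ℝ} (ht : 0 < t) {x : E}
    (hx : x ∈ C) : JJ (hT.scale (l : ℂ)) t x ∈ C := by
  have hmem : ∀ s : ℝ, 0 ≤ s → scale T l s x ∈ C := by
    intro s hs
    rw [scale_apply]
    have : Complex.exp (-((l : ℂ) * s)) = ((Real.exp (-(l * s)) : ℝ) : ℂ) := by
      push_cast; rfl
    rw [this, Complex.coe_smul]
    exact hC.smul _ (Real.exp_pos _).le _ (hpos s hs x hx)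
  rw [JJ_apply]
  have h1 := interval_average_eq (fun s => scale T (l : ℂ) s x) 0 t
  have h2 : (∫ s in (0 : ℝ)..t, scale T (l : ℂ) s x)
      = t • (⨍ s in (0 : ℝ)..t, scale T (l : ℂ) s x) := by
    rw [h1, sub_zero, smul_smul, mul_inv_cancel₀ ht.ne', one_smul]
  rw [h2]
  refine hC.smul t ht.le _ ?_
  rw [Set.uIoc_of_le ht.le]
  refine hC.convex.set_average_mem hC.closed ?_ ?_ ?_ ?_
  · rw [Real.volume_Ioc, sub_zero]
    exact (ENNReal.ofReal_pos.2 ht).ne'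
  · rw [Real.volume_Ioc]; exact ENNReal.ofReal_ne_top
  · refine (ae_restrict_iff' measurableSet_Ioc).2 (Eventually.of_forall fun s hs => ?_)
    exact hmem s hs.1.le
  · exact ((hT.scale (l : ℂ)).cont x).continuousOn.integrableOn_Icc.mono_set Set.Ioc_subset_Icc_self

theorem norm_lt_pow {T : ℝ → E →L[ℂ] E} (hT : IsC0Group T) (n : ℕ) : T n = T 1 ^ n := by
  induction n with
  | zero => simp [hT.zero]
  | succ n ih => rw [Nat.cast_succ, hT.add, ih, pow_succ]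

/-- resolvents at large real points are positive -/
theorem res_mem {T : ℝ → E →L[ℂ] E} (hT : IsC0Group T) {C : Set E} (hC : IsNGCone C)
    (hpos : ∀ t : ℝ, 0 ≤ t → ∀ x ∈ C, T t x ∈ C) {l : ℝ} (hl : Real.exp (-l) * ‖T 1‖ < 1)
    {R : E →L[ℂ] E} (hR : IsRes T l R) {x : E} (hx : x ∈ C) : R x ∈ C := by
  have hS := hT.scale (l : ℂ)
  have hR' := hR.scale hT l
  rw [sub_self] at hR'
  have key : ∀ n : ℕ, R (x - scale T (l : ℂ) n x) = JJ hS n x := by
    intro n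
    have h1 := JJ_gen hS n x
    have h2 := hR'.2 _ _ h1
    rwa [zero_smul, zero_sub, neg_sub] at h2
  have hnorm : ‖scale T (l : ℂ) 1‖ < 1 := by
    rw [norm_scale]; simpa using hl
  have h0 : Tendsto (fun n : ℕ => scale T (l : ℂ) n x) atTop (𝓝 0) := by
    rw [tendsto_zero_iff_norm_tendsto_zero]
    have hg : Tendsto (fun n : ℕ => ‖scale T (l : ℂ) 1‖ ^ n * ‖x‖) atTop (𝓝 0) := by
      simpa using (tendsto_pow_atTop_nhds_zero_of_lt_one (norm_nonneg _) hnorm).mul_const ‖x‖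
    refine squeeze_zero (fun _ => norm_nonneg _) (fun n => ?_) hg
    rw [norm_lt_pow hS]
    refine le_trans (ContinuousLinearMap.le_opNorm _ _) ?_
    rcases Nat.eq_zero_or_pos n with h | h
    · subst h
      simp only [pow_zero]
      refine mul_le_mul_of_nonneg_right ?_ (norm_nonneg _)
      exact ContinuousLinearMap.norm_id_le
    · exact mul_le_mul_of_nonneg_right (norm_pow_le' _ h) (norm_nonneg _)
  have h1 : Tendsto (fun n : ℕ => R (x - scale T (l : ℂ) n x)) atTop (𝓝 (R x)) := by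
    have := (R.continuous.tendsto (x - 0)).comp (tendsto_const_nhds.sub h0)
    rw [sub_zero] at this
    exact this
  refine hC.closed.mem_of_tendsto h1 ?_
  filter_upwards [eventually_gt_atTop 0] with n hn
  rw [key]
  exact JJ_mem hT hC hpos l (by exact_mod_cast hn) hx

/-- norm domination -/
theorem dom_bound {T : ℝ → E →L[ℂ] E} (hT : IsC0Group T) {C : Set E} (hC : IsNGCone C)
    (hpos : ∀ t : ℝ, 0 ≤ t → ∀ x ∈ C, T t x ∈ C) {c : ℝ} (hc : 0 < c)
    (hnorm : ∀ x y, x ∈ C → y - x ∈ C → ‖x‖ ≤ c * ‖y‖) {a b' : ℝ} (hab : a < b')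
    (ha : ∀ z : ℂ, a < z.re → ∃ R, IsRes T z R) {z : ℂ} (hz : b' < z.re)
    {Q Q' : E →L[ℂ] E} (hQ : IsRes T z Q) (hQ' : IsRes T (b' : ℂ) Q') {x : E} (hx : x ∈ C) :
    ‖Q x‖ ≤ (2 * (2 * c + 1)) * ‖Q' x‖ := by
  -- choose `l`
  obtain ⟨l, hl1, hl2, hl3⟩ : ∃ l : ℝ, b' < l ∧ Real.exp (-l) * ‖T 1‖ < 1 ∧
      ‖(l : ℂ) - z‖ ≤ l - b' := by
    have e1 : ∀ᶠ l : ℝ in atTop, Real.exp (-l) * ‖T 1‖ < 1 := by
      have : Tendsto (fun l : ℝ => Real.exp (-l) * ‖T 1‖) atTop (𝓝 0) := by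
        simpa using Real.tendsto_exp_neg_atTop_nhds_zero.mul_const ‖T 1‖
      exact this.eventually (gt_mem_nhds one_pos)
    have hz' : 0 < z.re - b' := by linarith
    have e2 : ∀ᶠ l : ℝ in atTop, z.im ^ 2 / (z.re - b') + b' + z.re ≤ 2 * l :=
      (tendsto_id.const_mul_atTop (two_pos)).eventually_ge_atTop _
    obtain ⟨l, h1, h2, h3⟩ := (e1.and (e2.and (eventually_gt_atTop b'))).exists
    refine ⟨l, h3, h1, ?_⟩
    have h4 : z.im ^ 2 ≤ (2 * l - b' - z.re) * (z.re - b') := by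
      rw [← div_le_iff₀ hz']; linarith
    have h5 : ‖(l : ℂ) - z‖ ^ 2 ≤ (l - b') ^ 2 := by
      rw [Complex.sq_norm, Complex.normSq_apply]
      simp only [Complex.sub_re, Complex.ofReal_re, Complex.sub_im, Complex.ofReal_im]
      nlinarith
    exact le_of_sq_le_sq h5 (by linarith)
  obtain ⟨R, hR⟩ := ha l (by rw [Complex.ofReal_re]; linarith)
  have hp : ∀ n : ℕ, (R ^ (n + 1)) x ∈ C := by
    intro n
    induction n with
    | zero => simpa using res_mem hT hC hpos hl2 hR hx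
    | succ n ih =>
      rw [pow_succ', cmul_apply]
      exact res_mem hT hC hpos hl2 hR ih
  have t1 := tendsto_expansion hab ha hl1 hR hl3 hQ
  have t2 := tendsto_expansion hab ha hl1 hR (z := (b' : ℂ)) (by
    rw [← Complex.ofReal_sub, Complex.norm_real, Real.norm_of_nonneg (by linarith)]) hQ'
  have ev : ∀ (F : ℕ → E →L[ℂ] E) (G : E →L[ℂ] E), Tendsto F atTop (𝓝 G) →
      Tendsto (fun n => ‖F n x‖) atTop (𝓝 ‖G x‖) := by
    intro F G h
    have : Continuous fun B : E →L[ℂ] E => ‖B x‖ := by fun_prop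
    exact (this.tendsto G).comp h
  refine le_of_tendsto_of_tendsto' (ev _ _ t1) ((ev _ _ t2).const_mul _) fun N => ?_
  set p : ℕ → E := fun n => (R ^ (n + 1)) x with hpdef
  set α : ℕ → ℂ := fun n => ((l : ℂ) - z) ^ n with hα
  set r : ℕ → ℝ := fun n => (l - b') ^ n with hr
  have hαr : ∀ n, ‖α n‖ ≤ r n := by
    intro n
    simp only [hα, hr, norm_pow]
    exact pow_le_pow_left₀ (norm_nonneg _) hl3 n
  set y : E := ∑ n ∈ Finset.range N, r n • p n with hy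
  have hyC : (∑ n ∈ Finset.range N, ((l : ℂ) - (b' : ℂ)) ^ n • R ^ (n + 1)) x = y := by
    rw [ContinuousLinearMap.sum_apply, hy]
    refine Finset.sum_congr rfl fun n _ => ?_
    rw [csmul_apply, ← Complex.ofReal_sub, ← Complex.ofReal_pow, Complex.coe_smul]
  have hsum : (∑ n ∈ Finset.range N, ((l : ℂ) - z) ^ n • R ^ (n + 1)) x
      = (∑ n ∈ Finset.range N, (α n).re • p n)
        + Complex.I • ∑ n ∈ Finset.range N, (α n).im • p n := by
    rw [ContinuousLinearMap.sum_apply, Finset.smul_sum, ← Finset.sum_add_distrib]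
    refine Finset.sum_congr rfl fun n _ => ?_
    rw [csmul_apply, csmul_eq]
  have hreal : ∀ β : ℕ → ℝ, (∀ n, |β n| ≤ r n) →
      ‖∑ n ∈ Finset.range N, β n • p n‖ ≤ (2 * c + 1) * ‖y‖ := by
    intro β hβ
    set u := ∑ n ∈ Finset.range N, β n • p n with hu
    have h1 : y + u ∈ C := by
      rw [hy, hu, ← Finset.sum_add_distrib]
      refine hC.sum _ _ fun n _ => ?_
      rw [← add_smul]
      exact hC.smul _ (by linarith [neg_abs_le (β n), hβ n]) _ (hp n)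
    have h2 : y - u ∈ C := by
      rw [hy, hu, ← Finset.sum_sub_distrib]
      refine hC.sum _ _ fun n _ => ?_
      rw [← sub_smul]
      exact hC.smul _ (by linarith [le_abs_self (β n), hβ n]) _ (hp n)
    have h3 := hnorm (y + u) ((2 : ℝ) • y) h1 (by
      have : (2 : ℝ) • y - (y + u) = y - u := by rw [two_smul]; abel
      rw [this]; exact h2)
    rw [norm_smul, Real.norm_of_nonneg two_pos.le] at h3
    calc ‖u‖ = ‖(y + u) - y‖ := by rw [add_sub_cancel_left]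
      _ ≤ ‖y + u‖ + ‖y‖ := norm_sub_le _ _
      _ ≤ (2 * c + 1) * ‖y‖ := by linarith
  rw [hyC, hsum]
  have h1 := hreal (fun n => (α n).re) (fun n => (Complex.abs_re_le_norm _).trans (hαr n))
  have h2 := hreal (fun n => (α n).im) (fun n => (Complex.abs_im_le_norm _).trans (hαr n))
  calc _ ≤ ‖∑ n ∈ Finset.range N, (α n).re • p n‖
        + ‖Complex.I • ∑ n ∈ Finset.range N, (α n).im • p n‖ := norm_add_le _ _
    _ ≤ (2 * c + 1) * ‖y‖ + (2 * c + 1) * ‖y‖ := by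
        rw [norm_smul, Complex.norm_I, one_mul]
        exact add_le_add h1 h2
    _ = (2 * (2 * c + 1)) * ‖y‖ := by ring

/-- uniform boundedness of the resolvent on right half planes -/
theorem res_bdd {T : ℝ → E →L[ℂ] E} (hT : IsC0Group T) {C : Set E} (hC : IsNGCone C)
    (hpos : ∀ t : ℝ, 0 ≤ t → ∀ x ∈ C, T t x ∈ C) {a b : ℝ} (hab : a < b)
    (ha : ∀ z : ℂ, a < z.re → ∃ R, IsRes T z R) :
    ∃ K : ℝ, 0 < K ∧ ∀ (z : ℂ) (R : E →L[ℂ] E), b ≤ z.re → IsRes T z R → ‖R‖ ≤ K := by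
  obtain ⟨c, hc, hnorm⟩ := hC.normal
  set b' := (a + b) / 2 with hb'
  obtain ⟨Q', hQ'⟩ := ha (b' : ℂ) (by rw [Complex.ofReal_re, hb']; linarith)
  have h : ∀ x : E, ∃ K, ∀ i : {q : ℂ × (E →L[ℂ] E) // b ≤ q.1.re ∧ IsRes T q.1 q.2},
      ‖(fun i : {q : ℂ × (E →L[ℂ] E) // b ≤ q.1.re ∧ IsRes T q.1 q.2} => i.1.2) i x‖ ≤ K := by
    intro x
    obtain ⟨p₁, h1, p₂, h2, p₃, h3, p₄, h4, hx⟩ := hC.gen x
    refine ⟨(2 * (2 * c + 1)) * ‖Q' p₁‖ + (2 * (2 * c + 1)) * ‖Q' p₂‖ +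
      ((2 * (2 * c + 1)) * ‖Q' p₃‖ + (2 * (2 * c + 1)) * ‖Q' p₄‖), ?_⟩
    rintro ⟨⟨z, R⟩, hz, hR⟩
    have hd : ∀ p ∈ C, ‖R p‖ ≤ (2 * (2 * c + 1)) * ‖Q' p‖ := fun p hp =>
      dom_bound hT hC hpos hc hnorm (by rw [hb']; linarith) ha
        (by rw [hb']; simp only at hz; linarith) hR hQ' hp
    simp only
    rw [hx, map_add, map_smul, map_sub, map_sub]
    refine le_trans (norm_add_le _ _) ?_
    rw [norm_smul, Complex.norm_I, one_mul]
    refine add_le_add ((norm_sub_le _ _).trans (add_le_add (hd _ h1) (hd _ h2)))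
      ((norm_sub_le _ _).trans (add_le_add (hd _ h3) (hd _ h4)))
  obtain ⟨K, hK⟩ := banach_steinhaus h
  exact ⟨max K 1, lt_of_lt_of_le one_pos (le_max_right _ _),
    fun z R hz hR => le_trans (hK ⟨⟨z, R⟩, hz, hR⟩) (le_max_left _ _)⟩

end Pool.Agent.TH326.SB
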