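import Mathlib

open Filter Topology MeasureTheory AddCircle
open scoped ComplexConjugate InnerProductSpace

namespace Pool.Agent.TH326.SB

variable {E : Type*} [NormedAddCommGroup E] [InnerProductSpace ℂ E] [CompleteSpace E]

theorem integrable_circle {F : Type*} [NormedAddCommGroup F] (f : UnitAddCircle → F) (hf : Continuous f) :
    Integrable f (haarAddCircle (T := 1)) :=
  hf.integrable_of_hasCompactSupport (HasCompactSupport.of_compactSpace f)

theorem fourier_sub_apply (k : ℤ) (s t : UnitAddCircle) :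
    (fourier (-k) (t - s) : ℂ) = fourier k s * fourier (-k) t := by
  simp only [fourier_apply]
  rw [← Circle.coe_mul, ← toCircle_add]
  congr 2
  rw [smul_sub, neg_smul, neg_smul]
  abel

/-- Parseval inequality/identity for continuous Hilbert space valued functions on the circle, with
square summable coefficients. -/
theorem parseval_circle (U : C(UnitAddCircle, E))
    (hsum : Summable fun k : ℤ => ‖fourierCoeff (T := 1) U k‖ ^ 2) :
    ∫ s : UnitAddCircle, ‖U s‖ ^ 2 ∂haarAddCircle = ∑' k : ℤ, ‖fourierCoeff (T := 1) U k‖ ^ 2 := by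
  have hφc : Continuous fun θ : UnitAddCircle => ∫ s : UnitAddCircle, ⟪U s, U (s + θ)⟫_ℂ ∂haarAddCircle := by
    have := continuous_parametric_integral_of_continuous (μ := haarAddCircle (T := 1))
      (f := fun (θ : UnitAddCircle) (s : UnitAddCircle) => ⟪U s, U (s + θ)⟫_ℂ) (by
        unfold Function.uncurry
        exact Continuous.inner (by fun_prop) (by fun_prop)) (s := Set.univ) isCompact_univ
    simpa using this
  set φ : C(UnitAddCircle, ℂ) := ⟨fun θ : UnitAddCircle => ∫ s : UnitAddCircle, ⟪U s, U (s + θ)⟫_ℂ ∂haarAddCircle, hφc⟩ with hφ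
  have hcoef : ∀ k : ℤ, fourierCoeff (T := 1) φ k
      = ((‖fourierCoeff (T := 1) U k‖ ^ 2 : ℝ) : ℂ) := by
    intro k
    have e1 : fourierCoeff (T := 1) φ k = ∫ θ : UnitAddCircle, ∫ s : UnitAddCircle,
        (fourier (-k) θ : ℂ) * ⟪U s, U (s + θ)⟫_ℂ ∂haarAddCircle ∂haarAddCircle := by
      rw [fourierCoeff]
      refine integral_congr_ae (Eventually.of_forall fun θ => ?_)
      simp only [hφ, ContinuousMap.coe_mk, smul_eq_mul]
      rw [integral_const_mul]
    have e2 : ∫ θ : UnitAddCircle, ∫ s : UnitAddCircle,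
        (fourier (-k) θ : ℂ) * ⟪U s, U (s + θ)⟫_ℂ ∂haarAddCircle ∂haarAddCircle
        = ∫ s : UnitAddCircle, ∫ θ : UnitAddCircle,
        (fourier (-k) θ : ℂ) * ⟪U s, U (s + θ)⟫_ℂ ∂haarAddCircle ∂haarAddCircle := by
      refine integral_integral_swap ?_
      refine Continuous.integrable_of_hasCompactSupport ?_ (HasCompactSupport.of_compactSpace _)
      unfold Function.uncurry
      refine Continuous.mul (by fun_prop) (Continuous.inner (by fun_prop) (by fun_prop))
    have e3 : ∀ s : UnitAddCircle, ∫ θ : UnitAddCircle, (fourier (-k) θ : ℂ) * ⟪U s, U (s + θ)⟫_ℂ ∂haarAddCircle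
        = ⟪(fourier (-k) s : ℂ) • U s, fourierCoeff (T := 1) U k⟫_ℂ := by
      intro s
      have f1 : ∀ θ : UnitAddCircle, (fourier (-k) θ : ℂ) * ⟪U s, U (s + θ)⟫_ℂ
          = ⟪U s, (fourier (-k) θ : ℂ) • U (s + θ)⟫_ℂ := by
        intro θ; rw [inner_smul_right]
      simp only [f1]
      rw [integral_inner (integrable_circle _ (by fun_prop))]
      have f2 : ∫ θ : UnitAddCircle, (fourier (-k) θ : ℂ) • U (s + θ) ∂haarAddCircle
          = (fourier k s : ℂ) • fourierCoeff (T := 1) U k := by
        have g1 := integral_add_left_eq_self (μ := haarAddCircle (T := 1))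
          (fun θ : UnitAddCircle => (fourier (-k) (θ - s) : ℂ) • U θ) s
        have g2 : ∀ θ : UnitAddCircle, (fourier (-k) (s + θ - s) : ℂ) • U (s + θ)
            = (fourier (-k) θ : ℂ) • U (s + θ) := by
          intro θ; rw [add_sub_cancel_left]
        simp only [g2] at g1
        rw [g1, fourierCoeff, ← integral_smul]
        refine integral_congr_ae (Eventually.of_forall fun θ => ?_)
        simp only
        rw [fourier_sub_apply, mul_smul]
      rw [f2, inner_smul_right, inner_smul_left]
      congr 1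
      rw [← fourier_neg, neg_neg]
    rw [e1, e2]
    simp only [e3]
    have e4 : ∫ s : UnitAddCircle, ⟪(fourier (-k) s : ℂ) • U s, fourierCoeff (T := 1) U k⟫_ℂ ∂haarAddCircle
        = conj (∫ s : UnitAddCircle, ⟪fourierCoeff (T := 1) U k, (fourier (-k) s : ℂ) • U s⟫_ℂ
          ∂haarAddCircle) := by
      rw [← integral_conj]
      refine integral_congr_ae (Eventually.of_forall fun s => ?_)
      simp only
      rw [inner_conj_symm]
    rw [e4, integral_inner (integrable_circle _ (by fun_prop))]
    have e5 : ∫ s : UnitAddCircle, (fourier (-k) s : ℂ) • U s ∂haarAddCircle = fourierCoeff (T := 1) U k := rfl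
    rw [e5, inner_self_eq_norm_sq_to_K]
    simp
  have hs : Summable (fourierCoeff (T := 1) φ) := by
    have : (fourierCoeff (T := 1) φ) = fun k => ((‖fourierCoeff (T := 1) U k‖ ^ 2 : ℝ) : ℂ) :=
      funext hcoef
    rw [this]
    exact Complex.summable_ofReal.2 hsum
  have h1 := has_pointwise_sum_fourier_series_of_summable hs 0
  simp only [fourier_eval_zero, smul_eq_mul, mul_one] at h1
  have h2 : φ 0 = ((∫ s : UnitAddCircle, ‖U s‖ ^ 2 ∂haarAddCircle : ℝ) : ℂ) := by
    simp only [hφ, ContinuousMap.coe_mk, add_zero]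
    rw [← integral_complex_ofReal]
    refine integral_congr_ae (Eventually.of_forall fun s => ?_)
    simp only
    rw [inner_self_eq_norm_sq_to_K]
    simp
  rw [h2] at h1
  have h3 : HasSum (fun k : ℤ => ((‖fourierCoeff (T := 1) U k‖ ^ 2 : ℝ) : ℂ))
      ((∫ s : UnitAddCircle, ‖U s‖ ^ 2 ∂haarAddCircle : ℝ) : ℂ) := by
    refine h1.congr_fun ?_ |> id
    intro k
    exact (hcoef k).symm
  exact (Complex.hasSum_ofReal.1 h3).tsum_eq.symm

end Pool.Agent.TH326.SB
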