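import Pool.Agent.TH326.SB5

open Filter Topology MeasureTheory AddCircle
open scoped ComplexConjugate InnerProductSpace

namespace Pool.Agent.TH326.SB

variable {E : Type*} [NormedAddCommGroup E] [InnerProductSpace ℂ E]

/-- `e^{2π i k s}` -/
noncomputable def ee (k : ℤ) (s : ℝ) : ℂ := Complex.exp (2 * Real.pi * Complex.I * k * s)

theorem ee_eq_fourier (k : ℤ) (s : ℝ) : ee k s = fourier k (s : UnitAddCircle) := by
  rw [fourier_coe_apply, ee]; simp

@[fun_prop]
theorem continuous_ee (k : ℤ) : Continuous (ee k) := by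
  unfold ee; fun_prop

theorem ee_neg (k : ℤ) (s : ℝ) : conj (ee k s) = ee (-k) s := by
  rw [ee_eq_fourier, ee_eq_fourier, fourier_neg]

theorem ee_mul (k l : ℤ) (s : ℝ) : ee k s * ee l s = ee (k + l) s := by
  rw [ee_eq_fourier, ee_eq_fourier, ee_eq_fourier, fourier_add]

theorem integral_ee (k : ℤ) : ∫ s in (0 : ℝ)..1, ee k s = if k = 0 then 1 else 0 := by
  have h := fourierCoeff_fourier (T := 1) k
  have h1 := congrFun h 0
  rw [fourierCoeff_eq_intervalIntegral _ _ 0] at h1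
  simp only [neg_zero, fourier_zero, one_smul, zero_add, div_one, Pi.single_apply] at h1
  simp only [ee_eq_fourier]
  rw [h1]
  rcases eq_or_ne k 0 with h0 | h0
  · simp [h0]
  · simp [h0, h0.symm]

/-- `k`-th Fourier coefficient on `[0,1]` -/
noncomputable def fc (f : ℝ → E) (k : ℤ) : E := ∫ s in (0 : ℝ)..1, ee (-k) s • f s

theorem norm_ee (k : ℤ) (s : ℝ) : ‖ee k s‖ = 1 := by
  rw [ee, Complex.norm_exp]; simp

variable [CompleteSpace E]

theorem inner_trig (a : ℤ → E) (F : Finset ℤ) (g : ℝ → E) (hg : Continuous g) :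
    ∫ s in (0 : ℝ)..1, ⟪∑ k ∈ F, ee k s • a k, g s⟫_ℂ = ∑ k ∈ F, ⟪a k, fc g k⟫_ℂ := by
  simp only [sum_inner]
  rw [intervalIntegral.integral_finsetSum]
  · refine Finset.sum_congr rfl fun k _ => ?_
    have h1 : ∀ s : ℝ, ⟪ee k s • a k, g s⟫_ℂ = innerSL ℂ (a k) (ee (-k) s • g s) := by
      intro s
      rw [inner_smul_left, ee_neg, innerSL_apply_apply, inner_smul_right]
    simp only [h1]
    rw [ContinuousLinearMap.intervalIntegral_comp_comm]
    · rfl
    · exact Continuous.intervalIntegrable (by fun_prop) _ _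
  · intro k _
    refine Continuous.intervalIntegrable ?_ _ _
    exact Continuous.inner (by fun_prop) hg

theorem fc_trig (a : ℤ → E) (F : Finset ℤ) {k : ℤ} (hk : k ∈ F) :
    fc (fun s => ∑ l ∈ F, ee l s • a l) k = a k := by
  rw [fc]
  simp only [Finset.smul_sum, smul_smul, ee_mul]
  rw [intervalIntegral.integral_finsetSum]
  · have h1 : ∀ l ∈ F, ∫ s in (0 : ℝ)..1, ee (-k + l) s • a l = if l = k then a k else 0 := by
      intro l _
      rw [intervalIntegral.integral_smul_const, integral_ee]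
      rcases eq_or_ne l k with h | h
      · subst h; simp
      · have : -k + l ≠ 0 := by omega
        simp [h, this]
    rw [Finset.sum_congr rfl h1]
    simp [hk]
  · intro l _
    exact Continuous.intervalIntegrable (by fun_prop) _ _

/-- Bessel's inequality -/
theorem bessel (f : ℝ → E) (hf : Continuous f) (F : Finset ℤ) :
    ∑ k ∈ F, ‖fc f k‖ ^ 2 ≤ ∫ s in (0 : ℝ)..1, ‖f s‖ ^ 2 := by
  set p : ℝ → E := fun s => ∑ k ∈ F, ee k s • fc f k with hp
  have hpc : Continuous p := by rw [hp]; fun_prop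
  have h0 : 0 ≤ ∫ s in (0 : ℝ)..1, ‖f s - p s‖ ^ 2 :=
    intervalIntegral.integral_nonneg zero_le_one fun s _ => by positivity
  have hre : ∀ g : ℝ → E, Continuous g → ∫ s in (0 : ℝ)..1, (⟪p s, g s⟫_ℂ).re
      = (∑ k ∈ F, ⟪fc f k, fc g k⟫_ℂ).re := by
    intro g hg
    rw [← inner_trig (fun k => fc f k) F g hg]
    have := ContinuousLinearMap.intervalIntegral_comp_comm (μ := volume) (a := 0) (b := 1)
      Complex.reCLM (f := fun s => ⟪p s, g s⟫_ℂ) (Continuous.intervalIntegrable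
        (Continuous.inner hpc hg) _ _)
    exact this
  have hpt : ∀ s : ℝ, ‖f s - p s‖ ^ 2 = ‖f s‖ ^ 2 - 2 * (⟪p s, f s⟫_ℂ).re + (⟪p s, p s⟫_ℂ).re := by
    intro s
    have h1 := @norm_sub_sq ℂ E _ _ _ (f s) (p s)
    have h2 : RCLike.re ⟪f s, p s⟫_ℂ = (⟪p s, f s⟫_ℂ).re := by
      rw [← inner_conj_symm (f s) (p s)]
      exact Complex.conj_re _
    have h3 : (⟪p s, p s⟫_ℂ).re = ‖p s‖ ^ 2 := by
      rw [inner_self_eq_norm_sq_to_K]
      norm_cast
    rw [h1, h2, h3]
  have hint : ∫ s in (0 : ℝ)..1, ‖f s - p s‖ ^ 2 = (∫ s in (0 : ℝ)..1, ‖f s‖ ^ 2)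
      - 2 * (∫ s in (0 : ℝ)..1, (⟪p s, f s⟫_ℂ).re) + ∫ s in (0 : ℝ)..1, (⟪p s, p s⟫_ℂ).re := by
    simp only [hpt]
    have i1 : IntervalIntegrable (fun s => ‖f s‖ ^ 2) volume 0 1 :=
      Continuous.intervalIntegrable (by fun_prop) _ _
    have i2 : IntervalIntegrable (fun s => (⟪p s, f s⟫_ℂ).re) volume 0 1 :=
      Continuous.intervalIntegrable (Complex.continuous_re.comp (Continuous.inner hpc hf)) _ _
    have i3 : IntervalIntegrable (fun s => (⟪p s, p s⟫_ℂ).re) volume 0 1 :=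
      Continuous.intervalIntegrable (Complex.continuous_re.comp (Continuous.inner hpc hpc)) _ _
    rw [intervalIntegral.integral_add (i1.sub (i2.const_mul 2)) i3,
      intervalIntegral.integral_sub i1 (i2.const_mul 2), intervalIntegral.integral_const_mul]
  have hself : ∀ v : E, (⟪v, v⟫_ℂ) = ((‖v‖ ^ 2 : ℝ) : ℂ) := by
    intro v; rw [inner_self_eq_norm_sq_to_K]; norm_cast
  have e1 : (∑ k ∈ F, ⟪fc f k, fc f k⟫_ℂ).re = ∑ k ∈ F, ‖fc f k‖ ^ 2 := by
    simp only [hself]
    rw [← Complex.ofReal_sum, Complex.ofReal_re]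
  have e2 : (∑ k ∈ F, ⟪fc f k, fc p k⟫_ℂ).re = ∑ k ∈ F, ‖fc f k‖ ^ 2 := by
    rw [← e1]
    congr 1
    refine Finset.sum_congr rfl fun k hk => ?_
    rw [hp, fc_trig _ _ hk]
  rw [hint, hre f hf, hre p hpc, e1, e2] at h0
  linarith

/-- Parseval for continuous functions `[0,1] → E` with equal endpoint values -/
theorem parseval (f : ℝ → E) (hf : Continuous f) (h01 : f 0 = f 1)
    (hsum : Summable fun k : ℤ => ‖fc f k‖ ^ 2) :
    ∫ s in (0 : ℝ)..1, ‖f s‖ ^ 2 = ∑' k : ℤ, ‖fc f k‖ ^ 2 := by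
  have hc : Continuous (AddCircle.liftIco (1 : ℝ) 0 f) :=
    AddCircle.liftIco_continuous (by simpa using h01) hf.continuousOn
  set U : C(UnitAddCircle, E) := ⟨AddCircle.liftIco (1 : ℝ) 0 f, hc⟩ with hU
  have hval : ∀ s ∈ Set.Ioc (0 : ℝ) 1, U (s : UnitAddCircle) = f s := by
    intro s hs
    rcases eq_or_lt_of_le hs.2 with h | h
    · subst h
      have h1 : ((1 : ℝ) : UnitAddCircle) = ((0 : ℝ) : UnitAddCircle) := by
        have := AddCircle.coe_period (1 : ℝ)
        rw [this]; simp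
      rw [h1, ← h01]
      exact AddCircle.liftIco_coe_apply ⟨le_rfl, by norm_num⟩
    · exact AddCircle.liftIco_coe_apply ⟨hs.1.le, by simpa using h⟩
  have hco : ∀ k : ℤ, fourierCoeff (T := 1) U k = fc f k := by
    intro k
    rw [fourierCoeff_eq_intervalIntegral _ _ 0, fc]
    simp only [div_one, one_smul, zero_add]
    refine intervalIntegral.integral_congr_ae (Eventually.of_forall fun s hs => ?_)
    rw [Set.uIoc_of_le zero_le_one] at hs
    rw [hval s hs, ee_eq_fourier]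
  have h := parseval_circle U (by simpa only [hco] using hsum)
  simp only [hco] at h
  rw [← h, integral_haarAddCircle, inv_one, one_smul, ← UnitAddCircle.intervalIntegral_preimage 0,
    zero_add]
  refine intervalIntegral.integral_congr_ae (Eventually.of_forall fun s hs => ?_)
  rw [Set.uIoc_of_le zero_le_one] at hs
  rw [hval s hs]

end Pool.Agent.TH326.SB
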