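import Pool.Agent.TH326.SB4
import Pool.Agent.TH326.SB6

open Filter Topology MeasureTheory
open scoped InnerProductSpace

namespace Pool.Agent.TH326.SB

variable {E : Type*} [NormedAddCommGroup E] [InnerProductSpace ℂ E] [CompleteSpace E]

/-- the point `2 π i k` -/
noncomputable def tpi (k : ℤ) : ℂ := 2 * Real.pi * Complex.I * k

theorem exp_neg_tpi (k : ℤ) (s : ℝ) : Complex.exp (-(tpi k * s)) = ee (-k) s := by
  rw [tpi, ee]; congr 1; push_cast; ring

theorem ee_one (k : ℤ) : ee k 1 = 1 := by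
  have := Complex.exp_int_mul_two_pi_mul_I k
  rw [ee, ← this]; congr 1; push_cast; ring

theorem ee_sub_one (k : ℤ) (s : ℝ) : ee k (s - 1) = ee k s := by
  have h : ee k s = ee k (s - 1) * ee k 1 := by
    rw [ee, ee, ee, ← Complex.exp_add]; congr 1; push_cast; ring
  rw [h, ee_one, mul_one]

theorem fourier_relation {S : ℝ → E →L[ℂ] E} (hS : IsC0Group S) (k : ℤ) {R : E →L[ℂ] E}
    (hR : IsRes S (tpi k) R) (x : E) :
    fc (fun s => S s x + s • S (s - 1) (x - S 1 x)) k
      = R (fc (fun s => S (s - 1) (x - S 1 x)) k) := by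
  set y : E := x - S 1 x with hy
  have hSk := hS.scale (tpi k)
  have hR0 : IsRes (scale S (tpi k)) 0 R := by
    have := hR.scale hS (tpi k)
    rwa [sub_self] at this
  have hshift : ∀ (s : ℝ) (w : E), ee (-k) s • S (s - 1) w = scale S (tpi k) (s - 1) w := by
    intro s w
    rw [scale_apply, exp_neg_tpi, ee_sub_one]
  have hcont1 : ∀ w : E, Continuous fun s : ℝ => scale S (tpi k) (s - 1) w := fun w =>
    (hSk.cont w).comp (continuous_id.sub continuous_const)
  have hcS : ∀ w : E, Continuous fun s : ℝ => S (s - 1) w := fun w =>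
    (hS.cont w).comp (continuous_id.sub continuous_const)
  -- first part
  have p1 : ∫ s in (0 : ℝ)..1, ee (-k) s • S s x = R y := by
    have h1 := JJ_gen hSk 1 x
    have h2 := hR0.2 _ _ h1
    rw [JJ_apply, zero_smul, zero_sub, neg_sub] at h2
    have h3 : scale S (tpi k) 1 x = S 1 x := by
      rw [scale_apply, exp_neg_tpi, ee_one, one_smul]
    rw [h3, ← hy] at h2
    rw [h2]
    refine intervalIntegral.integral_congr fun s _ => ?_
    beta_reduce
    rw [scale_apply, exp_neg_tpi]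
  -- second part
  set v : E := R y with hv
  have hgv : IsGen (scale S (tpi k)) v (-y) := by
    have := hR0.1 y
    rwa [zero_smul, zero_sub] at this
  have p2 : (∫ s in (0 : ℝ)..1, (scale S (tpi k) (s - 1) v + s • scale S (tpi k) (s - 1) (-y)))
      = v := by
    have hd : ∀ s : ℝ, HasDerivAt (fun s : ℝ => s • scale S (tpi k) (s - 1) v)
        (s • scale S (tpi k) (s - 1) (-y) + (1 : ℝ) • scale S (tpi k) (s - 1) v) s := by
      intro s
      have h1 := (hgv.hasDerivAt hSk (s - 1))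
      have h2 : HasDerivAt (fun s : ℝ => scale S (tpi k) (s - 1) v)
          (scale S (tpi k) (s - 1) (-y)) s := h1.comp_sub_const s 1
      exact (hasDerivAt_id s).smul h2
    have h3 := intervalIntegral.integral_eq_sub_of_hasDerivAt (a := 0) (b := 1)
      (fun s _ => hd s) (Continuous.intervalIntegrable (by
        refine Continuous.add (continuous_id.smul (hcont1 _)) ?_
        exact (hcont1 _).const_smul _) _ _)
    simp only [one_smul, sub_self, zero_smul, sub_zero, hSk.zero, cone_apply] at h3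
    refine Eq.trans ?_ h3
    refine intervalIntegral.integral_congr fun s _ => ?_
    beta_reduce
    rw [add_comm]
  have p3 : (∫ s in (0 : ℝ)..1, scale S (tpi k) (s - 1) v)
      = R (∫ s in (0 : ℝ)..1, ee (-k) s • S (s - 1) y) := by
    simp only [hshift]
    rw [← ContinuousLinearMap.intervalIntegral_comp_comm _ ((hcont1 y).intervalIntegrable _ _)]
    refine intervalIntegral.integral_congr fun s _ => ?_
    beta_reduce
    rw [hv, hR0.comm hSk]
  have p4 : (∫ s in (0 : ℝ)..1, ee (-k) s • (s • S (s - 1) y))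
      = R (∫ s in (0 : ℝ)..1, ee (-k) s • S (s - 1) y) - v := by
    have hc2 : Continuous fun s : ℝ => s • scale S (tpi k) (s - 1) (-y) :=
      continuous_id.smul (hcont1 (-y))
    rw [intervalIntegral.integral_add ((hcont1 v).intervalIntegrable _ _)
      (hc2.intervalIntegrable _ _), p3] at p2
    have h1 : (∫ s in (0 : ℝ)..1, s • scale S (tpi k) (s - 1) (-y))
        = - ∫ s in (0 : ℝ)..1, ee (-k) s • (s • S (s - 1) y) := by
      rw [← intervalIntegral.integral_neg]
      refine intervalIntegral.integral_congr fun s _ => ?_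
      beta_reduce
      rw [map_neg, smul_neg, ← hshift, smul_comm]
    rw [h1] at p2
    rw [eq_sub_iff_add_eq, ← p2]
    abel
  rw [fc, fc]
  simp only [smul_add]
  rw [intervalIntegral.integral_add, p1, p4]
  · abel
  · exact ((continuous_ee (-k)).smul (hS.cont x)).intervalIntegrable _ _
  · have hc3 : Continuous fun s : ℝ => ee (-k) s • (s • S (s - 1) y) :=
      (continuous_ee (-k)).smul (continuous_id.smul (hcS y))
    exact hc3.intervalIntegrable _ _

/-- Gearhart–Prüss type estimate -/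
theorem gp_bound {S : ℝ → E →L[ℂ] E} (hS : IsC0Group S) {K M : ℝ} (hK : 0 ≤ K) (hM0 : 0 ≤ M)
    (hM : ∀ s ∈ Set.Icc (-1 : ℝ) 1, ‖S s‖ ≤ M)
    (hres : ∀ k : ℤ, ∃ R, IsRes S (tpi k) R ∧ ‖R‖ ≤ K) (x : E) :
    ‖x‖ ≤ (M + M * K * M) * ‖x - S 1 x‖ := by
  choose R hR hRK using hres
  set y : E := x - S 1 x with hy
  set u : ℝ → E := fun s => S s x + s • S (s - 1) y with hu
  set f : ℝ → E := fun s => S (s - 1) y with hf
  have hfc : Continuous f := (hS.cont y).comp (continuous_id.sub continuous_const)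
  have huc : Continuous u := (hS.cont x).add (continuous_id.smul hfc)
  have hrel : ∀ k, fc u k = R k (fc f k) := fun k => fourier_relation hS k (hR k) x
  have hle : ∀ k, ‖fc u k‖ ^ 2 ≤ K ^ 2 * ‖fc f k‖ ^ 2 := by
    intro k
    rw [hrel, ← mul_pow]
    refine pow_le_pow_left₀ (norm_nonneg _) ?_ 2
    exact ((R k).le_opNorm _).trans (mul_le_mul_of_nonneg_right (hRK k) (norm_nonneg _))
  have hfsum : Summable fun k : ℤ => ‖fc f k‖ ^ 2 :=
    summable_of_sum_le (fun _ => by positivity) (fun F => bessel f hfc F)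
  have hftsum : ∑' k : ℤ, ‖fc f k‖ ^ 2 ≤ ∫ s in (0 : ℝ)..1, ‖f s‖ ^ 2 :=
    hfsum.tsum_le_of_sum_le (fun F => bessel f hfc F)
  have husum : Summable fun k : ℤ => ‖fc u k‖ ^ 2 :=
    Summable.of_nonneg_of_le (fun _ => by positivity) hle (hfsum.mul_left _)
  have h01 : u 0 = u 1 := by
    simp only [hu, hy, zero_smul, hS.zero, cone_apply, sub_self, one_smul, add_zero]
    abel
  have hpars := parseval u huc h01 husum
  have hf2 : ∫ s in (0 : ℝ)..1, ‖f s‖ ^ 2 ≤ (M * ‖y‖) ^ 2 := by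
    have : ∫ s in (0 : ℝ)..1, ‖f s‖ ^ 2 ≤ ∫ s in (0 : ℝ)..1, (M * ‖y‖) ^ 2 := by
      refine intervalIntegral.integral_mono_on zero_le_one
        (Continuous.intervalIntegrable (by fun_prop) _ _)
        (Continuous.intervalIntegrable (by fun_prop) _ _) fun s hs => ?_
      refine pow_le_pow_left₀ (norm_nonneg _) ?_ 2
      refine ((S (s - 1)).le_opNorm y).trans (mul_le_mul_of_nonneg_right (hM _ ?_) (norm_nonneg _))
      exact ⟨by linarith [hs.1], by linarith [hs.2]⟩
    simpa using this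
  have hu2 : ∫ s in (0 : ℝ)..1, ‖u s‖ ^ 2 ≤ (K * (M * ‖y‖)) ^ 2 := by
    rw [hpars]
    calc ∑' k : ℤ, ‖fc u k‖ ^ 2 ≤ ∑' k : ℤ, K ^ 2 * ‖fc f k‖ ^ 2 :=
          husum.tsum_le_tsum hle (hfsum.mul_left _)
      _ = K ^ 2 * ∑' k : ℤ, ‖fc f k‖ ^ 2 := tsum_mul_left
      _ ≤ K ^ 2 * (M * ‖y‖) ^ 2 := by
          refine mul_le_mul_of_nonneg_left (hftsum.trans hf2) (by positivity)
      _ = (K * (M * ‖y‖)) ^ 2 := by ring
  have hpt : ∀ s ∈ Set.Icc (0 : ℝ) 1, ‖x‖ - M * ‖y‖ ≤ M * ‖u s‖ := by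
    intro s hs
    have e1 : x = S (-s) (u s) - s • S (-1) y := by
      have h1 : S (-s) (S s x) = x := by
        rw [← hS.apply_add, neg_add_cancel, hS.zero]; rfl
      have h2 : S (-s) (s • S (s - 1) y) = s • S (-1) y := by
        rw [ContinuousLinearMap.map_smul_of_tower, ← hS.apply_add]
        congr 3; ring
      simp only [hu]
      rw [map_add, h1, h2, add_sub_cancel_right]
    have e2 : ‖x‖ ≤ ‖S (-s) (u s)‖ + ‖s • S (-1) y‖ := by
      conv_lhs => rw [e1]
      exact norm_sub_le _ _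
    have e3 : ‖S (-s) (u s)‖ ≤ M * ‖u s‖ :=
      ((S (-s)).le_opNorm _).trans (mul_le_mul_of_nonneg_right
        (hM _ ⟨by linarith [hs.2], by linarith [hs.1]⟩) (norm_nonneg _))
    have e4 : ‖s • S (-1) y‖ ≤ M * ‖y‖ := by
      rw [norm_smul, Real.norm_of_nonneg hs.1]
      have : ‖S (-1) y‖ ≤ M * ‖y‖ :=
        ((S (-1)).le_opNorm _).trans (mul_le_mul_of_nonneg_right
          (hM _ ⟨by linarith, by linarith⟩) (norm_nonneg _))
      calc s * ‖S (-1) y‖ ≤ 1 * ‖S (-1) y‖ := mul_le_mul_of_nonneg_right hs.2 (norm_nonneg _)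
        _ ≤ M * ‖y‖ := by rw [one_mul]; exact this
    linarith
  by_cases hcase : ‖x‖ - M * ‖y‖ ≤ 0
  · have : 0 ≤ M * K * M * ‖y‖ := by positivity
    calc ‖x‖ ≤ M * ‖y‖ := by linarith
      _ ≤ (M + M * K * M) * ‖y‖ := by linarith
  · push Not at hcase
    have h1 : (‖x‖ - M * ‖y‖) ^ 2 ≤ M ^ 2 * ∫ s in (0 : ℝ)..1, ‖u s‖ ^ 2 := by
      rw [← intervalIntegral.integral_const_mul]
      have : ∫ s in (0 : ℝ)..1, (‖x‖ - M * ‖y‖) ^ 2 ≤ ∫ s in (0 : ℝ)..1, M ^ 2 * ‖u s‖ ^ 2 := by
        refine intervalIntegral.integral_mono_on zero_le_one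
          (Continuous.intervalIntegrable (by fun_prop) _ _)
          (Continuous.intervalIntegrable (by fun_prop) _ _) fun s hs => ?_
        rw [← mul_pow]
        exact pow_le_pow_left₀ hcase.le (hpt s hs) 2
      simpa using this
    have h2 : (‖x‖ - M * ‖y‖) ^ 2 ≤ (M * (K * (M * ‖y‖))) ^ 2 := by
      calc _ ≤ M ^ 2 * ∫ s in (0 : ℝ)..1, ‖u s‖ ^ 2 := h1
        _ ≤ M ^ 2 * (K * (M * ‖y‖)) ^ 2 := mul_le_mul_of_nonneg_left hu2 (by positivity)
        _ = _ := by ring
    have h3 := le_of_sq_le_sq h2 (by positivity)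
    linarith

end Pool.Agent.TH326.SB
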