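import Pool.Agent.TH326.SB7

open Filter Topology MeasureTheory
open scoped InnerProductSpace

namespace Pool.Agent.TH326.SB

variable {E : Type*} [NormedAddCommGroup E] [InnerProductSpace ℂ E] [CompleteSpace E]

theorem isUnit_one_sub_iff {T : ℝ → E →L[ℂ] E} (ζ : ℂ) :
    IsUnit (1 - scale T ζ 1) ↔ Complex.exp ζ ∉ spectrum ℂ (T 1) := by
  rw [spectrum.mem_iff, not_not]
  have h : (1 : E →L[ℂ] E) - scale T ζ 1
      = Complex.exp (-ζ) • (algebraMap ℂ (E →L[ℂ] E) (Complex.exp ζ) - T 1) := by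
    rw [Algebra.algebraMap_eq_smul_one, smul_sub, smul_smul, ← Complex.exp_add, neg_add_cancel,
      Complex.exp_zero, one_smul, scale, Complex.ofReal_one, mul_one]
  rw [h]
  constructor
  · intro h1
    have h2 : algebraMap ℂ (E →L[ℂ] E) (Complex.exp ζ) - T 1 = Complex.exp ζ •
        (Complex.exp (-ζ) • (algebraMap ℂ (E →L[ℂ] E) (Complex.exp ζ) - T 1)) := by
      rw [smul_smul, ← Complex.exp_add, add_neg_cancel, Complex.exp_zero, one_smul]
    rw [h2]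
    exact (IsUnit.smul (Units.mk0 (Complex.exp ζ) (Complex.exp_ne_zero ζ)) h1)
  · intro h1
    exact (IsUnit.smul (Units.mk0 (Complex.exp (-ζ)) (Complex.exp_ne_zero (-ζ))) h1)

/-- spectrum of `T_1` from a uniformly bounded resolvent -/
theorem spectrum_T_one [Nontrivial E] {T : ℝ → E →L[ℂ] E} (hT : IsC0Group T) {a b : ℝ}
    (hab : a < b) (ha : ∀ z : ℂ, a < z.re → ∃ R, IsRes T z R) {K : ℝ} (hK0 : 0 < K)
    (hK : ∀ (z : ℂ) (R : E →L[ℂ] E), b ≤ z.re → IsRes T z R → ‖R‖ ≤ K) :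
    ∀ μ ∈ spectrum ℂ (T 1), ‖μ‖ ≤ Real.exp b := by
  intro μ₀ hμ₀
  by_contra hlt₀
  push Not at hlt₀
  obtain ⟨μ, hμ, hmax⟩ := (spectrum.isCompact (T 1)).exists_isMaxOn ⟨μ₀, hμ₀⟩
    continuous_norm.continuousOn
  have hlt : Real.exp b < ‖μ‖ := lt_of_lt_of_le hlt₀ (hmax hμ₀)
  have hμ0 : μ ≠ 0 := norm_pos_iff.1 ((Real.exp_pos b).trans hlt)
  have hμn : 0 < ‖μ‖ := norm_pos_iff.2 hμ0
  set ζ₀ : ℂ := Complex.log μ with hζ₀
  have hexp : Complex.exp ζ₀ = μ := Complex.exp_log hμ0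
  have hre : b < ζ₀.re := by
    rw [hζ₀, Complex.log_re]
    exact (Real.lt_log_iff_exp_lt hμn).2 hlt
  obtain ⟨M, hM0, hM⟩ := hT.bdd (-1) 1
  set M' : ℝ := Real.exp (|ζ₀.re| + 1) * M with hM'
  have hM'0 : 0 < M' := by positivity
  set C : ℝ := M' + M' * K * M' with hC
  have hC0 : 0 < C := by positivity
  have key : ∀ ε : ℝ, 0 < ε → ε ≤ 1 → (Real.exp ε - 1) * M' * C < 1 →
      IsUnit (1 - scale T ζ₀ 1) := by
    intro ε hε hε1 hsmall
    set ζ : ℂ := ζ₀ + ε with hζ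
    have hζre : ζ.re = ζ₀.re + ε := by rw [hζ, Complex.add_re, Complex.ofReal_re]
    have hS := hT.scale ζ
    have hSM : ∀ s ∈ Set.Icc (-1 : ℝ) 1, ‖scale T ζ s‖ ≤ M' := by
      intro s hs
      rw [norm_scale, hM']
      refine mul_le_mul (Real.exp_le_exp.2 ?_) (hM s hs) (norm_nonneg _) (Real.exp_pos _).le
      have h1 : |s| ≤ 1 := abs_le.2 hs
      have h2 : |ζ.re| ≤ |ζ₀.re| + 1 := by
        rw [hζre]
        refine (abs_add_le _ _).trans ?_
        rw [abs_of_pos hε]; linarith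
      calc -(ζ.re * s) ≤ |ζ.re * s| := neg_le_abs _
        _ = |ζ.re| * |s| := abs_mul _ _
        _ ≤ |ζ.re| * 1 := mul_le_mul_of_nonneg_left h1 (abs_nonneg _)
        _ ≤ |ζ₀.re| + 1 := by linarith
    have htpi : ∀ k : ℤ, (tpi k + ζ).re = ζ.re := by
      intro k
      have : (tpi k).re = 0 := by simp [tpi]
      rw [Complex.add_re, this, zero_add]
    have hb := gp_bound hS hK0.le hM'0.le hSM (fun k => by
      obtain ⟨R, hR⟩ := ha (tpi k + ζ) (by rw [htpi, hζre]; linarith)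
      refine ⟨R, ?_, hK _ R (by rw [htpi, hζre]; linarith) hR⟩
      have := hR.scale hT ζ
      rwa [add_sub_cancel_right] at this)
    have hunit : IsUnit (1 - scale T ζ 1) := by
      rw [isUnit_one_sub_iff]
      intro hmem
      have h1 : ‖Complex.exp ζ‖ ≤ ‖μ‖ := hmax hmem
      rw [hζ, Complex.exp_add, hexp, norm_mul, Complex.norm_exp, Complex.ofReal_re] at h1
      have h2 : 1 < Real.exp ε := Real.one_lt_exp_iff.2 hε
      have h3 : ‖μ‖ * 1 < ‖μ‖ * Real.exp ε := mul_lt_mul_of_pos_left h2 hμn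
      linarith
    obtain ⟨U, hU⟩ := hunit
    have hUinv : ‖(U⁻¹ : (E →L[ℂ] E)ˣ).val‖ ≤ C := by
      refine ContinuousLinearMap.opNorm_le_bound _ hC0.le fun y => ?_
      have h1 := hb ((U⁻¹ : (E →L[ℂ] E)ˣ).val y)
      have h2 : (U⁻¹ : (E →L[ℂ] E)ˣ).val y - scale T ζ 1 ((U⁻¹ : (E →L[ℂ] E)ˣ).val y) = y := by
        have := congrArg (fun B : E →L[ℂ] E => B y) U.mul_inv
        simp only [hU, cmul_apply, csub_apply, cone_apply] at this
        exact this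
      rwa [h2] at h1
    have hUpos : 0 < ‖(U⁻¹ : (E →L[ℂ] E)ˣ).val‖ := Units.norm_pos _
    set t : E →L[ℂ] E := (1 - Complex.exp ε) • scale T ζ 1 with ht
    have htn : ‖t‖ ≤ (Real.exp ε - 1) * M' := by
      rw [ht, norm_smul]
      refine mul_le_mul ?_ (hSM 1 ⟨by norm_num, le_rfl⟩) (norm_nonneg _) ?_
      · rw [← Complex.ofReal_exp, ← Complex.ofReal_one, ← Complex.ofReal_sub, Complex.norm_real,
          Real.norm_eq_abs, abs_sub_comm]
        rw [abs_of_nonneg]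
        linarith [Real.one_lt_exp_iff.2 hε]
      · linarith [Real.one_lt_exp_iff.2 hε]
    have htlt : ‖t‖ < ‖(U⁻¹ : (E →L[ℂ] E)ˣ).val‖⁻¹ := by
      have h1 : (Real.exp ε - 1) * M' < C⁻¹ := by
        rw [← one_div, lt_div_iff₀ hC0]; exact hsmall
      exact lt_of_le_of_lt htn (lt_of_lt_of_le h1 (inv_anti₀ hUpos hUinv))
    have hsum : (U.add t htlt : E →L[ℂ] E) = 1 - scale T ζ₀ 1 := by
      rw [Units.val_add, hU, ht]
      have : scale T ζ₀ 1 = Complex.exp ε • scale T ζ 1 := by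
        rw [scale, scale, smul_smul, ← Complex.exp_add, hζ]
        congr 2
        push_cast; ring
      rw [this, sub_smul, one_smul]
      abel
    rw [← hsum]
    exact (U.add t htlt).isUnit
  obtain ⟨ε, h1, h2, h3⟩ : ∃ ε : ℝ, 0 < ε ∧ ε ≤ 1 ∧ (Real.exp ε - 1) * M' * C < 1 := by
    have hc : Tendsto (fun ε : ℝ => (Real.exp ε - 1) * M' * C) (𝓝[>] 0) (𝓝 0) := by
      have : Continuous fun ε : ℝ => (Real.exp ε - 1) * M' * C := by fun_prop
      have h := this.tendsto 0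
      simp only [Real.exp_zero, sub_self, zero_mul] at h
      exact h.mono_left nhdsWithin_le_nhds
    have e1 := hc.eventually (gt_mem_nhds one_pos)
    have e2 : ∀ᶠ ε : ℝ in 𝓝[>] 0, ε ∈ Set.Ioc (0 : ℝ) 1 := Ioc_mem_nhdsGT one_pos
    obtain ⟨ε, h1, h2⟩ := (e1.and e2).exists
    exact ⟨ε, h2.1, h2.2, h1⟩
  have h4 := key ε h1 h2 h3
  rw [isUnit_one_sub_iff, hexp] at h4
  exact h4 hμ

end Pool.Agent.TH326.SB
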