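import Pool.Agent.TH326.SB8

open Filter Topology MeasureTheory
open scoped InnerProductSpace

namespace Pool.Agent.TH326.SB

variable {E : Type*} [NormedAddCommGroup E] [InnerProductSpace ℂ E] [CompleteSpace E]

theorem bddAbove_re [Nontrivial E] {T : ℝ → E →L[ℂ] E} (hT : IsC0Group T) :
    BddAbove (Complex.re '' genSpectrum T) := by
  refine ⟨Real.log ‖T 1‖, ?_⟩
  rintro _ ⟨z, hz, rfl⟩
  have := re_le_of_mem hT hz 1
  rwa [mul_one] at this

/-- spectrum of `T_1` is in the disc of radius `e^a` as soon as `{re > a}` is in the resolvent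
set -/
theorem spectrum_T_one' [Nontrivial E] {T : ℝ → E →L[ℂ] E} (hT : IsC0Group T) {C : Set E}
    (hC : IsNGCone C) (hpos : ∀ t : ℝ, 0 ≤ t → ∀ x ∈ C, T t x ∈ C) {a : ℝ}
    (ha : ∀ z : ℂ, a < z.re → ∃ R, IsRes T z R) :
    ∀ μ ∈ spectrum ℂ (T 1), ‖μ‖ ≤ Real.exp a := by
  intro μ hμ
  have h : ∀ b : ℝ, a < b → ‖μ‖ ≤ Real.exp b := by
    intro b hb
    obtain ⟨K, hK0, hK⟩ := res_bdd hT hC hpos hb ha
    exact spectrum_T_one hT hb ha hK0 hK μ hμ
  have hc : Tendsto (fun b : ℝ => Real.exp b) (𝓝[>] a) (𝓝 (Real.exp a)) :=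
    (Real.continuous_exp.tendsto a).mono_left nhdsWithin_le_nhds
  refine ge_of_tendsto hc ?_
  filter_upwards [self_mem_nhdsWithin] with b hb
  exact h b hb

theorem nonempty_spectrum [Nontrivial E] {T : ℝ → E →L[ℂ] E} (hT : IsC0Group T) {C : Set E}
    (hC : IsNGCone C) (hpos : ∀ t : ℝ, 0 ≤ t → ∀ x ∈ C, T t x ∈ C) :
    (genSpectrum T).Nonempty := by
  by_contra hne
  rw [Set.not_nonempty_iff_eq_empty] at hne
  have hall : ∀ z : ℂ, ∃ R, IsRes T z R := by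
    intro z
    by_contra h
    have : z ∈ genSpectrum T := h
    rw [hne] at this
    exact this
  obtain ⟨μ, hμ⟩ := spectrum.nonempty (T 1)
  have hμ0 : μ ≠ 0 := by
    rintro rfl
    rw [spectrum.zero_mem_iff] at hμ
    exact hμ ⟨⟨T 1, T (-1), hT.mul_neg 1, hT.neg_mul 1⟩, rfl⟩
  have hμn : 0 < ‖μ‖ := norm_pos_iff.2 hμ0
  have h1 := spectrum_T_one' hT hC hpos (a := Real.log ‖μ‖ - 1) (fun z _ => hall z) μ hμ
  have h2 : Real.exp (Real.log ‖μ‖ - 1) < ‖μ‖ := by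
    calc Real.exp (Real.log ‖μ‖ - 1) < Real.exp (Real.log ‖μ‖) := Real.exp_lt_exp.2 (by linarith)
      _ = ‖μ‖ := Real.exp_log hμn
  linarith

theorem main [Nontrivial E] {T : ℝ → E →L[ℂ] E} (hT : IsC0Group T) {C : Set E}
    (hC : IsNGCone C) (hpos : ∀ t : ℝ, 0 ≤ t → ∀ x ∈ C, T t x ∈ C) :
    (genSpectrum T).Nonempty ∧ BddAbove (Complex.re '' genSpectrum T) ∧
      Tendsto (fun t : ℝ => Real.log ‖T t‖ / t) atTop
        (𝓝 (sSup (Complex.re '' genSpectrum T))) := by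
  have hne := nonempty_spectrum hT hC hpos
  have hbdd := bddAbove_re hT
  refine ⟨hne, hbdd, ?_⟩
  set σ := sSup (Complex.re '' genSpectrum T) with hσ
  have ha : ∀ z : ℂ, σ < z.re → ∃ R, IsRes T z R := by
    intro z hz
    by_contra h
    have hmem : z ∈ genSpectrum T := h
    have := le_csSup hbdd (Set.mem_image_of_mem _ hmem)
    linarith
  have hsp := spectrum_T_one' hT hC hpos ha
  have hlow : ∀ t : ℝ, 0 < t → σ ≤ Real.log ‖T t‖ / t := by
    intro t ht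
    refine csSup_le (hne.image _) ?_
    rintro _ ⟨z, hz, rfl⟩
    rw [le_div_iff₀ ht]
    exact re_le_of_mem hT hz t
  obtain ⟨M, hM0, hM⟩ := hT.bdd 0 1
  have hup : ∀ ε : ℝ, 0 < ε → ∀ᶠ t : ℝ in atTop, Real.log ‖T t‖ / t < σ + ε := by
    intro ε hε
    have h1 := eventually_norm_pow_le (T 1) (r := Real.exp σ) (r' := Real.exp (σ + ε / 2))
      (Real.exp_pos _).le (Real.exp_lt_exp.2 (by linarith)) hsp
    have h2 : ∀ᶠ t : ℝ in atTop, ‖T 1 ^ ⌊t⌋₊‖ ≤ Real.exp (σ + ε / 2) ^ ⌊t⌋₊ :=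
      tendsto_nat_floor_atTop.eventually h1
    have h3 : ∀ᶠ t : ℝ in atTop, (|Real.log M| + |σ + ε / 2| + 1) / (ε / 2) ≤ t :=
      eventually_ge_atTop _
    filter_upwards [h2, h3, eventually_gt_atTop 0] with t e1 e2 e3
    have hfl : (⌊t⌋₊ : ℝ) ≤ t := Nat.floor_le e3.le
    have hfl2 : t < ⌊t⌋₊ + 1 := Nat.lt_floor_add_one t
    have e4 : ‖T t‖ ≤ M * Real.exp (σ + ε / 2) ^ ⌊t⌋₊ := by
      have : T t = T (t - ⌊t⌋₊) * T 1 ^ ⌊t⌋₊ := by
        rw [← norm_lt_pow hT, ← hT.add, sub_add_cancel]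
      rw [this]
      refine (norm_mul_le _ _).trans (mul_le_mul (hM _ ⟨by linarith, by linarith⟩) e1
        (norm_nonneg _) hM0.le)
    have e5 : Real.log ‖T t‖ ≤ Real.log M + ⌊t⌋₊ * (σ + ε / 2) := by
      have := Real.log_le_log (norm_pos_T hT t) e4
      rwa [Real.log_mul hM0.ne' (pow_pos (Real.exp_pos _) _).ne', Real.log_pow, Real.log_exp]
        at this
    rw [div_lt_iff₀ e3]
    have e6 : (⌊t⌋₊ : ℝ) * (σ + ε / 2) ≤ t * (σ + ε / 2) + |σ + ε / 2| := by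
      have h5 : (⌊t⌋₊ - t) * (σ + ε / 2) ≤ |σ + ε / 2| := by
        calc (⌊t⌋₊ - t) * (σ + ε / 2) ≤ |(⌊t⌋₊ - t) * (σ + ε / 2)| := le_abs_self _
          _ = |⌊t⌋₊ - t| * |σ + ε / 2| := abs_mul _ _
          _ ≤ 1 * |σ + ε / 2| := by
              refine mul_le_mul_of_nonneg_right ?_ (abs_nonneg _)
              rw [abs_le]; constructor <;> linarith
          _ = _ := one_mul _
      linarith
    have e7 : |Real.log M| + |σ + ε / 2| + 1 ≤ t * (ε / 2) := by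
      rwa [div_le_iff₀ (by positivity)] at e2
    have e8 := le_abs_self (Real.log M)
    nlinarith
  rw [Metric.tendsto_nhds]
  intro ε hε
  filter_upwards [hup ε hε, eventually_gt_atTop 0] with t h1 h2
  rw [Real.dist_eq, abs_lt]
  have := hlow t h2
  constructor <;> linarith

end Pool.Agent.TH326.SB
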