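import Mathlib

/-!
# `C₀`-groups, generators, resolvents, growth (definitions)
-/

open Filter Topology

namespace Pool.Agent.TH326.SB

/-- A strongly continuous one-parameter group of bounded operators. -/
structure IsC0Group {E : Type*} [NormedAddCommGroup E] [NormedSpace ℂ E]
    (T : ℝ → E →L[ℂ] E) : Prop where
  zero : T 0 = 1
  add : ∀ s t : ℝ, T (s + t) = T s * T t
  cont : ∀ x : E, Continuous fun t : ℝ => T t x

/-- `IsGen T x y` : `x` is in the domain of the generator `A` of `T` and `A x = y`. -/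
def IsGen {E : Type*} [NormedAddCommGroup E] [NormedSpace ℂ E]
    (T : ℝ → E →L[ℂ] E) (x y : E) : Prop :=
  Tendsto (fun h : ℝ => h⁻¹ • (T h x - x)) (𝓝[≠] (0 : ℝ)) (𝓝 y)

/-- `IsRes T z R` : `R = (z - A)⁻¹`, where `A` is the generator of `T`. -/
def IsRes {E : Type*} [NormedAddCommGroup E] [NormedSpace ℂ E]
    (T : ℝ → E →L[ℂ] E) (z : ℂ) (R : E →L[ℂ] E) : Prop :=
  (∀ y : E, IsGen T (R y) (z • R y - y)) ∧ ∀ x w : E, IsGen T x w → R (z • x - w) = x

/-- The spectrum of the generator of `T`. -/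
def genSpectrum {E : Type*} [NormedAddCommGroup E] [NormedSpace ℂ E]
    (T : ℝ → E →L[ℂ] E) : Set ℂ :=
  {z : ℂ | ¬ ∃ R : E →L[ℂ] E, IsRes T z R}

end Pool.Agent.TH326.SB
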