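import Mathlib

set_option autoImplicit false

/-!
The Urysohn space is an absolute Lipschitz retract, part 1: extension properties of the Urysohn
space for finitely many points.
-/

namespace Pool.Agent.TH326.Ury

open Set Filter Topology

/-- the two defining properties of the Urysohn space: it contains isometric copies of all separable
metric spaces, and isometries between finite subsets extend to isometries of the whole space -/
structure IsUrysohn (U : Type) [MetricSpace U] : Prop where
  univ : ∀ (X : Type) [MetricSpace X] [TopologicalSpace.SeparableSpace X],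
    ∃ f : X → U, Isometry f
  homog : ∀ (s : Set U), s.Finite → ∀ g : s → U, Isometry g →
    ∃ h : U ≃ᵢ U, ∀ x : s, h (x : U) = g x

variable {U : Type} [MetricSpace U]

/-- the distance of a one-point extension -/
noncomputable def extDist (S : Set U) (g : U → ℝ) : Option S → Option S → ℝ
  | none, none => 0
  | none, some a => g a
  | some a, none => g a
  | some a, some b => dist a b

/-- the one-point extension metric space -/
@[reducible] noncomputable def extMetric (S : Set U) (g : U → ℝ) (h0 : ∀ a ∈ S, 0 < g a)
    (h1 : ∀ a ∈ S, ∀ b ∈ S, g a ≤ g b + dist a b) (h2 : ∀ a ∈ S, ∀ b ∈ S, dist a b ≤ g a + g b) :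
    MetricSpace (Option S) where
  dist := extDist S g
  dist_self x := by
    cases x <;> simp [extDist]
  dist_comm x y := by
    cases x <;> cases y <;> simp [extDist, dist_comm]
  dist_triangle x y z := by
    rcases x with _ | ⟨a, ha⟩ <;> rcases y with _ | ⟨b, hb⟩ <;> rcases z with _ | ⟨c, hc⟩
    · simp [extDist]
    · simp [extDist]
    · have := h0 b hb
      simp only [extDist]
      linarith
    · have := h1 c hc b hb
      have h3 := dist_comm b c
      show g c ≤ g b + dist b c
      linarith
    · simp [extDist]
    · exact h2 a ha c hc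
    · have := h1 a ha b hb
      show g a ≤ dist a b + g b
      linarith
    · exact dist_triangle a b c
  eq_of_dist_eq_zero {x y} h := by
    rcases x with _ | ⟨a, ha⟩ <;> rcases y with _ | ⟨b, hb⟩
    · rfl
    · exact absurd h (h0 b hb).ne'
    · exact absurd h (h0 a ha).ne'
    · have : dist a b = 0 := h
      rw [dist_eq_zero] at this
      subst this
      rfl

/-- every Katetov function on a finite subset of the Urysohn space is realized -/
theorem IsUrysohn.realize (hU : IsUrysohn U) {S : Set U} (hS : S.Finite) (g : U → ℝ)
    (h1 : ∀ a ∈ S, ∀ b ∈ S, g a ≤ g b + dist a b) (h2 : ∀ a ∈ S, ∀ b ∈ S, dist a b ≤ g a + g b) :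
    ∃ u : U, ∀ a ∈ S, dist u a = g a := by
  by_cases h0 : ∀ a ∈ S, 0 < g a
  · let : MetricSpace (Option S) := extMetric S g h0 h1 h2
    haveI : Finite S := hS
    haveI : Finite (Option S) := inferInstance
    haveI : TopologicalSpace.SeparableSpace (Option S) := inferInstance
    obtain ⟨f, hf⟩ := hU.univ (Option S)
    let s : Set U := range fun a : S => f (some a)
    have hs : s.Finite := finite_range _
    have hinj : Function.Injective fun a : S => f (some a) := fun a b hab =>
      Option.some_injective _ (hf.injective hab)
    let e : S ≃ s := Equiv.ofInjective _ hinj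
    let g' : s → U := fun x => ((e.symm x : S) : U)
    have hg' : Isometry g' := by
      refine Isometry.of_dist_eq fun x y => ?_
      obtain ⟨a, rfl⟩ := e.surjective x
      obtain ⟨b, rfl⟩ := e.surjective y
      show dist ((e.symm (e a) : S) : U) ((e.symm (e b) : S) : U) = dist (f (some a)) (f (some b))
      rw [e.symm_apply_apply, e.symm_apply_apply, hf.dist_eq]
      rfl
    obtain ⟨h, hh⟩ := hU.homog s hs g' hg'
    refine ⟨h (f none), fun a ha => ?_⟩
    have h3 : h (f (some ⟨a, ha⟩)) = a := by
      have := hh (e ⟨a, ha⟩)
      have h4 : ((e ⟨a, ha⟩ : s) : U) = f (some ⟨a, ha⟩) := rfl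
      rw [h4] at this
      rw [this]
      show ((e.symm (e ⟨a, ha⟩) : S) : U) = a
      rw [e.symm_apply_apply]
    have h5 : dist (h (f none)) (h (f (some ⟨a, ha⟩))) = g a := by
      rw [h.dist_eq, hf.dist_eq]
      rfl
    rwa [h3] at h5
  · push Not at h0
    obtain ⟨a, ha, hga⟩ := h0
    have hga0 : g a = 0 := by
      have := h2 a ha a ha
      rw [dist_self] at this
      linarith
    refine ⟨a, fun b hb => ?_⟩
    have h3 := h1 b hb a ha
    have h4 := h2 a ha b hb
    rw [dist_comm b a] at h3
    linarith

/-- finitely many mutually compatible balls have a common point -/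
theorem IsUrysohn.balls (hU : IsUrysohn U) {ι : Type*} [Finite ι] (q : ι → U) (r : ι → ℝ)
    (h : ∀ i j, dist (q i) (q j) ≤ r i + r j) : ∃ u : U, ∀ i, dist u (q i) ≤ r i := by
  rcases isEmpty_or_nonempty ι with hι | hι
  · obtain ⟨f, -⟩ := hU.univ PUnit
    exact ⟨f PUnit.unit, fun i => (hι.false i).elim⟩
  have hr : ∀ i, 0 ≤ r i := fun i => by
    have := h i i
    rw [dist_self] at this
    linarith
  let g : U → ℝ := fun u => ⨅ i, (r i + dist (q i) u)
  have hbdd : ∀ u, BddBelow (range fun i => r i + dist (q i) u) := fun u =>
    ⟨0, by rintro _ ⟨i, rfl⟩; exact add_nonneg (hr i) dist_nonneg⟩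
  have hatt : ∀ u, ∃ i, g u = r i + dist (q i) u := fun u => by
    obtain ⟨i, hi⟩ := exists_eq_ciInf_of_finite (f := fun i => r i + dist (q i) u)
    exact ⟨i, hi.symm⟩
  obtain ⟨u, hu⟩ := hU.realize (S := range q) (finite_range q) g
    (fun a _ b _ => by
      obtain ⟨i, hi⟩ := hatt b
      have h1 : g a ≤ r i + dist (q i) a := ciInf_le (hbdd a) i
      have h2 := dist_triangle (q i) b a
      rw [dist_comm b a] at h2
      linarith)
    (fun a _ b _ => by
      obtain ⟨i, hi⟩ := hatt a
      obtain ⟨j, hj⟩ := hatt b
      have h1 := h i j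
      have h2 := dist_triangle4 a (q i) (q j) b
      rw [dist_comm a (q i)] at h2
      linarith)
  refine ⟨u, fun i => ?_⟩
  rw [hu (q i) (mem_range_self i)]
  have h1 : g (q i) ≤ r i + dist (q i) (q i) := ciInf_le (hbdd _) i
  rwa [dist_self, add_zero] at h1

end Pool.Agent.TH326.Ury
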