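import Pool.Agent.TH326.Ury1

set_option autoImplicit false

/-!
The Urysohn space is an absolute Lipschitz retract, part 2: replacing Katetov functions by finitely
supported ones in a Lipschitz way.
-/

namespace Pool.Agent.TH326.Ury

open Set Filter Topology

variable {U : Type} [MetricSpace U]

/-- Katetov functions on `U` -/
structure Kat (h : U → ℝ) : Prop where
  lip : ∀ u v, h u ≤ h v + dist u v
  tri : ∀ u v, dist u v ≤ h u + h v

variable {h : U → ℝ} {p : ℕ → U}

theorem Kat.nonneg (hh : Kat h) (u : U) : 0 ≤ h u := by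
  have := hh.tri u u
  rw [dist_self] at this
  linarith

/-- the infimum over the dense sequence -/
noncomputable def dl (p : ℕ → U) (h : U → ℝ) : ℝ := ⨅ i, h (p i)

theorem bdd_dl (hh : Kat h) : BddBelow (range fun i => h (p i)) :=
  ⟨0, by rintro _ ⟨i, rfl⟩; exact hh.nonneg _⟩

theorem dl_nonneg (hh : Kat h) : 0 ≤ dl p h := le_ciInf fun _ => hh.nonneg _

theorem dl_le_p (hh : Kat h) (i : ℕ) : dl p h ≤ h (p i) := ciInf_le (bdd_dl hh) i

theorem dl_le (hp : DenseRange p) (hh : Kat h) (u : U) : dl p h ≤ h u := by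
  refine le_of_forall_pos_le_add fun ε hε => ?_
  obtain ⟨i, hi⟩ := hp.exists_dist_lt u hε
  have h1 := dl_le_p (p := p) hh i
  have h2 := hh.lip (p i) u
  rw [dist_comm] at h2
  linarith

omit [MetricSpace U] in
theorem exists_near {ε : ℝ} (hε : 0 < ε) : ∃ i, h (p i) < dl p h + ε :=
  exists_lt_of_ciInf_lt (lt_add_of_pos_right _ hε)

theorem dl_lip {h' : U → ℝ} (hh : Kat h) {K : ℝ} (hK : ∀ u, h u ≤ h' u + K) :
    dl p h ≤ dl p h' + K := by
  rw [← sub_le_iff_le_add]
  refine le_ciInf fun i => ?_
  have h1 := dl_le_p (p := p) hh i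
  have h2 := hK (p i)
  linarith

/-- the increasing penalty -/
noncomputable def ww (p : ℕ → U) (h : U → ℝ) : ℕ → ℝ
  | 0 => 0
  | i + 1 => max (ww p h i) (2 * dl p h - h (p i))

omit [MetricSpace U] in
theorem ww_nonneg : ∀ i, 0 ≤ ww p h i
  | 0 => le_rfl
  | i + 1 => (ww_nonneg i).trans (le_max_left _ _)

omit [MetricSpace U] in
theorem ww_mono : Monotone (ww p h) := monotone_nat_of_le_succ fun _ => le_max_left _ _

theorem ww_le (hh : Kat h) : ∀ i, ww p h i ≤ dl p h
  | 0 => dl_nonneg hh
  | i + 1 => max_le (ww_le hh i) (by have := dl_le_p (p := p) hh i; linarith)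

theorem ww_lip {h' : U → ℝ} {K : ℝ} (hK0 : 0 ≤ K) (hh : Kat h)
    (hK : ∀ u, |h u - h' u| ≤ K) : ∀ i, ww p h i ≤ ww p h' i + 3 * K
  | 0 => by
    show (0 : ℝ) ≤ 0 + 3 * K
    positivity
  | i + 1 => by
    have h1 := ww_lip hK0 hh hK i
    have h2 : dl p h ≤ dl p h' + K := dl_lip hh fun u => by
      have := (abs_le.1 (hK u)).2
      linarith
    have h3 := (abs_le.1 (hK (p i))).1
    refine max_le (h1.trans ?_) ?_
    · have := le_max_left (ww p h' i) (2 * dl p h' - h' (p i))
      show ww p h' i + 3 * K ≤ max (ww p h' i) (2 * dl p h' - h' (p i)) + 3 * K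
      linarith
    · have := le_max_right (ww p h' i) (2 * dl p h' - h' (p i))
      show _ ≤ max (ww p h' i) (2 * dl p h' - h' (p i)) + 3 * K
      linarith

/-- the value at the `i`-th point -/
noncomputable def vv (p : ℕ → U) (h : U → ℝ) (i : ℕ) : ℝ := h (p i) + 5 * ww p h i

/-- the finitely supported modification -/
noncomputable def kk (p : ℕ → U) (h : U → ℝ) (u : U) : ℝ := ⨅ i, (vv p h i + dist (p i) u)

omit [MetricSpace U] in
theorem vv_ge (i : ℕ) : h (p i) ≤ vv p h i := by
  have := ww_nonneg (p := p) (h := h) i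
  unfold vv
  linarith

theorem vv_le (hh : Kat h) (i : ℕ) : vv p h i ≤ h (p i) + 5 * dl p h := by
  have := ww_le (p := p) hh i
  unfold vv
  linarith

theorem bdd_kk (hh : Kat h) (u : U) : BddBelow (range fun i => vv p h i + dist (p i) u) :=
  ⟨0, by
    rintro _ ⟨i, rfl⟩
    exact add_nonneg ((hh.nonneg _).trans (vv_ge i)) dist_nonneg⟩

theorem kk_le (hh : Kat h) (u : U) (i : ℕ) : kk p h u ≤ vv p h i + dist (p i) u :=
  ciInf_le (bdd_kk hh u) i

theorem exists_kk (u : U) {ε : ℝ} (hε : 0 < ε) : ∃ i, vv p h i + dist (p i) u < kk p h u + ε :=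
  exists_lt_of_ciInf_lt (lt_add_of_pos_right _ hε)

theorem kk_kat (hh : Kat h) : Kat (kk p h) where
  lip u v := by
    refine le_of_forall_pos_le_add fun ε hε => ?_
    obtain ⟨i, hi⟩ := exists_kk (p := p) (h := h) v hε
    have h1 := kk_le (p := p) hh u i
    have h2 := dist_triangle (p i) v u
    rw [dist_comm v u] at h2
    linarith
  tri u v := by
    refine le_of_forall_pos_le_add fun ε hε => ?_
    obtain ⟨i, hi⟩ := exists_kk (p := p) (h := h) u (half_pos hε)
    obtain ⟨j, hj⟩ := exists_kk (p := p) (h := h) v (half_pos hε)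
    have h1 := vv_ge (p := p) (h := h) i
    have h2 := vv_ge (p := p) (h := h) j
    have h3 := hh.tri (p i) (p j)
    have h4 := dist_triangle4 u (p i) (p j) v
    rw [dist_comm u (p i)] at h4
    linarith

theorem kk_le_six (hp : DenseRange p) (hh : Kat h) (u : U) : kk p h u ≤ 6 * h u := by
  refine le_of_forall_pos_le_add fun ε hε => ?_
  obtain ⟨i, hi⟩ := hp.exists_dist_lt u (half_pos hε)
  have h1 := kk_le (p := p) hh u i
  have h2 := vv_le (p := p) hh i
  have h3 := dl_le hp hh u
  have h4 := hh.lip (p i) u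
  rw [dist_comm u (p i)] at hi
  linarith

theorem kk_lip {h' : U → ℝ} {K : ℝ} (hK0 : 0 ≤ K) (hh : Kat h)
    (hK : ∀ u, |h u - h' u| ≤ K) (u : U) : kk p h u ≤ kk p h' u + 16 * K := by
  refine le_of_forall_pos_le_add fun ε hε => ?_
  obtain ⟨i, hi⟩ := exists_kk (p := p) (h := h') u hε
  have h1 := kk_le (p := p) hh u i
  have h2 := ww_lip (p := p) hK0 hh hK i
  have h3 := (abs_le.1 (hK (p i))).2
  unfold vv at h1 hi
  linarith

/-- the modification is finitely supported -/
theorem kk_support [CompleteSpace U] (hp : DenseRange p) (hh : Kat h) :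
    ∃ S : Set U, S.Finite ∧ ∀ u, ∃ s ∈ S, kk p h s + dist s u ≤ kk p h u := by
  rcases (dl_nonneg (p := p) hh).eq_or_lt with h0 | h0
  · -- `h` vanishes at a point
    have hex : ∀ n : ℕ, ∃ i, h (p i) < 1 / ((n : ℝ) + 1) := fun n => by
      obtain ⟨i, hi⟩ := exists_near (p := p) (h := h) (ε := 1 / ((n : ℝ) + 1)) (by positivity)
      rw [← h0, zero_add] at hi
      exact ⟨i, hi⟩
    choose i hi using hex
    have hlim : Tendsto (fun n : ℕ => 2 * (1 / ((n : ℝ) + 1))) atTop (𝓝 0) := by
      have := (tendsto_one_div_add_atTop_nhds_zero_nat (𝕜 := ℝ)).const_mul 2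
      rwa [mul_zero] at this
    have hc : CauchySeq fun n => p (i n) := by
      refine cauchySeq_of_le_tendsto_0 _ (fun n m N hn hm => ?_) hlim
      have h1 := hh.tri (p (i n)) (p (i m))
      have h2 : 1 / ((n : ℝ) + 1) ≤ 1 / ((N : ℝ) + 1) := by
        apply one_div_le_one_div_of_le (by positivity)
        have : (N : ℝ) ≤ n := by exact_mod_cast hn
        linarith
      have h3 : 1 / ((m : ℝ) + 1) ≤ 1 / ((N : ℝ) + 1) := by
        apply one_div_le_one_div_of_le (by positivity)
        have : (N : ℝ) ≤ m := by exact_mod_cast hm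
        linarith
      have h4 := hi n
      have h5 := hi m
      linarith
    obtain ⟨x, hx⟩ := cauchySeq_tendsto_of_complete hc
    have hhx : h x ≤ 0 := by
      have h1 : Tendsto (fun n : ℕ => 1 / ((n : ℝ) + 1) + dist (p (i n)) x) atTop (𝓝 0) := by
        have h2 := (tendsto_one_div_add_atTop_nhds_zero_nat (𝕜 := ℝ)).add
          (tendsto_iff_dist_tendsto_zero.1 hx)
        rwa [add_zero] at h2
      refine ge_of_tendsto' h1 fun n => ?_
      have h2 := hh.lip x (p (i n))
      rw [dist_comm] at h2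
      have h3 := hi n
      linarith
    refine ⟨{x}, finite_singleton x, fun u => ⟨x, rfl, ?_⟩⟩
    have h1 := kk_le_six hp hh x
    have h2 := (kk_kat (p := p) hh).tri x u
    have h3 := (kk_kat (p := p) hh).nonneg x
    linarith
  · -- positive infimum
    set d := dl p h with hd
    obtain ⟨j, hj⟩ := exists_near (p := p) (h := h) (ε := d / 10) (by positivity)
    have hex : ∃ i, h (p i) ≤ 19 / 10 * d := ⟨j, by linarith⟩
    classical
    obtain ⟨i', hi', hmin⟩ : ∃ i', h (p i') ≤ 19 / 10 * d ∧ ∀ k < i', 19 / 10 * d < h (p k) :=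
      ⟨Nat.find hex, Nat.find_spec hex, fun k hk => by
        have := Nat.find_min hex hk
        push Not at this
        exact this⟩
    have hwi : ww p h i' ≤ d / 10 := by
      have : ∀ k ≤ i', ww p h k ≤ d / 10 := by
        intro k
        induction k with
        | zero =>
          intro _
          show (0 : ℝ) ≤ d / 10
          positivity
        | succ k ih =>
          intro hk
          refine max_le (ih (Nat.le_of_succ_le hk)) ?_
          have := hmin k hk
          rw [← hd]
          linarith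
      exact this i' le_rfl
    have hwj : ∀ k, j < k → 9 / 10 * d ≤ ww p h k := by
      intro k hk
      have h1 : 9 / 10 * d ≤ ww p h (j + 1) := by
        refine le_trans ?_ (le_max_right _ _)
        rw [← hd]
        linarith
      exact h1.trans (ww_mono hk)
    -- the terms beyond `j` are irrelevant
    have hkill : ∀ k, j < k → ∀ u, vv p h i' + dist (p i') u ≤ vv p h k + dist (p k) u := by
      intro k hk u
      have h1 := hwj k hk
      have h2 := hh.tri (p k) (p i')
      have h3 := dist_triangle (p i') (p k) u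
      rw [dist_comm (p i') (p k)] at h3
      unfold vv
      linarith
    have hij : i' ≤ j := by
      by_contra hcon
      push Not at hcon
      have := hmin j hcon
      linarith
    refine ⟨p '' (Set.Iic j), (Set.finite_Iic j).image p, fun u => ?_⟩
    have hatt : ∃ k ≤ j, vv p h k + dist (p k) u ≤ kk p h u := by
      obtain ⟨k, hk, hk2⟩ := Finset.exists_min_image (Finset.Iic j)
        (fun k => vv p h k + dist (p k) u) ⟨j, by simp⟩
      refine ⟨k, by simpa using hk, ?_⟩
      refine le_ciInf fun l => ?_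
      rcases le_or_gt l j with hl | hl
      · exact hk2 l (by simpa using hl)
      · exact (hk2 i' (by simpa using hij)).trans (hkill l hl u)
    obtain ⟨k, hk, hk2⟩ := hatt
    refine ⟨p k, ⟨k, hk, rfl⟩, ?_⟩
    have h1 := kk_le (p := p) hh (p k) k
    rw [dist_self, add_zero] at h1
    linarith

end Pool.Agent.TH326.Ury
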